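import Mathlib

/-!
# Linear substitutions in forms
-/

set_option autoImplicit false

namespace Pool.Agent.Q76.GIT

open MvPolynomial Filter Topology

variable {n : ℕ}

/-- The polynomial `f (g x)`, for a matrix `g`. -/
noncomputable def act (g : Matrix (Fin n) (Fin n) ℂ) (f : MvPolynomial (Fin n) ℂ) :
    MvPolynomial (Fin n) ℂ :=
  bind₁ (fun i => ∑ j, C (g i j) * X j) f

theorem act_C (g : Matrix (Fin n) (Fin n) ℂ) (c : ℂ) : act g (C c) = C c := by
  simp [act]

theorem act_X (g : Matrix (Fin n) (Fin n) ℂ) (i : Fin n) : act g (X i) = ∑ j, C (g i j) * X j := by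
  simp [act]

theorem act_add (g : Matrix (Fin n) (Fin n) ℂ) (f h : MvPolynomial (Fin n) ℂ) :
    act g (f + h) = act g f + act g h := by simp [act]

theorem act_mul' (g : Matrix (Fin n) (Fin n) ℂ) (f h : MvPolynomial (Fin n) ℂ) :
    act g (f * h) = act g f * act g h := by simp [act]

theorem act_zero (g : Matrix (Fin n) (Fin n) ℂ) : act g 0 = 0 := by simp [act]

theorem act_sum {ι : Type*} (s : Finset ι) (g : Matrix (Fin n) (Fin n) ℂ)
    (f : ι → MvPolynomial (Fin n) ℂ) : act g (∑ i ∈ s, f i) = ∑ i ∈ s, act g (f i) := by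
  simp [act]

theorem act_act (g h : Matrix (Fin n) (Fin n) ℂ) (f : MvPolynomial (Fin n) ℂ) :
    act (g * h) f = act h (act g f) := by
  unfold act
  rw [bind₁_bind₁]
  congr 1
  apply MvPolynomial.algHom_ext
  intro i
  simp only [bind₁_X_right, map_sum, map_mul, bind₁_C_right, Matrix.mul_apply, Finset.sum_mul,
    Finset.mul_sum]
  rw [Finset.sum_comm]
  refine Finset.sum_congr rfl fun j _ => Finset.sum_congr rfl fun k _ => ?_
  rw [mul_assoc]

theorem act_one (f : MvPolynomial (Fin n) ℂ) : act 1 f = f := by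
  unfold act
  have : (fun i => ∑ j, C ((1 : Matrix (Fin n) (Fin n) ℂ) i j) * X j) =
      (X : Fin n → MvPolynomial (Fin n) ℂ) := by
    funext i
    rw [Finset.sum_eq_single i]
    · simp
    · intro j _ hj
      rw [Matrix.one_apply_ne (Ne.symm hj)]
      simp
    · simp
  rw [this]
  simp

theorem act_homog {f : MvPolynomial (Fin n) ℂ} {d : ℕ} (hf : f.IsHomogeneous d)
    (g : Matrix (Fin n) (Fin n) ℂ) : (act g f).IsHomogeneous d := by
  unfold act
  have h := MvPolynomial.IsHomogeneous.aeval (S := ℂ) hf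
    (fun i => ∑ j, C (g i j) * X j) (n := 1) (fun i => ?_)
  · simpa using h
  · apply MvPolynomial.IsHomogeneous.sum
    intro j _
    simpa using (isHomogeneous_C (Fin n) (g i j)).mul (isHomogeneous_X ℂ j)

theorem coeff_act_diagonal (a : Fin n → ℂ) (f : MvPolynomial (Fin n) ℂ) (m : Fin n →₀ ℕ) :
    coeff m (act (Matrix.diagonal a) f) = (∏ i, a i ^ m i) * coeff m f := by
  have key : ∀ i, (∑ j, C ((Matrix.diagonal a) i j) * X j : MvPolynomial (Fin n) ℂ)
      = C (a i) * X i := by
    intro i
    rw [Finset.sum_eq_single i]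
    · rw [Matrix.diagonal_apply_eq]
    · intro j _ hj
      rw [Matrix.diagonal_apply_ne _ (Ne.symm hj)]
      simp
    · simp
  induction f using MvPolynomial.induction_on' with
  | monomial u c =>
    unfold act
    simp only [key]
    rw [bind₁_monomial]
    have : (∏ i ∈ u.support, (C (a i) * X i : MvPolynomial (Fin n) ℂ) ^ u i)
        = C (∏ i, a i ^ u i) * monomial u 1 := by
      rw [monomial_eq]
      simp only [mul_pow, Finset.prod_mul_distrib, C_1, one_mul, map_prod, map_pow]
      congr 1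
      apply Finset.prod_subset (Finset.subset_univ _)
      intro i _ hi
      rw [Finsupp.notMem_support_iff.1 hi, pow_zero]
    rw [this, ← mul_assoc, ← C_mul, coeff_C_mul, coeff_monomial, coeff_monomial]
    split_ifs with h
    · subst h; ring
    · simp
  | add p q hp hq => rw [act_add, coeff_add, coeff_add, hp, hq, mul_add]

theorem continuous_coeff_act (f : MvPolynomial (Fin n) ℂ) :
    ∀ m, Continuous fun g : Matrix (Fin n) (Fin n) ℂ => coeff m (act g f) := by
  induction f using MvPolynomial.induction_on with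
  | C a => intro m; simp only [act_C]; exact continuous_const
  | add p q hp hq =>
    intro m
    simp only [act_add, coeff_add]
    exact (hp m).add (hq m)
  | mul_X p i hp =>
    intro m
    simp only [act_mul', coeff_mul, act_X]
    refine continuous_finsetSum _ fun x _ => (hp x.1).mul ?_
    simp only [coeff_sum, coeff_C_mul]
    refine continuous_finsetSum _ fun j _ => Continuous.mul ?_ continuous_const
    exact continuous_id.matrix_elem i j

/-- The exponents of degree `d`. -/
noncomputable abbrev exps (n d : ℕ) : Finset (Fin n →₀ ℕ) := Finset.univ.finsuppAntidiag d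

theorem mem_exps {d : ℕ} {m : Fin n →₀ ℕ} : m ∈ exps n d ↔ ∑ i, m i = d := by
  simp [exps, Finset.mem_finsuppAntidiag]

theorem mem_exps_of_coeff {f : MvPolynomial (Fin n) ℂ} {d : ℕ} (hf : f.IsHomogeneous d)
    {m : Fin n →₀ ℕ} (hm : coeff m f ≠ 0) : m ∈ exps n d := by
  rw [mem_exps, ← hf hm, Finsupp.weight_apply]
  simp [Finsupp.sum_fintype]

theorem expand {f : MvPolynomial (Fin n) ℂ} {d : ℕ} (hf : f.IsHomogeneous d) :
    f = ∑ m ∈ exps n d, C (coeff m f) * monomial m 1 := by
  conv_lhs => rw [f.as_sum]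
  have h : ∀ m, C (coeff m f) * monomial m 1 = monomial m (coeff m f) := fun m => by
    rw [C_mul_monomial, mul_one]
  simp only [h]
  apply Finset.sum_subset
  · intro m hm
    exact mem_exps_of_coeff hf (mem_support_iff.1 hm)
  · intro m _ hm
    rw [notMem_support_iff.1 hm, monomial_zero]

theorem coeff_act {f : MvPolynomial (Fin n) ℂ} {d : ℕ} (hf : f.IsHomogeneous d)
    (g : Matrix (Fin n) (Fin n) ℂ) (m : Fin n →₀ ℕ) :
    coeff m (act g f) = ∑ m' ∈ exps n d, coeff m' f * coeff m (act g (monomial m' 1)) := by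
  conv_lhs => rw [expand hf, act_sum, coeff_sum]
  refine Finset.sum_congr rfl fun m' _ => ?_
  rw [act_mul', act_C, coeff_C_mul]

theorem tendsto_act {ι : Type*} {l : Filter ι} {d : ℕ} {G : ι → Matrix (Fin n) (Fin n) ℂ}
    {g : Matrix (Fin n) (Fin n) ℂ} (hG : Tendsto G l (𝓝 g)) {F : ι → MvPolynomial (Fin n) ℂ}
    {f : MvPolynomial (Fin n) ℂ} (hF : ∀ i, (F i).IsHomogeneous d) (hf : f.IsHomogeneous d)
    (h : ∀ m, Tendsto (fun i => coeff m (F i)) l (𝓝 (coeff m f))) (m : Fin n →₀ ℕ) :
    Tendsto (fun i => coeff m (act (G i) (F i))) l (𝓝 (coeff m (act g f))) := by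
  simp only [coeff_act hf, coeff_act (hF _)]
  refine tendsto_finsetSum _ fun m' _ => (h m').mul ?_
  exact ((continuous_coeff_act _ m).tendsto g).comp hG

end Pool.Agent.Q76.GIT
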