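import Mathlib

/-!
# A bounded algebraic subset of `ℂ^σ` is finite
-/

set_option autoImplicit false

namespace Pool.Agent.Q76.GIT

open MvPolynomial

theorem finite_of_bounded {σ : Type*} [Finite σ] (S : Set (MvPolynomial σ ℂ)) (B : ℝ)
    (hB : ∀ x : σ → ℂ, (∀ p ∈ S, eval x p = 0) → ∀ i, ‖x i‖ ≤ B) :
    {x : σ → ℂ | ∀ p ∈ S, eval x p = 0}.Finite := by
  classical
  have := Fintype.ofFinite σ
  set I : Ideal (MvPolynomial σ ℂ) := Ideal.span S with hI
  have hZ : zeroLocus ℂ I = {x : σ → ℂ | ∀ p ∈ S, eval x p = 0} := by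
    rw [hI, zeroLocus_span]
    simp [aeval_eq_eval]
  by_cases htop : I = ⊤
  · rw [← hZ, htop, zeroLocus_top]
    exact Set.finite_empty
  have : Nontrivial (MvPolynomial σ ℂ ⧸ I) := Ideal.Quotient.nontrivial_iff.2 htop
  obtain ⟨s, g, hinj, hint⟩ := exists_integral_inj_algHom_of_fg ℂ (MvPolynomial σ ℂ ⧸ I)
  have hB' : ∀ x ∈ zeroLocus ℂ I, ∀ i, ‖x i‖ ≤ B := by
    rw [hZ]; exact hB
  rw [← hZ]
  rcases Nat.eq_zero_or_pos s with hs | hs
  · subst hs
    -- every element of the quotient is integral over `ℂ`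
    have h1 : ∀ i : σ, ∃ p : Polynomial ℂ, p.Monic ∧
        Polynomial.aeval (Ideal.Quotient.mk I (X i)) p = 0 := by
      intro i
      obtain ⟨q, hq, hq0⟩ := hint (Ideal.Quotient.mk I (X i))
      let e : MvPolynomial (Fin 0) ℂ ≃ₐ[ℂ] ℂ := isEmptyAlgEquiv ℂ (Fin 0)
      refine ⟨q.map e.toRingEquiv.toRingHom, hq.map _, ?_⟩
      rw [Polynomial.aeval_def, Polynomial.eval₂_map]
      rw [← hq0]
      congr 1
      apply RingHom.ext
      intro a
      have : g (algebraMap ℂ _ (e a)) = algebraMap ℂ _ (e a) := g.commutes _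
      have h2 : algebraMap ℂ (MvPolynomial (Fin 0) ℂ) (e a) = a := by
        apply e.injective
        rw [AlgEquiv.commutes]
        rfl
      rw [h2] at this
      exact this.symm
    choose p hp hp0 using h1
    have h2 : zeroLocus ℂ I ⊆ Set.pi Set.univ fun i => ((p i).roots.toFinset : Set ℂ) := by
      intro x hx i _
      rw [Finset.mem_coe, Multiset.mem_toFinset, Polynomial.mem_roots (hp i).ne_zero,
        Polynomial.IsRoot.def]
      have hx' : ∀ a : MvPolynomial σ ℂ, a ∈ I → (aeval x : MvPolynomial σ ℂ →ₐ[ℂ] ℂ) a = 0 :=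
        fun a ha => hx a ha
      let φ : (MvPolynomial σ ℂ ⧸ I) →ₐ[ℂ] ℂ := Ideal.Quotient.liftₐ I (aeval x) hx'
      have h3 := congrArg φ (hp0 i)
      rw [← Polynomial.aeval_algHom_apply, map_zero] at h3
      have h4 : φ (Ideal.Quotient.mk I (X i)) = x i := by
        change (aeval x : MvPolynomial σ ℂ →ₐ[ℂ] ℂ) (X i) = x i
        simp
      rw [h4] at h3
      simpa [Polynomial.aeval_def, Polynomial.eval₂_eq_eval_map] using h3
    exact (Set.Finite.pi' fun i => Finset.finite_toSet _).subset fun x hx i => h2 hx i trivial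
  · exfalso
    -- a nonconstant bounded function
    let j : Fin s := ⟨0, hs⟩
    obtain ⟨Y, hY⟩ := Ideal.Quotient.mk_surjective (g (X j))
    obtain ⟨C₀, hC⟩ : ∃ C₀ : ℝ, ∀ x ∈ zeroLocus ℂ I, ‖eval x Y‖ ≤ C₀ := by
      have hcomp : IsCompact (Set.pi Set.univ fun _ : σ => Metric.closedBall (0 : ℂ) B) :=
        isCompact_univ_pi fun _ => isCompact_closedBall _ _
      obtain ⟨C₀, hC₀⟩ := hcomp.exists_bound_of_continuousOn
        (f := fun x : σ → ℂ => eval x Y) (MvPolynomial.continuous_eval Y).continuousOn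
      exact ⟨C₀, fun x hx => hC₀ x fun i _ => mem_closedBall_zero_iff.2 (hB' x hx i)⟩
    let c : ℂ := ((|C₀| + 1 : ℝ) : ℂ)
    have hc : ∀ x ∈ zeroLocus ℂ I, eval x Y - c ≠ 0 := by
      intro x hx h0
      rw [sub_eq_zero] at h0
      have h1 := hC x hx
      rw [h0] at h1
      have h2 : ‖c‖ = |C₀| + 1 := by
        change ‖((|C₀| + 1 : ℝ) : ℂ)‖ = _
        rw [Complex.norm_real, Real.norm_eq_abs, abs_of_nonneg (by positivity)]
      rw [h2] at h1
      have := le_abs_self C₀
      linarith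
    have hJ : I ⊔ Ideal.span {Y - C c} = ⊤ := by
      rw [← Ideal.radical_eq_top, ← vanishingIdeal_zeroLocus_eq_radical (K := ℂ)]
      have : zeroLocus ℂ (I ⊔ Ideal.span {Y - C c}) = (∅ : Set (σ → ℂ)) := by
        rw [Set.eq_empty_iff_forall_notMem]
        intro x hx
        have hxI : x ∈ zeroLocus ℂ I := zeroLocus_anti_mono le_sup_left hx
        apply hc x hxI
        have := hx (Y - C c) (Ideal.mem_sup_right (Ideal.mem_span_singleton_self _))
        simpa [aeval_eq_eval] using this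
      rw [this]
      exact vanishingIdeal_empty
    have hunit : IsUnit (Ideal.Quotient.mk I (Y - C c)) := by
      have h1 : (1 : MvPolynomial σ ℂ) ∈ I ⊔ Ideal.span {Y - C c} := by rw [hJ]; trivial
      rw [sup_comm, Ideal.mem_span_singleton_sup] at h1
      obtain ⟨a, b, hb, hab⟩ := h1
      have h2 := congrArg (Ideal.Quotient.mk I) hab
      rw [map_add, map_mul, map_one, Ideal.Quotient.eq_zero_iff_mem.2 hb, add_zero] at h2
      exact IsUnit.of_mul_eq_one_right _ h2
    have hg : Ideal.Quotient.mk I (Y - C c) = g (X j - C c) := by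
      rw [map_sub, map_sub, hY]
      congr 1
      exact (g.commutes c).symm
    rw [hg] at hunit
    have hloc : IsLocalHom g.toRingHom :=
      RingHom.IsIntegral.isLocalHom hint hinj
    have h3 : IsUnit (X j - C c : MvPolynomial (Fin s) ℂ) :=
      isUnit_of_map_unit g.toRingHom _ hunit
    have h4 := h3.map (eval fun _ => c : MvPolynomial (Fin s) ℂ →+* ℂ)
    simp at h4

end Pool.Agent.Q76.GIT
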