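import Mathlib

/-!
# Certificate checker for the covering of the Weyl chamber

`g` is the vector of the gaps of a weight vector.  A linear form is a list of integers.
-/

set_option autoImplicit false

namespace Pool.Agent.Q76.GIT

/-- the value of a linear form -/
def dot : List ℤ → List ℤ → ℤ
  | a :: as, b :: bs => a * b + dot as bs
  | _, _ => 0

def addl : List ℤ → List ℤ → List ℤ
  | a :: as, b :: bs => (a + b) :: addl as bs
  | _, _ => []

def smull (k : ℤ) : List ℤ → List ℤ
  | a :: as => (k * a) :: smull k as
  | [] => []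

theorem dot_smull (k : ℤ) : ∀ a g : List ℤ, dot (smull k a) g = k * dot a g
  | [], g => by simp [smull, dot]
  | a :: as, [] => by simp [smull, dot]
  | a :: as, b :: bs => by
    simp only [smull, dot, dot_smull k as bs]
    ring

theorem dot_addl : ∀ a b g : List ℤ, a.length = g.length → b.length = g.length →
    dot (addl a b) g = dot a g + dot b g
  | [], b, [], _, _ => by cases b <;> simp_all [addl, dot]
  | [], b, _ :: _, h, _ => by simp at h
  | a :: as, [], [], h, _ => by simp at h
  | a :: as, [], _ :: _, _, h => by simp at h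
  | a :: as, b :: bs, [], h, _ => by simp at h
  | a :: as, b :: bs, c :: cs, h1, h2 => by
    simp only [addl, dot]
    rw [dot_addl as bs cs (by simpa using h1) (by simpa using h2)]
    ring

theorem length_smull (k : ℤ) : ∀ a : List ℤ, (smull k a).length = a.length
  | [] => rfl
  | a :: as => by simp [smull, length_smull k as]

theorem length_addl : ∀ a b : List ℤ, a.length = b.length → (addl a b).length = b.length
  | [], [], _ => rfl
  | [], _ :: _, h => by simp at h
  | _ :: _, [], h => by simp at h
  | a :: as, b :: bs, h => by simp [addl, length_addl as bs (by simpa using h)]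

/-- nonnegative combination of the constraints -/
def comb (D : ℕ) : List ℕ → List (List ℤ × Bool) → List ℤ
  | l :: ls, c :: cs => addl (smull l c.1) (comb D ls cs)
  | _, _ => List.replicate D 0

def hasStrict : List ℕ → List (List ℤ × Bool) → Bool
  | l :: ls, c :: cs => (decide (0 < l) && c.2) || hasStrict ls cs
  | _, _ => false

/-- the constraints are satisfied -/
def Sat (g : List ℤ) (cs : List (List ℤ × Bool)) : Prop :=
  ∀ c ∈ cs, c.1.length = g.length ∧ 0 ≤ dot c.1 g ∧ (c.2 = true → 0 < dot c.1 g)

theorem dot_replicate : ∀ (D : ℕ) (g : List ℤ), dot (List.replicate D 0) g = 0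
  | 0, g => by simp [dot]
  | D + 1, [] => by simp [List.replicate, dot]
  | D + 1, b :: bs => by simp [List.replicate, dot, dot_replicate D bs]

theorem comb_spec {g : List ℤ} {D : ℕ} (hD : g.length = D) : ∀ (lam : List ℕ)
    (cs : List (List ℤ × Bool)), Sat g cs →
    (comb D lam cs).length = D ∧ 0 ≤ dot (comb D lam cs) g ∧
      (hasStrict lam cs = true → 0 < dot (comb D lam cs) g)
  | [], cs, _ => by
    cases cs <;> simp [comb, dot_replicate, hasStrict]
  | l :: ls, [], _ => by simp [comb, dot_replicate, hasStrict]
  | l :: ls, c :: cs, h => by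
    have h1 := comb_spec hD ls cs fun c' hc' => h c' (List.mem_cons_of_mem _ hc')
    have h2 := h c List.mem_cons_self
    have e1 : (smull l c.1).length = g.length := by rw [length_smull]; exact h2.1
    have e2 : (comb D ls cs).length = g.length := by rw [h1.1, hD]
    refine ⟨?_, ?_, ?_⟩
    · simp only [comb]
      rw [length_addl _ _ (e1.trans e2.symm), h1.1]
    · simp only [comb]
      rw [dot_addl _ _ _ e1 e2, dot_smull]
      have : 0 ≤ (l : ℤ) * dot c.1 g := mul_nonneg (by positivity) h2.2.1
      linarith [h1.2.1]
    · intro hs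
      simp only [comb]
      rw [dot_addl _ _ _ e1 e2, dot_smull]
      simp only [hasStrict, Bool.or_eq_true, Bool.and_eq_true, decide_eq_true_eq] at hs
      rcases hs with ⟨hl, hc⟩ | hs
      · have : 0 < (l : ℤ) * dot c.1 g := mul_pos (by exact_mod_cast hl) (h2.2.2 hc)
        linarith [h1.2.1]
      · have : 0 ≤ (l : ℤ) * dot c.1 g := mul_nonneg (by positivity) h2.2.1
        linarith [h1.2.2 hs]

/-- certificate for `0 < t·g` (strict) or `0 ≤ t·g` -/
def cert (D : ℕ) (strict : Bool) (t : List ℤ) (cs : List (List ℤ × Bool)) (mu : ℕ)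
    (lam : List ℕ) : Bool :=
  decide (0 < mu) && decide (comb D lam cs = smull mu t) && (!strict || hasStrict lam cs)

theorem cert_spec {g : List ℤ} {D : ℕ} (hD : g.length = D) {strict : Bool} {t : List ℤ}
    {cs : List (List ℤ × Bool)} (hcs : Sat g cs) {mu : ℕ} {lam : List ℕ}
    (h : cert D strict t cs mu lam = true) :
    0 ≤ dot t g ∧ (strict = true → 0 < dot t g) := by
  simp only [cert, Bool.and_eq_true, decide_eq_true_eq, Bool.or_eq_true,
    Bool.not_eq_true'] at h
  obtain ⟨⟨hmu, heq⟩, hst⟩ := h
  have h1 := comb_spec hD lam cs hcs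
  rw [heq, dot_smull] at h1
  have hmu' : (0 : ℤ) < mu := by exact_mod_cast hmu
  constructor
  · exact nonneg_of_mul_nonneg_right (by linarith [h1.2.1]) hmu'
  · intro hs
    rcases hst with h2 | h2
    · rw [hs] at h2; exact absurd h2 (by simp)
    · exact (mul_pos_iff_of_pos_left hmu').1 (h1.2.2 h2)

/-- the linear form of a monomial, from its partial sums -/
def lf (n d : ℕ) : ℕ → ℕ → List ℕ → List ℤ
  | j, B, b :: b' :: bs =>
    ((n : ℤ) * (B + b : ℕ) - ((j + 1) * d : ℕ)) :: lf n d (j + 1) (B + b) (b' :: bs)
  | _, _, _ => []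

inductive Tree where
  | inf (lam : List ℕ) : Tree
  | leaf (i : ℕ) (certs : List (ℕ × List ℕ)) : Tree
  | node (b : List ℕ) (l r : Tree) : Tree

/-- checks the certificates of a leaf; `strict` for `r·c < 0`, otherwise `r·c ≤ 0` -/
def checkLeaf (n d : ℕ) (strict : Bool) (cs : List (List ℤ × Bool)) :
    List (List ℕ) → List (ℕ × List ℕ) → Bool
  | [], _ => true
  | _ :: _, [] => false
  | c :: C, p :: ps =>
    cert (n - 1) strict (smull (-1) (lf n d 0 0 c)) cs p.1 p.2 && checkLeaf n d strict cs C ps

def check (n d : ℕ) (strict : Bool) (sets : List (List (List ℕ))) :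
    List (List ℤ × Bool) → Tree → Bool
  | cs, .inf lam => decide (comb (n - 1) lam cs = List.replicate (n - 1) 0) && hasStrict lam cs
  | cs, .leaf i certs =>
    match sets[i]? with
    | none => false
    | some C => checkLeaf n d strict cs C certs
  | cs, .node b l r =>
    decide ((lf n d 0 0 b).length = n - 1) &&
    check n d strict sets (cs ++ [(smull (-1) (lf n d 0 0 b), strict)]) l &&
    check n d strict sets (cs ++ [(lf n d 0 0 b, !strict)]) r

theorem checkLeaf_spec {n d : ℕ} {g : List ℤ} (hD : g.length = n - 1) {strict : Bool}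
    {cs : List (List ℤ × Bool)} (hcs : Sat g cs) : ∀ (C : List (List ℕ))
    (ps : List (ℕ × List ℕ)), checkLeaf n d strict cs C ps = true →
    ∀ c ∈ C, dot (lf n d 0 0 c) g ≤ 0 ∧ (strict = true → dot (lf n d 0 0 c) g < 0)
  | [], _, _, c, hc => by simp at hc
  | _ :: _, [], h, _, _ => by simp [checkLeaf] at h
  | c :: C, p :: ps, h, c', hc' => by
    simp only [checkLeaf, Bool.and_eq_true] at h
    rcases List.mem_cons.1 hc' with rfl | hc'
    · have := cert_spec hD hcs h.1
      rw [dot_smull] at this
      constructor
      · linarith [this.1]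
      · intro hs
        linarith [this.2 hs]
    · exact checkLeaf_spec hD hcs C ps h.2 c' hc'

theorem check_spec {n d : ℕ} {g : List ℤ} (hD : g.length = n - 1) {strict : Bool}
    {sets : List (List (List ℕ))} : ∀ (T : Tree) (cs : List (List ℤ × Bool)), Sat g cs →
    check n d strict sets cs T = true →
    ∃ C ∈ sets, ∀ c ∈ C, dot (lf n d 0 0 c) g ≤ 0 ∧ (strict = true → dot (lf n d 0 0 c) g < 0)
  | .inf lam, cs, hcs, h => by
    exfalso
    simp only [check, Bool.and_eq_true, decide_eq_true_eq] at h
    have := (comb_spec hD lam cs hcs).2.2 h.2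
    rw [h.1, dot_replicate] at this
    exact lt_irrefl _ this
  | .leaf i certs, cs, hcs, h => by
    simp only [check] at h
    split at h
    · simp at h
    · rename_i C hC
      exact ⟨C, List.mem_of_getElem? hC, checkLeaf_spec hD hcs C certs h⟩
  | .node b l r, cs, hcs, h => by
    simp only [check, Bool.and_eq_true, decide_eq_true_eq] at h
    obtain ⟨⟨hlen, hl⟩, hr⟩ := h
    by_cases hb : dot (lf n d 0 0 b) g < 0 ∨ (strict = false ∧ dot (lf n d 0 0 b) g ≤ 0)
    · refine check_spec hD l _ ?_ hl
      intro c hc
      rcases List.mem_append.1 hc with hc | hc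
      · exact hcs c hc
      · rw [List.mem_singleton] at hc
        subst hc
        simp only [length_smull, dot_smull]
        refine ⟨by rw [hlen, hD], ?_, ?_⟩
        · rcases hb with hb | hb
          · linarith
          · linarith [hb.2]
        · intro hs
          rcases hb with hb | hb
          · linarith
          · rw [hs] at hb; exact absurd hb.1 (by simp)
    · push Not at hb
      refine check_spec hD r _ ?_ hr
      intro c hc
      rcases List.mem_append.1 hc with hc | hc
      · exact hcs c hc
      · rw [List.mem_singleton] at hc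
        subst hc
        refine ⟨by rw [hlen, hD], hb.1, ?_⟩
        intro hs
        exact hb.2 (by simpa using hs)

/-- coordinatewise comparison -/
def lel : List ℤ → List ℤ → Bool
  | a :: as, b :: bs => decide (a ≤ b) && lel as bs
  | [], [] => true
  | _, _ => false

theorem lel_spec : ∀ (a b g : List ℤ), (∀ x ∈ g, 0 ≤ x) → lel a b = true → dot a g ≤ dot b g
  | [], [], g, _, _ => le_rfl
  | [], _ :: _, _, _, h => by simp [lel] at h
  | _ :: _, [], _, _, h => by simp [lel] at h
  | a :: as, b :: bs, [], _, _ => by simp [dot]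
  | a :: as, b :: bs, c :: cs, hg, h => by
    simp only [lel, Bool.and_eq_true, decide_eq_true_eq] at h
    simp only [dot]
    have h1 := lel_spec as bs cs (fun x hx => hg x (List.mem_cons_of_mem _ hx)) h.2
    have h2 : a * c ≤ b * c := mul_le_mul_of_nonneg_right h.1 (hg c List.mem_cons_self)
    linarith

/-- all the exponents of degree `d` in `n` variables -/
def monos : ℕ → ℕ → List (List ℕ)
  | 0, 0 => [[]]
  | 0, _ + 1 => []
  | n + 1, d => (List.range (d + 1)).flatMap fun a => (monos n (d - a)).map (a :: ·)

theorem mem_monos : ∀ (n d : ℕ) (l : List ℕ), l.length = n → l.sum = d → l ∈ monos n d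
  | 0, 0, [], _, _ => by simp [monos]
  | 0, _ + 1, [], _, h => by simp at h
  | 0, _, _ :: _, h, _ => by simp at h
  | n + 1, d, [], h, _ => by simp at h
  | n + 1, d, a :: l, h, hs => by
    simp only [monos, List.mem_flatMap, List.mem_range, List.mem_map]
    rw [List.sum_cons] at hs
    exact ⟨a, by omega, l, mem_monos n (d - a) l (by simpa using h) (by omega), rfl⟩

/-- the weighted degree -/
def wdeg : List ℕ → List ℕ → ℕ
  | w :: ws, m :: ms => w * m + wdeg ws ms
  | _, _ => 0

/-- every monomial of weighted degree `< e` is dominated by a critical one -/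
def domCheck (n d : ℕ) (s : (List ℕ × ℕ) × List (List ℕ)) : Bool :=
  (monos n d).all fun m => decide (s.1.2 ≤ wdeg s.1.1 m) ||
    s.2.any fun c => lel (lf n d 0 0 m) (lf n d 0 0 c)

/-- the initial constraints: the gaps are nonnegative, and not all zero -/
def initial (n : ℕ) : List (List ℤ × Bool) :=
  ((List.range (n - 1)).map fun j =>
    ((List.range (n - 1)).map fun i => if i = j then (1 : ℤ) else 0, false)) ++
    [(List.replicate (n - 1) 1, true)]

theorem main_comb {n d : ℕ} {g : List ℤ} (hD : g.length = n - 1) (hg : ∀ x ∈ g, 0 ≤ x)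
    (hinit : Sat g (initial n)) {strict : Bool} (sets : List ((List ℕ × ℕ) × List (List ℕ)))
    (T : Tree) (hT : check n d strict (sets.map Prod.snd) (initial n) T = true)
    (hdom : sets.all (domCheck n d) = true) :
    ∃ s ∈ sets, ∀ m : List ℕ, m.length = n → m.sum = d →
      (if strict then 0 ≤ dot (lf n d 0 0 m) g else 0 < dot (lf n d 0 0 m) g) →
      s.1.2 ≤ wdeg s.1.1 m := by
  obtain ⟨C, hC, hneg⟩ := check_spec hD T (initial n) hinit hT
  obtain ⟨s, hs, rfl⟩ := List.mem_map.1 hC
  refine ⟨s, hs, fun m hlen hsum hpos => ?_⟩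
  have h1 := List.all_eq_true.1 hdom s hs
  have h2 := List.all_eq_true.1 h1 m (mem_monos n d m hlen hsum)
  simp only [Bool.or_eq_true, decide_eq_true_eq, List.any_eq_true] at h2
  rcases h2 with h2 | ⟨c, hc, hle⟩
  · exact h2
  · exfalso
    have h3 := lel_spec _ _ g hg hle
    have h4 := hneg c hc
    cases strict
    · simp only [Bool.false_eq_true, if_false] at hpos
      linarith [h4.1]
    · simp only [if_true] at hpos
      linarith [h4.2 rfl]

end Pool.Agent.Q76.GIT
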