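import Pool.Agent.Q76.GIT.Comb

/-!
# The certificate trees (generated by a computer search)
-/

set_option autoImplicit false
set_option linter.style.longLine false
set_option maxRecDepth 100000

namespace Pool.Agent.Q76.GIT

def sets45n : List ((List ℕ × ℕ) × List (List ℕ)) := [
  (([1,1,1,0], 4), [[3,0,0,2]]),
  (([2,1,1,0], 5), [[2,0,0,3], [1,2,0,2], [0,4,0,1]]),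
  (([5,4,3,0], 15), [[2,1,0,2], [1,0,3,1], [0,2,2,1]]),
  (([3,3,1,0], 9), [[2,0,2,1], [1,0,4,0]]),
  (([9,7,4,0], 25), [[2,0,1,2], [1,2,0,2], [1,1,2,1], [0,1,4,0]]),
  (([4,3,1,0], 10), [[2,0,1,2], [1,1,2,1], [1,0,4,0], [0,3,0,2], [0,2,3,0]]),
  (([2,1,0,0], 4), [[1,1,3,0], [0,3,2,0]]),
  (([9,5,2,0], 20), [[2,0,0,3], [1,2,0,2], [1,1,2,1], [1,0,4,0], [0,3,2,0]]),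
  (([5,2,1,0], 10), [[1,2,0,2], [1,1,2,1], [1,0,4,0], [0,4,1,0]]),
  (([12,4,3,0], 24), [[1,2,1,1], [0,5,0,0]])]

def tree45n : Tree :=
  .node [3,0,0,2] (.leaf 0 [(1, [0,0,0,0,1])]) (.node [1,0,4,0] (.node [2,0,2,1] (.leaf 3 [(1, [0,0,0,0,0,0,1]), (1, [0,0,0,0,0,1,0])]) (.node [2,1,0,2] (.leaf 2 [(1, [0,0,0,0,0,0,0,1]), (5, [4,24,0,0,0,1,0,0]), (5, [24,4,0,0,0,1,0,0])]) (.node [1,2,0,2] (.node [2,0,1,2] (.leaf 4 [(1, [0,0,0,0,0,0,0,0,0,1]), (1, [0,0,0,0,0,0,0,0,1,0]), (5, [4,4,0,0,0,1,0,0,0,0]), (1, [4,0,0,0,0,1,0,0,0,0])]) (.node [2,0,0,3] (.leaf 7 [(1, [0,0,0,0,0,0,0,0,0,0,1]), (1, [0,0,0,0,0,0,0,0,1,0,0]), (5, [4,4,0,0,0,1,0,0,0,0,0]), (1, [0,0,0,0,0,1,0,0,0,0,0]), (7, [4,0,0,0,0,1,0,0,0,10,0])])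 (.node [0,4,1,0] (.leaf 8 [(1, [0,0,0,0,0,0,0,0,1,0,0,0]), (5, [4,4,0,0,0,1,0,0,0,0,0,0]), (1, [0,0,0,0,0,1,0,0,0,0,0,0]), (1, [0,0,0,0,0,0,0,0,0,0,0,1])]) (.leaf 6 [(15, [0,0,0,8,0,0,0,0,0,0,19,10]), (7, [4,0,0,0,0,1,0,0,0,10,0,0])])))) (.node [2,0,1,2] (.leaf 5 [(1, [0,0,0,0,0,0,0,0,0,1]), (5, [4,4,0,0,0,1,0,0,0,0]), (1, [0,0,0,0,0,1,0,0,0,0]), (2, [4,0,0,0,0,0,3,0,0,1]), (4, [0,0,0,4,0,0,9,0,11,0])]) (.leaf 6 [(7, [0,0,0,4,0,0,0,0,9,4]), (7, [4,0,0,0,0,1,0,0,0,10])]))))) (.node [0,4,0,1] (.node [2,0,0,3] (.leaf 1 [(1, [0,0,0,0,0,0,0,1]), (11, [8,0,0,8,0,5,0,0]), (1, [0,0,0,0,0,0,1,0])]) (.leaf 9 [(20, [0,0,0,4,0,5,0,7]), (4, [0,0,0,4,0,5,0,7])])) (.node [2,1,0,2] (.leaf 2 [(1, [0,0,0,0,0,0,0,1]),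 (20, [0,0,0,4,13,0,15,0]), (5, [0,0,0,4,3,0,0,0])]) (.leaf 4 [(8, [0,0,0,4,0,3,5,0]), (11, [8,0,0,8,0,5,0,0]), (15, [0,0,0,4,0,0,2,7]), (15, [0,0,0,8,0,0,4,29])]))))

theorem check45n : check 4 5 true (sets45n.map Prod.snd) (initial 4) tree45n = true := by
  decide +kernel

theorem dom45n : sets45n.all (domCheck 4 5) = true := by
  decide +kernel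

def sets45u : List ((List ℕ × ℕ) × List (List ℕ)) := [
  (([1,1,1,0], 4), [[3,0,0,2]]),
  (([7,5,3,0], 19), [[2,0,1,2], [1,2,0,2], [1,1,2,1], [0,3,1,1], [0,1,4,0]]),
  (([5,4,2,0], 14), [[2,0,1,2], [1,2,0,2], [1,1,2,1], [1,0,4,0]]),
  (([6,3,2,0], 14), [[2,0,0,3], [1,2,0,2], [1,1,2,1], [0,4,0,1], [0,3,2,0]]),
  (([3,2,2,0], 9), [[2,1,0,2], [0,4,0,1]]),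
  (([6,4,1,0], 14), [[2,0,1,2], [1,1,3,0], [0,3,1,1]]),
  (([8,6,5,0], 24), [[2,1,0,2], [1,0,3,1], [0,3,1,1]]),
  (([3,3,1,0], 9), [[2,0,2,1], [1,0,4,0]]),
  (([11,9,6,0], 33), [[2,1,0,2], [1,1,2,1], [0,0,5,0]]),
  (([12,4,3,0], 24), [[1,2,1,1], [0,5,0,0]]),
  (([2,1,0,0], 4), [[1,1,3,0], [0,3,2,0]])]

def tree45u : Tree :=
  .node [3,0,0,2] (.leaf 0 [(1, [0,0,0,0,1])]) (.node [2,1,0,2] (.node [0,4,0,1] (.leaf 4 [(1, [0,0,0,0,0,1,0]), (1, [0,0,0,0,0,0,1])]) (.node [0,3,1,1] (.leaf 6 [(1, [0,0,0,0,0,1,0,0]), (5, [4,0,0,0,3,0,4,0]), (1, [0,0,0,0,0,0,0,1])]) (.leaf 8 [(1, [0,0,0,0,0,1,0,0]), (2, [0,0,0,0,1,0,0,1]), (2, [0,0,0,0,5,0,0,5])]))) (.node [1,0,4,0] (.node [2,0,2,1] (.leaf 7 [(1,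 [0,0,0,0,0,0,0,1]), (1, [0,0,0,0,0,0,1,0])]) (.node [2,0,1,2] (.node [1,2,0,2] (.leaf 2 [(1, [0,0,0,0,0,0,0,0,1,0]), (1, [0,0,0,0,0,0,0,0,0,1]), (3, [0,4,0,0,0,1,0,0,0,0]), (1, [0,0,0,0,0,0,1,0,0,0])]) (.leaf 5 [(1, [0,0,0,0,0,0,0,0,1,0]), (1, [0,0,0,0,0,0,0,1,0,2]), (1, [0,0,0,0,0,0,0,2,0,1])])) (.node [1,1,3,0] (.leaf 10 [(1, [0,0,0,0,0,0,0,0,0,1]), (3, [0,4,0,0,0,0,0,0,5,0])]) (.node [2,0,0,3] (.leaf 3 [(1, [0,0,0,0,0,0,0,0,0,0,1]), (2, [0,0,0,0,0,0,0,1,0,1,0]), (3, [0,4,0,0,0,1,0,0,0,0,0]), (1, [0,0,0,0,0,0,0,0,2,1,0]), (3, [0,4,0,0,0,0,0,0,5,0,0])]) (.leaf 9 [(2, [0,0,0,0,0,0,0,0,0,1,1]), (2, [0,0,0,0,0,0,0,0,0,5,5])]))))) (.node [2,0,1,2] (.leaf 1 [(1, [0,0,0,0,0,0,0,1]), (5, [8,8,0,0,0,0,3,0]),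 (3, [0,4,0,0,0,1,0,0]), (1, [0,0,0,0,0,2,1,0]), (3, [0,8,0,0,0,5,0,0])]) (.node [2,0,0,3] (.leaf 3 [(1, [0,0,0,0,0,0,0,0,1]), (5, [8,8,0,0,0,0,3,0,0]), (3, [0,4,0,0,0,1,0,0,0]), (7, [12,0,0,0,0,0,4,9,0]), (3, [0,4,0,0,0,0,0,5,0])]) (.leaf 9 [(13, [4,0,0,0,0,0,3,0,4]), (13, [20,0,0,0,0,0,15,0,20])])))))

theorem check45u : check 4 5 false (sets45u.map Prod.snd) (initial 4) tree45u = true := by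
  decide +kernel

theorem dom45u : sets45u.all (domCheck 4 5) = true := by
  decide +kernel

def sets54n : List ((List ℕ × ℕ) × List (List ℕ)) := [
  (([2,1,1,1,0], 4), [[1,1,0,0,2], [0,3,0,0,1]]),
  (([3,3,2,2,0], 8), [[2,0,0,0,2], [1,0,2,0,1]]),
  (([4,4,4,3,0], 12), [[2,0,0,1,1]]),
  (([2,2,1,0,0], 4), [[1,0,1,2,0], [0,0,3,1,0]]),
  (([5,4,4,2,0], 12), [[2,0,0,0,2], [1,1,0,1,1], [1,0,0,3,0]]),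
  (([8,7,6,4,0], 20), [[2,0,0,0,2], [1,1,0,1,1], [0,1,2,0,1], [0,1,0,3,0]]),
  (([14,12,11,8,0], 36), [[2,0,0,0,2], [1,1,0,1,1], [0,2,1,0,1], [0,0,1,3,0]]),
  (([6,4,4,1,0], 12), [[1,1,0,1,1], [1,0,0,3,0], [0,2,0,2,0]]),
  (([4,3,2,1,0], 8), [[1,1,0,0,2], [1,0,1,1,1], [1,0,0,3,0], [0,2,0,1,1], [0,1,2,0,1], [0,1,1,2,0], [0,0,3,1,0]]),
  (([6,4,3,2,0], 12), [[1,1,0,0,2], [1,0,1,1,1], [0,2,1,0,1], [0,1,1,2,0], [0,0,3,1,0]]),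
  (([6,5,2,2,0], 12), [[1,1,0,0,2], [1,0,2,0,1], [0,1,3,0,0]]),
  (([3,1,1,0,0], 4), [[1,0,0,3,0], [0,3,0,1,0]]),
  (([4,1,0,0,0], 4), [[0,3,1,0,0]]),
  (([5,3,1,1,0], 8), [[1,0,2,0,1], [0,2,1,0,1], [0,1,3,0,0]]),
  (([8,4,2,1,0], 12), [[1,0,1,1,1], [1,0,0,3,0], [0,2,1,1,0], [0,1,3,0,0]]),
  (([14,6,3,2,0], 20), [[1,0,1,1,1], [0,3,0,0,1], [0,2,2,0,0]])]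

def tree54n : Tree :=
  .node [0,3,1,0,0] (.leaf 12 [(1, [0,0,0,0,0,1])]) (.node [2,0,0,1,1] (.leaf 2 [(1, [0,0,0,0,0,0,1])]) (.node [1,0,0,3,0] (.node [0,3,0,1,0] (.leaf 11 [(1, [0,0,0,0,0,0,0,1,0]), (1, [0,0,0,0,0,0,0,0,1])]) (.node [1,1,0,1,1] (.node [2,0,0,0,2] (.leaf 4 [(1, [0,0,0,0,0,0,0,0,0,0,1]), (1, [0,0,0,0,0,0,0,0,0,1,0]), (1, [0,0,0,0,0,0,0,1,0,0,0])]) (.leaf 7 [(1, [0,0,0,0,0,0,0,0,0,1,0]), (1, [0,0,0,0,0,0,0,1,0,0,0]), (1, [0,0,0,0,0,0,0,0,0,2,1])])) (.node [1,0,1,2,0] (.leaf 3 [(1, [0,0,0,0,0,0,0,0,0,0,1]), (3, [5,5,0,0,0,0,0,1,0,8,0])]) (.node [0,3,0,0,1] (.node [1,1,0,0,2] (.leaf 0 [(1, [0,0,0,0,0,0,0,0,0,0,0,0,1]), (1, [0,0,0,0,0,0,0,0,0,0,0,1,0])]) (.leaf 14 [(8, [5,0,0,0,0,0,0,1,3,0,0,0,0]),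 (1, [0,0,0,0,0,0,0,1,0,0,0,0,0]), (4, [5,0,0,0,0,0,0,0,0,0,0,2,3]), (11, [0,0,0,0,10,0,0,0,6,0,27,0,31])])) (.node [0,1,3,0,0] (.node [0,2,1,1,0] (.leaf 14 [(8, [5,0,0,0,0,0,0,1,3,0,0,0,0,0]), (1, [0,0,0,0,0,0,0,1,0,0,0,0,0,0]), (1, [0,0,0,0,0,0,0,0,0,0,0,0,0,1]), (1, [0,0,0,0,0,0,0,0,0,0,0,0,1,0])]) (.node [1,0,2,0,1] (.leaf 10 [(2, [0,0,0,0,0,0,0,1,0,0,3,0,0,1,0]), (1, [0,0,0,0,0,0,0,0,0,0,0,0,0,0,1]), (1, [0,0,0,0,0,0,0,0,0,0,0,0,1,0,0])]) (.leaf 8 [(2, [0,0,0,0,0,0,0,1,0,0,3,0,0,1,0]), (8, [5,0,0,0,0,0,0,1,3,0,0,0,0,0,0]), (1, [0,0,0,0,0,0,0,1,0,0,0,0,0,0,0]), (8, [20,0,0,0,5,0,0,0,0,0,2,0,0,0,5]), (8, [20,15,0,20,0,0,0,0,0,0,0,0,3,0,0]), (1, [0,0,10,0,0,0,0,0,0,0,0,0,1,0,0]), (1,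 [0,5,5,0,0,0,0,0,0,0,0,0,1,0,0])]))) (.node [0,1,1,2,0] (.node [0,2,0,1,1] (.leaf 8 [(31, [0,0,0,0,10,0,0,0,6,0,27,0,11,0,0]), (8, [5,0,0,0,0,0,0,1,3,0,0,0,0,0,0]), (1, [0,0,0,0,0,0,0,1,0,0,0,0,0,0,0]), (1, [0,0,0,0,0,0,0,0,0,0,0,0,0,0,1]), (5, [5,0,0,0,5,0,0,0,0,8,2,0,0,0,0]), (1, [0,0,0,0,0,0,0,0,0,0,0,0,0,1,0]), (3, [5,5,0,0,0,0,0,1,0,8,0,0,0,0,0])]) (.leaf 1 [(1, [0,0,0,0,0,0,0,2,0,0,4,0,0,0,2]), (5, [20,0,0,0,5,0,0,0,0,0,2,0,0,0,8])])) (.leaf 1 [(2, [10,5,0,0,0,0,0,2,0,0,0,0,0,5]), (1, [5,0,0,0,0,0,0,1,0,3,0,0,0,2])]))))))) (.node [1,0,2,0,1] (.node [2,0,0,0,2] (.leaf 1 [(1, [0,0,0,0,0,0,0,0,0,1]), (1, [0,0,0,0,0,0,0,0,1,0])]) (.node [1,1,0,0,2] (.node [0,1,3,0,0] (.leaf 10 [(1, [0,0,0,0,0,0,0,0,0,0,1,0]),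 (1, [0,0,0,0,0,0,0,0,1,0,0,0]), (1, [0,0,0,0,0,0,0,0,0,0,0,1])]) (.leaf 9 [(1, [0,0,0,0,0,0,0,0,0,0,1,0]), (1, [0,0,5,0,0,0,0,0,1,0,0,0]), (24, [0,0,0,0,10,0,0,20,0,19,0,12]), (4, [0,0,20,0,0,0,0,0,2,3,0,0]), (4, [0,20,0,0,0,0,0,0,2,3,0,0])])) (.leaf 13 [(1, [0,0,0,0,0,0,0,0,1,0,0]), (5, [0,0,55,0,5,0,0,9,0,0,6]), (8, [25,0,0,0,0,0,0,4,6,0,9])]))) (.node [0,3,0,0,1] (.node [1,1,0,0,2] (.leaf 0 [(1, [0,0,0,0,0,0,0,0,0,0,1]), (1, [0,0,0,0,0,0,0,0,0,1,0])]) (.leaf 15 [(23, [0,0,0,0,5,9,0,3,0,0,5]), (1, [0,0,0,0,0,0,0,0,0,1,0]), (6, [5,0,0,0,0,0,0,4,0,2,7])])) (.node [0,2,1,0,1] (.node [1,1,0,1,1] (.leaf 6 [(1, [0,0,0,0,0,0,0,1,0,1,0,3]), (1, [0,0,0,0,0,0,0,0,0,0,0,1]), (1, [0,0,0,0,0,0,0,0,0,0,1,0]),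 (14, [0,0,0,0,5,0,18,0,23,20,0,0])]) (.leaf 9 [(3, [0,0,0,0,5,0,0,8,12,7,0,0]), (4, [0,0,0,0,0,1,0,0,0,1,1,0]), (1, [0,0,0,0,0,0,0,0,0,0,1,0]), (6, [0,0,0,0,5,0,0,0,11,2,0,16]), (6, [0,0,0,0,5,0,0,0,5,2,0,22])])) (.leaf 5 [(2, [0,0,0,0,5,0,0,4,3,0,6]), (8, [0,0,0,0,5,0,0,4,7,0,6]), (16, [0,40,0,0,5,0,9,5,0,0,0]), (8, [0,0,0,0,5,0,12,0,11,0,14])]))))))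

theorem check54n : check 5 4 true (sets54n.map Prod.snd) (initial 5) tree54n = true := by
  decide +kernel

theorem dom54n : sets54n.all (domCheck 5 4) = true := by
  decide +kernel

def sets54u : List ((List ℕ × ℕ) × List (List ℕ)) := [
  (([5,3,2,1,0], 9), [[1,1,0,0,2], [1,0,1,1,1], [1,0,0,3,0], [0,2,1,0,1], [0,2,0,2,0], [0,1,2,1,0], [0,0,4,0,0]]),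
  (([12,10,9,6,0], 30), [[2,0,0,0,2], [1,1,0,1,1], [0,2,1,0,1], [0,1,0,3,0]]),
  (([5,4,2,1,0], 10), [[1,1,0,0,2], [1,0,2,0,1], [1,0,1,2,0], [0,2,0,1,1], [0,1,2,1,0], [0,0,4,0,0]]),
  (([8,7,6,5,0], 21), [[2,0,0,0,2], [1,1,0,1,1], [1,0,2,0,1], [0,2,1,0,1], [0,0,0,4,0]]),
  (([7,4,3,2,0], 13), [[1,1,0,0,2], [1,0,1,1,1], [0,3,0,0,1], [0,2,0,2,0], [0,1,2,1,0], [0,0,4,0,0]]),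
  (([9,4,2,1,0], 13), [[1,0,1,1,1], [1,0,0,3,0], [0,3,0,0,1], [0,2,2,0,0]]),
  (([7,6,5,3,0], 17), [[2,0,0,0,2], [1,1,0,1,1], [1,0,0,3,0], [0,1,2,0,1], [0,0,2,2,0]]),
  (([9,6,4,3,0], 18), [[1,1,0,0,2], [1,0,2,0,1], [0,2,1,0,1], [0,1,2,1,0], [0,0,4,0,0]]),
  (([3,3,1,0,0], 6), [[1,0,2,1,0], [0,0,4,0,0]]),
  (([1,0,0,0,0], 1), [[0,4,0,0,0]]),
  (([5,4,4,3,0], 13), [[2,0,0,0,2], [1,1,0,1,1], [0,3,0,0,1], [0,0,0,4,0]]),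
  (([3,2,2,0,0], 6), [[1,1,0,2,0]]),
  (([3,2,1,0,0], 5), [[1,0,1,2,0], [0,2,0,2,0], [0,1,2,1,0], [0,0,4,0,0]]),
  (([6,3,1,1,0], 9), [[1,0,2,0,1], [0,2,2,0,0]]),
  (([4,3,3,1,0], 9), [[2,0,0,0,2], [1,1,0,1,1], [1,0,0,3,0], [0,2,0,2,0]]),
  (([9,8,6,6,0], 24), [[2,0,0,0,2], [1,1,1,0,1]]),
  (([13,12,9,7,0], 33), [[2,0,0,0,2], [1,1,0,1,1], [1,0,2,0,1], [0,0,2,2,0]]),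
  (([15,10,9,3,0], 30), [[1,1,0,1,1], [1,0,0,3,0], [0,2,1,0,1], [0,2,0,2,0]]),
  (([15,6,3,2,0], 21), [[1,0,1,1,1], [0,3,0,1,0], [0,2,2,0,0]]),
  (([13,9,8,2,0], 26), [[1,1,0,1,1], [1,0,1,2,0], [0,2,0,2,0], [0,1,2,0,1]]),
  (([9,5,5,3,0], 18), [[1,1,0,1,1], [0,3,0,0,1], [0,2,0,2,0]]),
  (([2,2,1,1,0], 5), [[2,0,0,0,2], [1,0,2,0,1], [0,0,4,0,0]]),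
  (([3,3,3,2,0], 9), [[2,0,0,1,1], [0,0,0,4,0]])]

def tree54u : Tree :=
  .node [0,4,0,0,0] (.leaf 9 [(1, [0,0,0,0,0,1])]) (.node [1,1,0,2,0] (.leaf 11 [(1, [0,0,0,0,0,0,1])]) (.node [0,2,2,0,0] (.node [1,0,2,0,1] (.leaf 13 [(1, [0,0,0,0,0,0,0,0,1]), (1, [0,0,0,0,0,0,0,1,0])]) (.node [0,3,0,1,0] (.leaf 18 [(4, [0,0,0,0,0,1,0,0,0,0]), (1, [0,0,0,0,0,0,0,0,0,1]), (1, [0,0,0,0,0,0,0,1,0,0])]) (.node [1,0,1,2,0] (.leaf 12 [(1, [0,0,0,0,0,0,0,0,0,0,1]), (1, [0,0,10,0,0,0,0,1,0,0,0]), (1, [0,5,5,0,0,0,0,1,0,0,0]), (1, [0,10,0,0,0,0,0,1,0,0,0])]) (.node [1,0,0,3,0] (.leaf 5 [(4, [0,0,0,0,0,1,0,0,0,0,0,0]), (1, [0,0,0,0,0,0,0,0,0,0,0,1]), (2, [0,0,0,0,0,0,0,1,2,0,2,0]), (1, [0,0,0,0,0,0,0,1,0,0,0,0])])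 (.leaf 4 [(1, [0,0,0,0,0,0,0,0,2,1,0,1]), (4, [0,0,0,0,0,1,0,0,0,0,0,0]), (2, [0,0,0,0,0,0,0,1,2,0,2,0]), (1, [0,0,10,0,0,0,0,1,0,0,0,0]), (1, [0,5,5,0,0,0,0,1,0,0,0,0]), (1, [0,10,0,0,0,0,0,1,0,0,0,0])]))))) (.node [2,0,0,0,2] (.node [1,1,1,0,1] (.leaf 15 [(1, [0,0,0,0,0,0,0,0,1,0]), (1, [0,0,0,0,0,0,0,0,0,1])]) (.node [2,0,0,1,1] (.leaf 22 [(1, [0,0,0,0,0,0,0,0,0,0,1]), (1, [0,0,0,0,0,0,0,0,0,4,0])]) (.node [1,1,0,1,1] (.node [0,3,0,0,1] (.leaf 10 [(1, [0,0,0,0,0,0,0,0,1,0,0,0,0]), (1, [0,0,0,0,0,0,0,0,0,0,0,1,0]), (1, [0,0,0,0,0,0,0,0,0,0,0,0,1]), (1, [0,0,0,0,0,0,0,0,0,4,0,0,0])]) (.node [1,0,2,0,1] (.node [0,2,1,0,1] (.leaf 3 [(1, [0,0,0,0,0,0,0,0,1,0,0,0,0,0,0]), (1, [0,0,0,0,0,0,0,0,0,0,0,1,0,0,0]),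 (1, [0,0,0,0,0,0,0,0,0,0,0,0,0,1,0]), (1, [0,0,0,0,0,0,0,0,0,0,0,0,0,0,1]), (1, [0,0,0,0,0,0,0,0,0,4,0,0,0,0,0])]) (.leaf 16 [(1, [0,0,0,0,0,0,0,0,1,0,0,0,0,0,0]), (1, [0,0,0,0,0,0,0,0,0,0,0,1,0,0,0]), (1, [0,0,0,0,0,0,0,0,0,0,0,0,0,1,0]), (1, [0,0,0,0,0,0,0,0,0,0,2,0,0,0,2])])) (.node [0,2,1,0,1] (.leaf 1 [(1, [0,0,0,0,0,0,0,0,1,0,0,0,0,0,0]), (1, [0,0,0,0,0,0,0,0,0,0,0,1,0,0,0]), (1, [0,0,0,0,0,0,0,0,0,0,0,0,0,0,1]), (1, [0,0,0,0,0,0,0,0,0,0,1,0,1,2,0])]) (.node [0,1,2,0,1] (.leaf 6 [(1, [0,0,0,0,0,0,0,0,1,0,0,0,0,0,0,0]), (1, [0,0,0,0,0,0,0,0,0,0,0,1,0,0,0,0]), (1, [0,0,0,0,0,0,0,0,0,0,1,0,0,1,2,0]), (1, [0,0,0,0,0,0,0,0,0,0,0,0,0,0,0,1]), (1, [0,0,0,0,0,0,0,0,0,0,2,0,0,0,2,0])]) (.leaf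 14 [(1, [0,0,0,0,0,0,0,0,1,0,0,0,0,0,0,0]), (1, [0,0,0,0,0,0,0,0,0,0,0,1,0,0,0,0]), (1, [5,10,0,0,0,0,0,0,0,0,1,0,0,0,0,3]), (1, [0,0,0,0,0,0,0,0,0,0,2,0,0,0,0,2])]))))) (.leaf 21 [(1, [0,0,0,0,0,0,0,0,1,0,0,0]), (2, [0,0,0,0,0,0,0,0,1,0,0,4]), (1, [0,0,0,0,0,0,0,0,0,0,0,4])])))) (.node [0,0,4,0,0] (.node [1,0,2,1,0] (.leaf 8 [(1, [0,0,0,0,0,0,0,0,0,0,1]), (1, [0,0,0,0,0,0,0,0,0,1,0])]) (.node [0,2,0,2,0] (.node [1,0,1,2,0] (.leaf 12 [(1, [0,0,0,0,0,0,0,0,0,0,0,0,1]), (1, [0,0,0,0,0,0,0,0,0,0,0,1,0]), (4, [0,0,0,0,0,0,0,0,2,1,0,0,0]), (1, [0,0,0,0,0,0,0,0,0,1,0,0,0])]) (.node [0,3,0,0,1] (.leaf 4 [(2, [0,0,0,0,0,0,0,1,0,0,0,0,2,0]), (4, [0,0,0,0,0,1,0,0,0,0,0,0,0,0]), (1, [0,0,0,0,0,0,0,0,0,0,0,0,0,1]),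 (1, [0,0,0,0,0,0,0,0,0,0,0,1,0,0]), (4, [0,0,0,0,0,0,0,0,2,1,0,0,0,0]), (1, [0,0,0,0,0,0,0,0,0,1,0,0,0,0])]) (.node [1,0,0,3,0] (.leaf 0 [(2, [0,0,0,0,0,0,0,1,0,0,0,0,2,0,0]), (4, [0,0,0,0,0,1,0,0,0,0,0,0,0,0,0]), (1, [0,0,0,0,0,0,0,0,0,0,0,0,0,0,1]), (2, [0,0,0,0,0,0,0,0,1,0,0,0,2,0,0]), (1, [0,0,0,0,0,0,0,0,0,0,0,1,0,0,0]), (4, [0,0,0,0,0,0,0,0,2,1,0,0,0,0,0]), (1, [0,0,0,0,0,0,0,0,0,1,0,0,0,0,0])]) (.leaf 7 [(2, [0,0,0,0,0,0,0,1,0,0,0,0,2,0,0]), (6, [0,0,0,0,0,0,0,0,1,0,0,0,0,4,4]), (2, [0,0,0,0,0,0,0,0,1,0,0,0,2,0,0]), (4, [0,0,0,0,0,0,0,0,2,1,0,0,0,0,0]), (1, [0,0,0,0,0,0,0,0,0,1,0,0,0,0,0])])))) (.node [0,2,1,0,1] (.leaf 7 [(2, [0,0,0,0,0,0,0,0,0,0,2,1,0]), (2, [0,0,0,0,0,0,0,0,1,0,0,2,0]),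 (1, [0,0,0,0,0,0,0,0,0,0,0,0,1]), (4, [0,0,0,0,0,0,0,0,2,1,0,0,0]), (1, [0,0,0,0,0,0,0,0,0,1,0,0,0])]) (.leaf 2 [(2, [0,0,0,0,0,0,0,0,0,0,2,1,0]), (2, [0,0,0,0,0,0,0,0,1,0,0,2,0]), (2, [0,0,0,0,0,0,0,0,1,0,0,0,2]), (2, [0,0,0,0,0,0,0,0,1,0,2,0,0]), (4, [0,0,0,0,0,0,0,0,2,1,0,0,0]), (1, [0,0,0,0,0,0,0,0,0,1,0,0,0])])))) (.node [0,3,0,0,1] (.leaf 20 [(4, [0,0,0,0,0,0,0,0,0,1,0]), (1, [0,0,0,0,0,0,0,0,0,0,1]), (2, [0,0,0,0,0,0,0,0,2,1,0])]) (.node [0,2,1,0,1] (.leaf 17 [(4, [0,0,0,0,0,0,0,0,0,1,0,0]), (4, [0,0,0,0,0,0,0,0,4,3,4,0]), (1, [0,0,0,0,0,0,0,0,0,0,0,1]), (2, [0,0,0,0,0,0,0,0,2,1,0,0])]) (.leaf 19 [(4, [0,0,0,0,0,0,0,0,0,1,0,0]), (2, [0,0,0,0,0,0,0,0,1,0,0,2]), (2, [0,0,0,0,0,0,0,0,2,1,0,0]),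 (2, [0,0,0,0,0,0,2,0,1,0,0,0])])))))))

theorem check54u : check 5 4 false (sets54u.map Prod.snd) (initial 5) tree54u = true := by
  decide +kernel

theorem dom54u : sets54u.all (domCheck 5 4) = true := by
  decide +kernel

def sets55n : List ((List ℕ × ℕ) × List (List ℕ)) := [
  (([1,1,1,1,0], 4), [[3,0,0,0,2]]),
  (([1,1,1,0,0], 3), [[2,0,0,3,0]]),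
  (([2,1,1,1,0], 5), [[2,0,0,0,3], [1,2,0,0,2], [0,4,0,0,1]]),
  (([2,2,1,1,0], 6), [[2,0,1,0,2], [1,0,3,0,1], [0,0,5,0,0]]),
  (([5,4,3,3,0], 15), [[2,1,0,0,2], [1,0,3,0,1], [0,2,2,0,1]]),
  (([4,3,3,2,0], 12), [[2,1,0,0,2], [1,1,0,2,1], [0,3,0,1,1], [0,1,0,4,0]]),
  (([1,1,0,0,0], 2), [[1,0,4,0,0]]),
  (([3,2,2,1,0], 8), [[2,0,0,1,2], [1,2,0,0,2], [1,1,0,2,1], [1,0,0,4,0], [0,3,0,1,1], [0,2,0,3,0]]),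
  (([3,3,2,1,0], 9), [[2,0,1,0,2], [2,0,0,2,1], [1,0,2,1,1], [1,0,1,3,0], [0,0,4,0,1], [0,0,3,2,0]]),
  (([2,1,1,0,0], 4), [[1,1,0,3,0], [0,3,0,2,0]]),
  (([12,9,8,7,0], 36), [[2,1,0,0,2], [1,1,0,2,1], [1,0,2,1,1], [0,3,1,0,1], [0,0,0,5,0]]),
  (([9,7,6,5,0], 27), [[2,1,0,0,2], [1,1,0,2,1], [1,0,2,1,1], [0,3,0,1,1], [0,2,2,0,1], [0,0,1,4,0]]),
  (([6,5,4,3,0], 18), [[2,1,0,0,2], [1,1,0,2,1], [1,0,2,1,1], [0,2,1,1,1], [0,1,3,0,1], [0,1,0,4,0], [0,0,2,3,0]]),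
  (([7,6,5,3,0], 21), [[2,1,0,0,2], [2,0,0,2,1], [1,0,2,1,1], [1,0,0,4,0], [0,2,1,1,1], [0,1,1,3,0], [0,0,4,0,1]]),
  (([5,4,3,2,0], 14), [[2,0,1,0,2], [1,2,0,0,2], [1,1,0,2,1], [1,0,2,1,1], [1,0,0,4,0], [0,2,1,1,1], [0,1,3,0,1], [0,1,1,3,0], [0,0,3,2,0]]),
  (([1,0,0,0,0], 1), [[0,5,0,0,0]]),
  (([8,7,6,3,0], 24), [[2,1,0,0,2], [2,0,0,2,1], [1,0,2,1,1], [1,0,1,3,0], [0,2,1,1,1], [0,2,0,3,0]]),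
  (([7,5,4,3,0], 19), [[2,0,1,0,2], [1,2,0,0,2], [1,1,0,2,1], [1,0,2,1,1], [0,3,0,1,1], [0,2,2,0,1], [0,1,1,3,0], [0,0,3,2,0]]),
  (([5,4,3,1,0], 13), [[2,0,0,2,1], [1,1,1,0,2], [1,1,0,3,0], [1,0,2,1,1], [0,3,0,0,2], [0,2,1,1,1], [0,1,2,2,0], [0,0,4,0,1]]),
  (([9,7,5,4,0], 25), [[2,0,1,0,2], [1,2,0,0,2], [1,1,0,2,1], [1,0,3,0,1], [0,2,2,0,1], [0,1,1,3,0], [0,0,4,1,0]]),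
  (([3,2,1,1,0], 7), [[2,0,0,0,3], [1,1,1,0,2], [1,0,3,0,1], [0,3,0,0,2], [0,2,2,0,1], [0,1,4,0,0]]),
  (([4,3,2,1,0], 10), [[2,0,0,1,2], [1,1,1,0,2], [1,1,0,2,1], [1,0,2,1,1], [1,0,1,3,0], [0,3,0,0,2], [0,2,1,1,1], [0,2,0,3,0], [0,1,3,0,1], [0,1,2,2,0], [0,0,4,1,0]]),
  (([7,6,5,2,0], 20), [[2,0,1,0,2], [2,0,0,2,1], [1,2,0,0,2], [1,1,0,3,0], [1,0,2,1,1], [0,2,1,1,1], [0,0,3,2,0]]),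
  (([3,2,1,0,0], 6), [[1,1,0,3,0], [1,0,2,2,0], [0,2,1,2,0], [0,1,3,1,0], [0,0,5,0,0]]),
  (([6,5,3,1,0], 15), [[2,0,0,2,1], [1,1,1,0,2], [1,1,0,3,0], [1,0,2,2,0], [0,2,1,1,1], [0,1,3,0,1], [0,0,4,1,0]]),
  (([8,5,4,3,0], 20), [[2,0,0,1,2], [1,2,0,0,2], [1,1,0,2,1], [1,0,2,1,1], [0,3,1,0,1], [0,2,0,3,0], [0,1,2,2,0], [0,0,4,1,0]]),
  (([5,4,2,1,0], 12), [[2,0,0,1,2], [1,1,1,0,2], [1,1,0,2,1], [1,0,3,0,1], [1,0,2,2,0], [0,2,1,1,1], [0,2,0,3,0], [0,1,3,1,0], [0,0,5,0,0]]),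
  (([5,3,2,1,0], 11), [[2,0,0,0,3], [1,1,1,0,2], [1,1,0,2,1], [1,0,2,1,1], [1,0,1,3,0], [0,3,0,1,1], [0,2,2,0,1], [0,2,1,2,0], [0,1,3,1,0], [0,0,5,0,0]]),
  (([4,2,1,1,0], 8), [[1,1,1,0,2], [1,0,3,0,1], [0,3,1,0,1], [0,2,3,0,0]]),
  (([7,4,3,2,0], 16), [[2,0,0,0,3], [1,2,0,0,2], [1,1,0,2,1], [1,0,2,1,1], [1,0,0,4,0], [0,3,1,0,1], [0,2,1,2,0], [0,1,3,1,0], [0,0,5,0,0]]),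
  (([9,5,4,2,0], 20), [[2,0,0,0,3], [1,2,0,0,2], [1,1,0,2,1], [1,0,2,1,1], [1,0,1,3,0], [0,3,1,0,1], [0,3,0,2,0], [0,1,3,1,0]]),
  (([7,5,2,1,0], 15), [[2,0,0,0,3], [1,1,1,0,2], [1,1,0,2,1], [1,0,3,1,0], [0,2,2,0,1], [0,2,1,2,0], [0,1,4,0,0]]),
  (([6,3,2,1,0], 12), [[1,1,1,0,2], [1,1,0,2,1], [1,0,2,1,1], [1,0,1,3,0], [0,3,1,0,1], [0,3,0,2,0], [0,2,2,1,0], [0,1,4,0,0]]),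
  (([5,2,2,1,0], 10), [[1,2,0,0,2], [1,1,0,2,1], [1,0,0,4,0], [0,4,0,1,0]]),
  (([7,4,2,1,0], 14), [[1,1,1,0,2], [1,1,0,2,1], [1,0,3,0,1], [1,0,2,2,0], [0,3,0,1,1], [0,2,2,1,0], [0,1,4,0,0]]),
  (([8,5,2,1,0], 16), [[1,1,1,0,2], [1,1,0,2,1], [1,0,3,1,0], [0,3,0,0,2], [0,2,2,1,0], [0,1,4,0,0]]),
  (([9,4,3,2,0], 18), [[1,2,0,0,2], [1,1,0,2,1], [1,0,2,1,1], [1,0,0,4,0], [0,4,0,0,1], [0,3,1,1,0], [0,2,3,0,0]]),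
  (([12,5,4,3,0], 24), [[1,2,0,0,2], [1,1,0,2,1], [1,0,2,1,1], [0,4,0,1,0], [0,3,2,0,0]])]

def tree55n : Tree :=
  .node [0,5,0,0,0] (.leaf 15 [(1, [0,0,0,0,0,1])]) (.node [1,0,4,0,0] (.leaf 6 [(1, [0,0,0,0,0,0,1])]) (.node [2,0,0,3,0] (.leaf 1 [(1, [0,0,0,0,0,0,0,1])]) (.node [3,0,0,0,2] (.leaf 0 [(1, [0,0,0,0,0,0,0,0,1])]) (.node [1,1,0,3,0] (.node [0,3,0,2,0] (.leaf 9 [(1, [0,0,0,0,0,0,0,0,0,1,0]), (1, [0,0,0,0,0,0,0,0,0,0,1])]) (.node [2,1,0,0,2] (.node [0,3,0,1,1] (.leaf 5 [(1, [0,0,0,0,0,0,0,0,0,0,0,1,0]), (1, [0,0,0,5,0,0,0,0,0,1,0,0,0]), (1, [0,0,0,0,0,0,0,0,0,0,0,0,1]), (1, [5,5,5,0,0,0,0,0,0,1,0,0,0])]) (.leaf 16 [(1, [0,0,0,0,0,0,0,0,0,0,0,1,0]), (1, [0,5,0,0,0,0,0,0,0,1,0,1,0]),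 (1, [0,0,0,0,0,0,0,1,0,1,0,0,1]), (1, [0,5,0,0,0,0,0,0,0,1,0,0,0]), (1, [0,0,0,0,0,0,0,1,0,1,0,0,0]), (1, [5,0,0,0,0,0,0,0,0,1,0,0,0])])) (.node [0,0,5,0,0] (.node [2,0,1,0,2] (.leaf 3 [(1, [0,0,0,0,0,0,0,0,0,0,0,0,0,1]), (2, [0,0,0,0,0,0,0,0,0,0,0,0,1,1]), (1, [0,0,0,0,0,0,0,0,0,0,0,0,1,0])]) (.node [1,0,2,2,0] (.node [0,2,1,2,0] (.leaf 23 [(1, [0,0,0,0,0,0,0,0,0,1,0,0,0,0,0,0]), (1, [0,0,0,0,0,0,0,0,0,0,0,0,0,0,1,0]), (1, [0,0,0,0,0,0,0,0,0,0,0,0,0,0,0,1]), (2, [0,0,0,0,0,0,0,0,0,0,0,0,1,1,0,0]), (1, [0,0,0,0,0,0,0,0,0,0,0,0,1,0,0,0])]) (.leaf 24 [(1, [0,0,0,0,0,0,0,0,0,1,0,0,0,0,0,1]), (1, [0,0,0,0,0,0,0,1,0,1,0,0,0,0,0,1]), (1, [0,0,0,0,0,0,0,0,0,1,0,0,0,0,0,0]), (1, [0,0,0,0,0,0,0,0,0,0,0,0,0,0,1,0]),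 (1, [0,0,0,0,0,0,0,1,0,1,0,0,0,0,0,0]), (2, [5,0,0,5,0,0,0,0,0,0,0,0,1,0,0,0]), (1, [0,0,5,0,0,0,0,0,0,0,0,0,1,0,0,0])])) (.leaf 21 [(1, [0,0,0,0,0,0,0,0,0,1,1,0,0,0,1]), (5, [0,0,0,0,0,1,0,0,0,0,0,0,1,0,5]), (1, [0,0,0,5,0,0,0,0,0,1,0,0,0,0,0]), (5, [0,0,0,0,0,1,0,0,0,0,0,0,1,0,0]), (1, [0,5,0,0,0,0,0,0,0,1,0,0,0,0,0]), (1, [0,0,0,0,0,0,0,1,0,1,0,0,0,0,1]), (1, [0,0,0,0,0,0,0,1,0,1,0,0,0,0,0]), (1, [5,0,0,0,0,0,0,0,0,1,0,0,0,0,0]), (2, [5,0,0,5,0,0,0,0,0,0,0,0,1,0,0]), (3, [10,5,0,0,0,0,0,0,0,2,0,0,1,0,0]), (1, [0,0,5,0,0,0,0,0,0,0,0,0,1,0,0])]))) (.node [1,2,0,0,2] (.node [0,3,0,1,1] (.leaf 7 [(5, [5,0,0,0,0,0,0,0,0,1,4,0,2,0,0]), (1, [0,0,0,0,0,0,0,0,0,0,0,0,0,1,0]), (1, [0,0,0,5,0,0,0,0,0,1,0,0,0,0,0]),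 (1, [0,5,5,0,0,0,0,0,0,1,0,0,0,0,0]), (1, [0,0,0,0,0,0,0,0,0,0,0,0,0,0,1]), (1, [5,0,0,0,0,0,0,0,0,1,0,0,0,0,0])]) (.leaf 22 [(1, [0,0,0,0,0,0,0,0,0,0,0,0,0,1,1]), (3, [0,0,0,0,0,0,0,0,0,1,0,0,1,0,2]), (1, [0,0,0,0,0,0,0,0,0,0,0,0,0,1,0]), (1, [0,0,0,0,0,0,0,0,0,1,0,0,0,0,0]), (1, [0,0,0,0,0,0,0,1,0,1,0,0,0,0,1]), (1, [0,0,0,0,0,0,0,1,0,1,0,0,0,0,0]), (1, [0,0,0,0,0,0,0,0,0,0,0,2,0,1,1])])) (.node [2,0,0,2,1] (.node [0,3,0,0,2] (.leaf 18 [(1, [0,0,0,0,0,0,0,0,0,0,0,0,0,0,1,0]), (1, [0,0,0,0,0,0,0,1,0,0,0,0,0,0,1,0]), (1, [0,0,0,0,0,0,0,0,0,1,0,0,0,0,0,0]), (1, [0,0,0,0,0,0,0,1,0,0,0,0,0,1,1,0]), (1, [0,0,0,0,0,0,0,0,0,0,0,0,0,0,0,1]), (1, [0,0,0,0,0,0,0,1,0,1,0,0,0,0,0,0]), (1, [0,0,0,0,0,0,0,0,0,0,0,0,0,2,0,1]),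 (1, [0,0,0,0,0,0,0,2,0,0,0,0,0,2,1,0])]) (.leaf 24 [(1, [0,0,0,0,0,0,0,0,0,0,0,0,0,0,1,0]), (1, [0,0,0,0,0,0,0,1,0,0,0,0,0,0,1,0]), (1, [0,0,0,0,0,0,0,0,0,1,0,0,0,0,0,0]), (1, [0,0,0,0,0,0,0,1,0,1,0,0,0,0,0,1]), (1, [0,0,0,0,0,0,0,1,0,1,0,0,0,0,0,0]), (1, [0,0,0,0,0,0,0,2,0,1,0,0,0,0,0,1]), (1, [0,0,0,0,0,0,0,3,0,2,0,0,0,0,0,2])])) (.leaf 21 [(5, [5,0,0,0,0,0,0,0,0,1,4,0,2,0,0]), (16, [0,0,0,0,5,0,0,7,0,0,5,0,3,0,0]), (1, [0,0,0,5,0,0,0,0,0,1,0,0,0,0,0]), (1, [0,0,0,0,0,0,0,0,0,1,1,0,0,0,1]), (1, [0,5,0,0,0,0,0,0,0,1,0,0,0,0,0]), (5, [0,0,0,5,5,0,0,0,0,0,0,0,3,0,7]), (1, [0,0,0,0,0,0,0,1,0,1,0,0,0,0,0]), (1, [5,0,0,0,0,0,0,0,0,1,0,0,0,0,0]), (1, [0,0,0,0,0,0,0,0,0,1,1,0,0,0,2]), (1, [0,5,0,0,0,0,0,0,0,1,0,0,0,0,1]),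 (6, [0,0,0,0,5,0,0,0,0,0,2,0,0,9,7])])))))) (.node [1,0,3,0,1] (.node [2,1,0,0,2] (.node [0,2,2,0,1] (.leaf 4 [(1, [0,0,0,0,0,0,0,0,0,0,0,1,0]), (1, [0,0,0,0,0,0,0,0,0,0,1,0,0]), (1, [0,0,0,0,0,0,0,0,0,0,0,0,1])]) (.leaf 12 [(1, [0,0,0,0,0,0,0,0,0,0,0,1,0]), (1, [0,0,0,0,0,0,0,0,1,0,0,1,1]), (1, [0,0,5,0,0,0,0,0,0,0,1,0,0]), (1, [0,0,0,0,0,0,0,0,1,0,0,1,0]), (1, [5,0,0,0,0,0,0,0,0,0,1,0,0]), (1, [0,0,0,0,0,0,0,0,2,0,0,1,2]), (1, [5,0,0,0,0,0,0,0,1,0,1,0,2])])) (.node [2,0,1,0,2] (.node [0,0,5,0,0] (.leaf 3 [(1, [0,0,0,0,0,0,0,0,0,0,0,0,1,0]), (1, [0,0,0,0,0,0,0,0,0,0,1,0,0,0]), (1, [0,0,0,0,0,0,0,0,0,0,0,0,0,1])]) (.node [1,2,0,0,2] (.node [0,2,2,0,1] (.leaf 19 [(1, [0,0,0,0,0,0,0,0,0,0,0,0,1,0,0,0]),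 (1, [0,0,0,0,0,0,0,0,0,0,0,0,0,0,1,0]), (1, [0,0,0,0,0,0,0,0,0,0,1,1,0,1,0,0]), (1, [0,0,0,0,0,0,0,0,0,0,1,0,0,0,0,0]), (1, [0,0,0,0,0,0,0,0,0,0,0,0,0,0,0,1]), (1, [0,0,0,0,0,0,0,0,0,0,1,2,0,1,0,0]), (1, [0,0,0,0,0,0,0,0,0,0,1,1,0,0,0,0])]) (.leaf 14 [(1, [0,0,0,0,0,0,0,0,0,0,0,0,1,0,0,0]), (1, [0,0,0,0,0,0,0,0,0,0,0,0,0,0,1,0]), (1, [0,0,0,0,0,0,0,0,0,0,1,1,0,1,0,0]), (1, [0,0,5,0,0,0,0,0,0,0,1,0,0,0,0,0]), (1, [0,0,0,0,0,0,0,0,0,0,0,2,0,0,1,2]), (2, [0,0,0,0,0,0,0,0,1,0,0,0,0,0,1,0]), (1, [5,0,0,0,0,0,0,0,0,0,1,0,0,0,0,0]), (1, [0,0,0,0,0,0,0,0,0,0,1,2,0,1,0,0]), (1, [0,0,5,0,0,0,0,0,0,0,1,1,0,0,0,0])])) (.leaf 8 [(1, [0,0,0,0,0,0,0,0,0,0,0,0,1,0,0]), (1, [0,0,0,0,0,0,0,0,0,0,1,0,0,1,1]),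 (1, [0,0,5,0,0,0,0,0,0,0,1,0,0,0,0]), (5, [5,0,0,0,5,0,0,0,0,0,0,0,0,2,8]), (1, [5,5,0,0,0,0,0,0,0,0,1,0,0,0,0]), (1, [0,0,5,0,0,0,0,0,0,0,1,1,0,0,0])]))) (.node [0,3,1,0,1] (.node [0,2,3,0,0] (.leaf 28 [(2, [0,0,0,0,0,0,1,0,0,1,1,0,0,0,0]), (1, [0,0,0,0,0,0,0,0,0,0,1,0,0,0,0]), (1, [0,0,0,0,0,0,0,0,0,0,0,0,0,1,0]), (1, [0,0,0,0,0,0,0,0,0,0,0,0,0,0,1])]) (.node [2,0,0,0,3] (.node [0,1,4,0,0] (.leaf 20 [(1, [0,0,0,0,0,0,0,0,0,0,0,0,0,0,0,1,0]), (3, [0,0,0,0,0,0,0,1,0,0,0,0,0,0,0,1,0]), (1, [0,0,0,0,0,0,0,0,0,0,1,0,0,0,0,0,0]), (1, [0,5,0,0,0,0,0,0,0,0,0,0,0,2,1,0,0]), (1, [0,5,0,0,0,0,0,0,0,0,0,0,0,1,0,0,0]), (1, [0,0,0,0,0,0,0,0,0,0,0,0,0,0,0,0,1])]) (.leaf 25 [(1, [0,0,0,0,0,0,0,0,0,0,1,0,0,0,0,0,1]),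 (2, [0,0,0,0,0,0,0,0,0,1,0,0,0,1,0,0,1]), (1, [0,0,0,0,0,0,0,0,0,0,1,0,1,0,0,0,1]), (1, [0,0,5,0,0,0,0,0,0,0,1,0,0,0,0,0,0]), (1, [0,0,0,0,0,0,0,0,0,0,0,0,0,1,0,0,0]), (1, [0,0,0,0,0,0,0,0,0,0,1,0,2,0,0,0,1]), (1, [0,0,5,0,0,0,0,0,0,0,1,0,1,0,0,0,0]), (1, [0,0,0,0,0,0,0,0,0,0,1,1,0,0,0,0,0])])) (.leaf 32 [(2, [0,0,0,0,0,0,1,0,0,1,1,0,0,0,0,0]), (2, [0,5,0,0,0,0,0,0,0,0,0,0,0,1,2,1]), (1, [0,0,5,0,0,0,0,0,0,0,1,0,0,0,0,0]), (3, [5,0,0,0,0,0,0,0,0,0,3,0,0,0,5,4]), (1, [0,0,0,0,0,0,0,0,0,0,0,0,0,1,0,0]), (1, [0,0,0,0,0,0,0,0,0,0,0,0,0,1,1,1]), (2, [0,5,0,0,0,0,0,0,0,0,0,0,0,1,0,1]), (1, [0,0,0,5,0,0,0,0,0,0,1,0,0,0,0,1])]))) (.node [1,1,0,2,1] (.node [2,0,0,1,2] (.node [1,0,2,2,0] (.leaf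 26 [(1, [0,0,0,0,0,0,0,0,0,0,0,0,0,0,0,1,0]), (2, [0,0,0,0,0,0,0,1,0,0,0,0,0,0,0,1,0]), (1, [0,0,0,0,0,0,0,0,0,0,0,0,0,0,1,0,0]), (1, [0,0,0,0,0,0,0,0,0,0,1,0,0,0,0,0,0]), (1, [0,0,0,0,0,0,0,0,0,0,0,0,0,0,0,0,1]), (2, [0,0,0,0,0,0,0,1,0,0,0,0,1,0,1,0,0]), (1, [0,0,0,0,0,0,0,0,0,0,0,0,1,0,1,0,0]), (1, [0,0,0,0,0,0,0,0,0,0,1,0,1,0,0,0,0]), (1, [0,0,0,0,0,0,0,0,0,0,2,0,1,0,0,0,0])]) (.node [1,0,1,3,0] (.leaf 21 [(1, [0,0,0,0,0,0,0,0,0,0,0,0,0,0,0,1,0,0]), (2, [0,0,0,0,0,0,0,1,0,0,0,0,0,0,0,1,0,0]), (1, [0,0,0,0,0,0,0,0,0,0,0,0,0,0,1,0,0,0]), (1, [0,0,5,0,0,0,0,0,0,0,1,0,0,0,0,0,0,0]), (1, [0,0,0,0,0,0,0,0,0,0,0,0,0,0,0,0,0,1]), (1, [0,0,5,0,0,0,0,0,0,0,1,0,1,0,0,0,2,0]), (2, [0,0,0,0,0,0,0,1,0,0,0,0,1,0,1,0,0,0]),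 (1, [0,0,0,0,0,0,0,0,0,0,0,0,1,0,1,0,0,0]), (1, [5,0,0,0,0,0,0,0,0,0,1,0,0,0,0,0,0,0]), (1, [0,0,5,0,0,0,0,0,0,0,1,0,1,0,0,0,0,0]), (1, [0,0,0,0,0,0,0,0,0,0,1,1,0,0,0,0,0,0])]) (.leaf 7 [(1, [0,0,0,0,0,0,0,0,0,0,0,0,0,0,0,1,0,0]), (1, [0,0,0,0,0,0,0,0,0,0,0,0,0,0,1,0,0,1]), (1, [0,0,0,0,0,0,0,0,0,0,0,0,0,0,1,0,0,0]), (1, [0,0,0,0,0,0,0,0,0,0,0,0,1,1,1,0,0,0]), (1, [0,0,0,0,0,0,0,0,0,0,0,0,1,0,1,0,0,1]), (1, [0,0,0,0,0,0,0,0,0,0,0,0,1,0,1,0,0,0])]))) (.node [2,0,0,0,3] (.node [0,3,0,0,2] (.leaf 20 [(1, [0,0,0,0,0,0,0,0,0,0,0,0,0,0,0,0,1,0]), (3, [0,0,0,0,0,0,0,1,0,0,0,0,0,0,0,0,1,0]), (1, [0,0,0,0,0,0,0,0,0,0,1,0,0,0,0,0,0,0]), (1, [0,0,0,0,0,0,0,0,0,0,0,0,0,0,0,0,0,1]), (1, [0,0,0,0,0,0,0,0,0,0,0,0,0,0,0,2,1,0]),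 (1, [0,0,0,0,0,0,0,0,0,0,1,0,0,0,0,1,0,0])]) (.leaf 31 [(1, [0,0,0,0,0,0,0,0,0,0,0,0,0,0,0,0,1,0]), (3, [0,0,0,0,0,0,0,1,0,0,0,0,0,0,0,0,1,0]), (1, [0,0,0,0,0,0,0,0,0,0,0,0,0,0,1,0,0,0]), (2, [0,0,0,0,0,0,0,0,0,0,1,0,0,0,0,1,0,1]), (1, [0,0,0,0,0,0,0,0,0,0,0,0,0,0,0,2,1,0]), (1, [0,0,0,0,0,0,0,0,0,0,0,0,0,0,1,1,0,0]), (1, [0,0,0,0,0,0,0,0,0,0,1,0,0,0,0,1,0,0])])) (.node [0,3,0,1,1] (.leaf 34 [(1, [0,0,0,0,0,0,0,0,0,1,0,0,0,0,1,0,0,0]), (1, [0,0,0,0,0,0,0,0,0,0,0,0,0,0,1,0,0,0]), (1, [0,0,0,0,0,0,0,0,0,0,1,0,0,0,0,0,0,0]), (4, [5,0,0,0,0,0,0,0,0,0,1,0,0,3,0,0,2,0]), (1, [0,0,0,0,0,0,0,0,0,0,0,0,0,0,0,0,0,1]), (2, [0,0,0,0,0,0,0,0,0,0,1,0,0,0,0,0,1,1]), (1, [0,0,0,0,0,0,0,0,0,0,1,0,0,0,0,1,0,0])])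 (.leaf 35 [(1, [0,0,0,0,0,0,0,0,0,1,0,0,0,0,1,0,0,0]), (1, [0,0,0,0,0,0,0,0,0,0,0,0,0,0,1,0,0,0]), (2, [0,0,0,0,0,0,0,0,0,0,1,0,0,0,0,0,1,1]), (8, [0,0,0,0,5,0,9,0,0,12,0,0,0,0,0,0,7,0]), (1, [0,0,0,0,0,0,0,0,0,1,0,0,0,0,1,0,1,0]), (1, [0,0,0,0,0,0,0,0,0,0,1,0,0,0,0,1,0,0])])))) (.leaf 20 [(3, [0,0,0,0,5,0,5,0,0,0,0,0,0,4,12]), (2, [0,0,0,0,0,0,1,0,0,1,1,0,0,0,0]), (1, [0,0,0,0,0,0,0,0,0,0,1,0,0,0,0]), (3, [0,0,0,0,5,0,4,0,0,0,0,0,2,0,9]), (3, [0,0,0,0,5,0,1,0,0,0,0,0,2,0,6]), (1, [0,0,0,0,0,0,0,0,0,0,1,0,1,0,1])]))))) (.node [1,2,0,0,2] (.node [0,4,0,0,1] (.node [2,0,0,0,3] (.leaf 2 [(1, [0,0,0,0,0,0,0,0,0,0,0,0,0,1]), (1, [0,0,0,0,0,0,0,0,0,0,0,1,0,0]), (1, [0,0,0,0,0,0,0,0,0,0,0,0,1,0])])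 (.node [0,4,0,1,0] (.node [1,0,0,4,0] (.leaf 33 [(1, [0,0,0,0,0,0,0,0,0,0,0,1,0,0,0,0]), (4, [0,0,0,0,0,0,1,0,0,0,0,0,0,0,0,1]), (1, [0,0,0,0,0,0,0,0,0,0,0,0,0,0,0,1]), (1, [0,0,0,0,0,0,0,0,0,0,0,0,0,0,1,0])]) (.leaf 37 [(1, [0,0,0,0,0,0,0,0,0,0,0,1,0,0,0,0]), (2, [0,0,0,0,0,1,0,0,0,0,1,0,0,0,1,0]), (20, [0,0,0,0,5,8,0,0,0,0,0,0,0,7,0,5]), (1, [0,0,0,0,0,0,0,0,0,0,0,0,0,0,1,0]), (2, [0,0,0,0,0,0,0,0,0,0,0,1,0,2,0,1])])) (.node [0,2,3,0,0] (.leaf 36 [(1, [0,0,0,0,0,0,0,0,0,0,0,1,0,0,0,0]), (3, [0,0,0,0,0,1,0,0,0,0,3,0,0,0,0,1]), (3, [0,0,0,0,0,1,0,0,0,0,0,0,0,0,0,1]), (9, [0,0,0,0,5,0,0,0,0,0,16,0,0,11,12,0]), (1, [0,0,0,0,0,0,0,0,0,0,0,0,1,0,0,0]), (1, [0,0,0,0,0,0,0,0,0,0,1,0,0,0,0,1]),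 (1, [0,0,0,0,0,0,0,0,0,0,0,0,0,0,0,1])]) (.leaf 32 [(1, [0,5,0,0,0,0,0,0,0,0,0,1,0,0,0,0]), (1, [0,5,0,0,0,0,0,0,0,0,0,1,0,1,0,1]), (1, [0,0,0,0,0,0,0,0,0,0,0,1,0,1,1,0]), (11, [0,0,0,0,5,0,0,0,0,0,0,0,0,13,5,9]), (1, [0,5,0,0,0,0,0,0,0,0,0,0,1,0,0,0]), (1, [0,0,5,0,0,0,0,0,0,0,0,1,0,1,0,0]), (1, [0,5,0,0,0,0,0,0,0,0,0,1,0,1,0,0]), (11, [0,0,0,0,5,0,0,0,0,13,0,0,0,15,5,0])])))) (.node [2,1,0,0,2] (.node [0,3,0,1,1] (.node [0,1,0,4,0] (.leaf 5 [(1, [0,0,0,0,0,0,0,0,0,0,0,0,0,1,0,0]), (2, [0,0,0,0,0,0,0,0,0,0,0,0,0,1,0,1]), (1, [0,0,0,0,0,0,0,0,0,0,0,0,0,0,1,0]), (1, [0,0,0,0,0,0,0,0,0,0,0,0,0,0,0,1])]) (.node [0,0,1,4,0] (.leaf 11 [(1, [0,0,0,0,0,0,0,0,0,0,0,0,0,1,0,0,0]), (9, [0,0,0,0,0,1,0,0,0,0,5,0,0,0,0,0,1]),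 (1, [0,0,0,0,0,0,0,0,0,0,0,0,0,0,0,1,1]), (1, [0,0,0,0,0,0,0,0,0,0,0,0,0,0,1,0,0]), (4, [0,0,0,0,0,0,0,0,3,0,0,1,0,0,0,2,0]), (1, [0,0,0,0,0,0,0,0,0,0,0,0,0,0,0,0,1])]) (.leaf 10 [(1, [0,0,0,0,0,0,0,0,0,0,0,0,0,1,0,0,0]), (2, [0,0,0,0,0,0,0,0,0,0,1,0,1,0,1,0,0]), (16, [0,0,0,0,5,0,0,0,5,0,0,0,7,0,0,4,0]), (2, [0,0,0,0,0,0,0,0,1,0,0,0,0,0,1,0,1]), (12, [0,0,0,0,5,0,0,0,13,0,20,0,15,0,0,0,0])]))) (.node [0,1,3,0,1] (.leaf 12 [(1, [0,0,0,0,0,0,0,0,0,0,0,0,0,1,0,0]), (3, [0,0,0,0,0,0,0,0,0,0,3,0,1,0,0,1]), (3, [0,0,0,0,0,0,0,0,0,0,0,0,1,0,0,1]), (2, [0,0,0,0,0,0,0,0,1,0,0,1,0,0,0,0]), (1, [0,0,0,0,0,0,0,0,0,0,0,0,0,0,0,1]), (6, [0,0,0,0,5,0,0,0,7,0,11,0,0,0,9,0]), (6, [0,0,0,0,5,0,0,0,7,0,5,0,0,0,9,0])])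 (.node [0,0,4,0,1] (.leaf 13 [(1, [0,0,0,0,0,0,0,0,0,0,0,0,0,1,0,0,0]), (1, [0,0,0,0,0,0,0,0,0,0,0,0,0,0,0,2,1]), (4, [0,0,0,0,0,0,0,0,0,0,0,0,1,0,0,0,1]), (1, [0,0,0,0,0,0,0,0,1,0,0,0,0,0,0,4,2]), (2, [0,0,0,0,0,0,0,0,1,0,0,1,0,0,0,0,0]), (1, [0,0,0,0,0,0,0,0,1,0,0,0,0,0,0,2,1]), (1, [0,0,0,0,0,0,0,0,0,0,0,0,0,0,0,0,1])]) (.leaf 16 [(1, [0,0,0,0,0,0,0,0,0,0,0,0,0,1,0,0,0]), (7, [0,0,0,0,5,0,0,0,1,0,0,0,0,0,4,6,0]), (2, [0,0,0,0,0,0,0,0,1,0,0,1,0,0,2,0,0]), (8, [0,0,0,0,5,0,0,0,9,0,0,0,0,0,12,0,7]), (2, [0,0,0,0,0,0,0,0,1,0,0,1,0,0,0,0,0]), (8, [0,0,0,0,5,0,0,0,9,0,0,0,0,0,4,0,7])])))) (.node [1,0,0,4,0] (.node [0,3,0,1,1] (.node [0,2,0,3,0] (.node [2,0,0,1,2] (.leaf 7 [(1, [0,0,0,0,0,0,0,0,0,0,0,0,0,0,0,0,0,1]),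 (1, [0,0,0,0,0,0,0,0,0,0,0,1,0,0,0,0,0,0]), (4, [0,0,0,0,0,0,1,0,0,0,0,0,0,0,1,0,0,0]), (1, [0,0,0,0,0,0,0,0,0,0,0,0,0,0,1,0,0,0]), (1, [0,0,0,0,0,0,0,0,0,0,0,0,0,0,0,1,0,0]), (1, [0,0,0,0,0,0,0,0,0,0,0,0,0,0,0,0,1,0])]) (.node [0,0,5,0,0] (.leaf 29 [(1, [0,0,0,0,0,0,0,0,0,0,0,2,1,0,0,0,0,0,0]), (1, [0,0,0,0,0,0,0,0,0,0,0,1,0,0,0,0,0,0,0]), (4, [0,0,0,0,0,0,1,0,0,0,0,0,0,0,1,0,0,0,0]), (5, [0,0,0,0,0,1,0,0,0,0,0,0,0,0,0,0,0,0,1]), (1, [0,0,0,0,0,0,0,0,0,0,0,0,0,0,1,0,0,0,0]), (1, [0,0,0,0,0,0,0,0,0,0,0,1,0,0,0,0,0,1,0]), (1, [0,0,0,0,0,0,0,0,0,0,2,0,0,0,0,0,0,0,1]), (1, [0,0,0,0,0,0,0,0,0,0,1,0,0,0,0,0,0,0,1]), (1, [0,0,0,0,0,0,0,0,0,0,0,0,0,0,0,0,0,0,1])]) (.leaf 30 [(1, [0,0,0,0,0,0,0,0,0,0,0,2,1,0,0,0,0,0,0]),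 (1, [0,0,0,0,0,0,0,0,0,0,0,1,0,0,0,0,0,0,0]), (4, [0,0,0,0,0,0,1,0,0,0,0,0,0,0,1,0,0,0,0]), (1, [0,0,0,0,0,0,0,0,0,0,0,1,1,0,0,0,0,1,0]), (9, [0,0,0,0,5,0,0,0,0,0,0,0,11,0,0,0,0,17,7]), (1, [0,0,0,0,0,0,0,0,0,0,0,1,0,0,0,0,0,1,0]), (7, [5,0,0,0,0,0,0,0,0,0,0,0,0,0,1,0,0,10,4]), (1, [0,0,0,0,0,0,0,0,0,0,0,1,1,0,0,0,0,2,0])]))) (.leaf 14 [(4, [0,0,0,0,0,0,1,0,0,0,0,0,0,0,1,0,4]), (1, [0,0,0,0,0,0,0,0,0,0,0,1,0,0,0,0,0]), (4, [0,0,0,0,0,0,1,0,0,0,0,0,0,0,1,0,0]), (2, [0,0,0,0,0,0,0,0,1,0,0,0,0,0,1,0,2]), (1, [0,0,0,0,0,0,0,0,0,0,0,0,0,0,1,0,0]), (1, [0,5,0,0,0,0,0,0,0,0,0,0,0,0,0,1,0]), (1, [0,0,0,0,0,0,0,0,0,0,0,1,0,2,0,0,1]), (2, [0,0,0,0,0,0,0,0,1,0,0,0,0,0,1,0,0]), (2, [5,0,0,0,0,0,0,0,0,0,0,0,0,3,1,0,2])]))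 (.node [0,1,3,0,1] (.leaf 14 [(1, [0,0,0,0,0,0,0,0,0,0,0,1,0,0,0,1,0]), (1, [0,0,0,0,0,0,0,0,0,0,0,1,0,0,0,0,0]), (4, [0,0,0,0,0,0,1,0,0,0,0,0,0,0,1,0,0]), (3, [0,0,0,0,0,0,0,0,0,0,0,0,1,0,0,0,1]), (1, [0,0,0,0,0,0,0,0,0,0,0,0,0,0,1,0,0]), (2, [0,0,0,0,0,0,0,0,1,0,0,1,0,0,0,0,0]), (1, [0,0,0,0,0,0,0,0,0,0,0,0,0,0,0,0,1]), (2, [0,0,0,0,0,0,0,0,1,0,0,0,0,0,1,0,0]), (3, [0,0,0,0,0,0,0,0,0,0,0,0,1,3,0,0,1])]) (.leaf 8 [(1, [0,0,0,0,0,0,0,0,0,0,0,1,0,0,0,1,0]), (5, [0,0,0,5,0,0,0,0,0,0,0,0,0,0,1,2,3]), (2, [0,0,0,0,0,0,0,0,1,0,0,1,0,0,0,2,0]), (6, [0,0,0,0,5,0,0,0,0,0,0,0,0,7,0,3,5]), (6, [0,0,0,0,5,0,0,0,0,7,0,0,0,8,0,3,0]), (1, [0,0,0,0,0,0,0,0,0,0,0,1,0,2,0,1,0])]))) (.node [2,0,1,0,2] (.leaf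 17 [(1, [0,0,0,0,0,0,0,0,0,0,0,0,0,0,0,1]), (1, [0,0,0,0,0,0,0,0,0,0,0,1,0,0,0,0]), (1, [0,0,0,0,0,0,0,0,0,0,1,0,0,1,0,1]), (1, [0,0,0,0,0,0,0,0,0,0,0,0,0,1,0,1]), (7, [0,0,0,0,5,0,0,0,0,0,9,0,0,6,5,0]), (2, [0,0,0,0,0,0,0,0,0,0,0,1,0,2,1,0]), (1, [0,0,0,0,0,0,0,0,0,0,1,0,0,2,0,1]), (1, [0,0,0,0,0,0,0,0,0,0,0,0,0,2,0,1])]) (.leaf 25 [(8, [0,0,0,0,5,0,0,0,0,0,12,0,9,0,7,0]), (1, [0,0,0,0,0,0,0,0,0,0,0,1,0,0,0,0]), (12, [0,0,0,0,5,0,0,0,1,0,8,0,3,0,0,0]), (12, [0,0,0,0,5,0,0,0,0,0,0,0,5,4,3,0]), (2, [0,0,0,0,0,0,0,0,0,0,0,1,0,0,1,2]), (8, [0,0,0,0,5,0,0,0,0,0,5,0,2,0,0,9]), (8, [0,0,0,0,5,0,0,0,0,0,0,0,5,0,3,12]), (8, [0,0,0,0,5,0,0,0,0,0,0,0,13,0,11,20])]))))) (.node [2,0,0,2,1] (.leaf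 8 [(1, [0,0,0,0,0,0,0,0,0,1,0,0,1]), (1, [0,0,0,0,0,0,0,0,0,0,0,0,1]), (1, [0,0,0,0,0,0,0,1,0,0,0,1,1]), (1, [5,0,0,0,0,0,0,0,0,0,0,1,1]), (3, [10,0,0,0,5,0,0,0,0,4,0,5,0]), (3, [5,0,0,0,5,0,0,1,0,0,0,5,0])]) (.node [2,0,0,1,2] (.leaf 21 [(1, [0,0,0,0,0,0,0,0,0,0,0,0,0,1]), (2, [0,0,0,0,0,0,0,1,0,0,0,0,0,1]), (2, [5,0,0,0,0,0,0,0,0,0,1,1,0,1]), (2, [0,0,0,0,0,0,0,1,0,0,0,2,0,1]), (2, [5,0,0,0,0,0,0,0,0,0,1,3,0,1]), (1, [0,0,0,0,0,0,0,0,0,0,1,0,2,1]), (6, [0,0,0,0,5,0,0,0,1,0,2,0,3,0]), (4, [0,0,0,0,5,0,0,0,0,0,6,5,3,0]), (1, [0,0,0,0,0,0,0,0,0,0,0,1,2,1]), (4, [0,0,0,0,5,0,0,0,0,0,2,5,3,0]), (1, [0,0,0,0,0,0,0,0,0,0,0,2,2,1])]) (.node [2,0,0,0,3] (.leaf 27 [(1, [0,0,0,0,0,0,0,0,0,0,0,0,0,0,1]),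 (3, [0,0,0,0,0,0,0,1,0,0,0,0,0,0,1]), (3, [5,0,0,0,0,0,0,0,0,0,2,2,0,0,1]), (3, [0,0,0,0,0,0,0,1,0,0,0,3,0,0,1]), (3, [5,0,0,0,0,0,0,0,0,0,2,5,0,0,1]), (1, [0,0,0,0,0,0,0,0,0,0,1,0,0,2,1]), (1, [0,0,0,0,0,0,0,0,0,0,0,0,0,2,1]), (5, [0,0,0,0,5,0,0,0,0,0,3,2,0,4,0]), (1, [0,0,0,0,0,0,0,0,0,0,0,1,0,2,1]), (5, [0,0,0,0,5,0,0,0,0,7,0,9,0,4,0])]) (.leaf 32 [(17, [0,0,0,0,5,1,4,0,0,11,0,0,0,0,0]), (9, [0,0,0,0,5,1,0,0,0,0,6,2,0,0,0]), (9, [0,0,0,0,5,1,0,0,0,3,0,5,0,0,0]), (9, [0,0,0,0,5,1,0,0,0,0,6,11,0,0,0]), (6, [0,0,0,0,5,0,0,0,0,9,7,0,0,0,5]), (6, [0,0,0,0,5,0,0,0,0,3,7,0,0,0,5]), (8, [0,0,0,0,5,0,1,0,0,4,0,0,0,0,7]), (6, [0,0,0,0,5,0,0,0,0,8,0,5,0,0,5])]))))))))))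

theorem check55n : check 5 5 true (sets55n.map Prod.snd) (initial 5) tree55n = true := by
  decide +kernel

theorem dom55n : sets55n.all (domCheck 5 5) = true := by
  decide +kernel

def sets55u : List ((List ℕ × ℕ) × List (List ℕ)) := [
  (([30,20,14,5,0], 70), [[2,0,0,1,2], [1,1,1,1,1], [1,1,0,3,0], [1,0,2,2,0], [0,3,0,1,1], [0,2,2,0,1], [0,2,1,2,0], [0,1,3,1,0]]),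
  (([24,20,15,8,0], 68), [[2,0,1,0,2], [2,0,0,2,1], [1,2,0,0,2], [1,1,1,1,1], [1,0,1,3,0], [0,2,0,3,0], [0,1,3,0,1], [0,1,2,2,0]]),
  (([40,19,16,4,0], 80), [[1,2,0,0,2], [1,1,1,1,1], [1,1,0,3,0], [0,4,0,0,1], [0,3,1,1,0]]),
  (([18,15,10,4,0], 48), [[2,0,1,0,2], [2,0,0,2,1], [1,1,1,1,1], [1,1,0,3,0], [1,0,2,2,0], [0,3,0,0,2], [0,1,3,0,1], [0,0,4,1,0]]),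
  (([24,20,11,8,0], 64), [[2,0,1,0,2], [1,1,1,1,1], [1,0,3,0,1], [1,0,2,2,0], [0,3,0,0,2], [0,2,2,0,1], [0,1,3,1,0], [0,0,5,0,0]]),
  (([21,18,14,6,0], 60), [[2,0,1,0,2], [2,0,0,2,1], [1,2,0,0,2], [1,1,1,1,1], [1,1,0,3,0], [0,1,2,2,0], [0,0,4,0,1]]),
  (([27,23,18,12,0], 81), [[2,1,0,0,2], [2,0,0,2,1], [1,1,1,1,1], [1,0,0,4,0], [0,1,3,0,1], [0,1,1,3,0], [0,0,3,2,0]]),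
  (([25,13,7,4,0], 50), [[1,1,1,1,1], [1,0,3,0,1], [1,0,2,2,0], [0,3,1,0,1], [0,3,0,2,0], [0,2,3,0,0]]),
  (([30,21,20,18,0], 90), [[2,1,0,0,2], [1,1,1,1,1], [0,4,0,0,1]]),
  (([21,13,7,4,0], 46), [[2,0,0,0,3], [1,1,1,1,1], [1,0,3,0,1], [1,0,2,2,0], [0,3,0,1,1], [0,2,2,1,0], [0,1,4,0,0]]),
  (([28,15,12,4,0], 60), [[2,0,0,0,3], [1,2,0,0,2], [1,1,1,1,1], [1,1,0,3,0], [0,3,1,0,1], [0,3,0,2,0], [0,2,2,1,0]]),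
  (([36,21,9,5,0], 72), [[1,1,1,1,1], [1,0,3,1,0], [0,3,0,1,1], [0,2,3,0,0]]),
  (([27,20,18,6,0], 72), [[2,0,0,2,1], [1,2,0,0,2], [1,1,1,1,1], [1,1,0,3,0], [0,3,0,1,1], [0,2,1,2,0]]),
  (([24,17,14,9,0], 65), [[2,0,1,0,2], [1,2,0,0,2], [1,1,1,1,1], [1,0,0,4,0], [0,3,0,1,1], [0,2,2,0,1], [0,2,0,3,0], [0,1,2,2,0]]),
  (([27,21,18,14,0], 81), [[2,1,0,0,2], [1,1,1,1,1], [0,3,0,1,1], [0,2,2,0,1], [0,1,0,4,0], [0,0,2,3,0]]),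
  (([19,17,11,7,0], 55), [[2,0,1,0,2], [2,0,0,2,1], [1,2,0,0,2], [1,1,1,1,1], [1,0,3,0,1], [1,0,1,3,0], [0,1,2,2,0], [0,0,4,1,0]]),
  (([24,16,7,4,0], 52), [[2,0,0,0,3], [1,1,1,1,1], [1,0,3,1,0], [0,3,0,0,2], [0,2,2,1,0], [0,1,4,0,0]]),
  (([52,32,24,19,0], 128), [[2,0,0,1,2], [1,2,0,0,2], [1,1,1,1,1], [1,0,3,0,1], [0,3,1,0,1], [0,2,1,2,0], [0,1,3,1,0], [0,0,5,0,0]]),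
  (([28,24,11,8,0], 72), [[2,0,1,0,2], [1,1,1,1,1], [1,0,3,1,0], [0,2,2,0,1], [0,1,4,0,0]]),
  (([26,21,18,12,0], 78), [[2,1,0,0,2], [2,0,0,2,1], [1,1,1,1,1], [1,0,0,4,0], [0,3,0,1,1], [0,1,3,0,1], [0,1,1,3,0]]),
  (([27,21,9,5,0], 63), [[2,0,0,1,2], [1,1,1,1,1], [1,0,3,1,0], [0,2,2,0,1], [0,2,1,2,0], [0,1,4,0,0]]),
  (([32,14,9,8,0], 64), [[1,2,0,0,2], [1,1,1,1,1], [1,0,3,0,1], [0,4,0,0,1], [0,3,2,0,0]]),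
  (([36,20,15,8,0], 80), [[2,0,0,0,3], [1,2,0,0,2], [1,1,1,1,1], [1,0,1,3,0], [0,3,1,0,1], [0,3,0,2,0], [0,2,2,1,0], [0,0,5,0,0]]),
  (([33,15,11,6,0], 66), [[1,2,0,0,2], [1,1,1,1,1], [1,0,1,3,0], [0,4,0,0,1], [0,3,1,1,0], [0,2,3,0,0]]),
  (([30,20,17,9,0], 77), [[2,0,0,1,2], [1,2,0,0,2], [1,1,1,1,1], [1,0,1,3,0], [0,3,0,1,1], [0,2,2,0,1], [0,2,1,2,0]]),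
  (([36,23,20,12,0], 92), [[2,0,0,1,2], [1,2,0,0,2], [1,1,1,1,1], [1,0,0,4,0], [0,3,1,0,1], [0,2,1,2,0]]),
  (([30,16,12,1,0], 60), [[1,1,1,1,1], [1,1,0,3,0], [1,0,2,2,0], [0,3,0,2,0], [0,2,2,1,0]]),
  (([21,17,9,3,0], 51), [[2,0,0,2,1], [1,1,1,1,1], [1,1,0,3,0], [1,0,3,0,1], [1,0,2,2,0], [0,2,1,2,0], [0,1,3,1,0], [0,0,5,0,0]]),
  (([40,30,25,24,0], 120), [[2,1,0,0,2], [1,1,1,1,1], [1,0,3,0,1], [0,3,1,0,1]]),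
  (([18,16,13,4,0], 52), [[2,0,1,0,2], [2,0,0,3,0], [1,2,0,0,2], [1,1,1,1,1], [0,1,2,2,0]]),
  (([21,15,5,3,0], 45), [[2,0,0,0,3], [1,1,1,1,1], [1,0,4,0,0], [0,2,2,1,0]]),
  (([26,19,11,6,0], 63), [[2,0,0,1,2], [1,1,1,1,1], [1,0,3,0,1], [1,0,2,2,0], [0,3,0,0,2], [0,2,2,0,1], [0,2,1,2,0], [0,1,3,1,0], [0,0,5,0,0]]),
  (([48,32,27,20,0], 128), [[2,0,1,0,2], [1,2,0,0,2], [1,1,1,1,1], [0,3,1,0,1], [0,2,0,3,0], [0,1,2,2,0]]),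
  (([34,27,19,14,0], 95), [[2,0,1,0,2], [1,2,0,0,2], [1,1,1,1,1], [1,0,3,0,1], [1,0,0,4,0], [0,2,2,0,1], [0,1,2,2,0], [0,0,4,1,0]]),
  (([44,32,24,19,0], 120), [[2,0,1,0,2], [1,2,0,0,2], [1,1,1,1,1], [1,0,3,0,1], [0,3,0,1,1], [0,2,2,0,1], [0,1,2,2,0], [0,0,4,1,0]]),
  (([36,32,27,12,0], 108), [[2,1,0,0,2], [2,0,0,2,1], [1,1,1,1,1], [1,1,0,3,0], [0,0,3,2,0]]),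
  (([36,15,12,8,0], 72), [[1,2,0,0,2], [1,1,1,1,1], [1,0,0,4,0], [0,4,0,1,0], [0,3,2,0,0]]),
  (([27,21,14,12,0], 75), [[2,0,1,0,2], [1,2,0,0,2], [1,1,1,1,1], [1,0,3,0,1], [0,2,2,0,1], [0,1,2,2,0], [0,0,5,0,0]]),
  (([24,21,17,9,0], 72), [[2,1,0,0,2], [2,0,0,2,1], [1,1,1,1,1], [1,0,1,3,0], [0,2,0,3,0], [0,0,4,0,1], [0,0,3,2,0]]),
  (([36,21,14,12,0], 84), [[2,0,0,0,3], [1,2,0,0,2], [1,1,1,1,1], [1,0,3,0,1], [0,3,1,0,1], [0,2,2,1,0], [0,1,4,0,0]]),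
  (([39,23,21,15,0], 99), [[2,0,0,1,2], [1,2,0,0,2], [1,1,1,1,1], [0,4,0,0,1], [0,2,1,2,0]]),
  (([23,18,16,6,0], 64), [[2,0,1,0,2], [2,0,0,2,1], [1,2,0,0,2], [1,1,1,1,1], [1,1,0,3,0], [0,3,0,1,1], [0,1,2,2,0]]),
  (([18,16,13,12,0], 60), [[3,0,0,0,2], [1,1,1,1,1], [1,0,3,0,1], [0,2,2,0,1]]),
  (([48,36,32,27,0], 144), [[2,1,0,0,2], [1,1,1,1,1], [0,3,1,0,1], [0,0,1,4,0]]),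
  (([31,30,18,10,0], 90), [[2,0,1,0,2], [2,0,0,2,1], [1,1,1,1,1], [1,0,3,0,1], [1,0,2,2,0], [0,0,4,1,0]]),
  (([23,18,12,4,0], 58), [[2,0,0,2,1], [1,1,1,1,1], [1,1,0,3,0], [1,0,2,2,0], [0,3,0,0,2], [0,2,1,2,0], [0,1,3,0,1], [0,0,4,1,0]]),
  (([24,19,18,10,0], 72), [[2,1,0,0,2], [2,0,0,2,1], [1,1,1,1,1], [1,0,0,4,0], [0,3,0,1,1], [0,2,0,3,0]]),
  (([27,23,21,18,0], 90), [[3,0,0,0,2], [1,1,1,1,1], [0,3,0,1,1], [0,2,2,0,1]]),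
  (([24,16,6,1,0], 48), [[1,1,1,1,1], [1,1,0,3,0], [1,0,3,1,0], [0,2,2,1,0], [0,1,4,0,0]]),
  (([60,24,20,15,0], 120), [[1,2,0,0,2], [1,1,1,1,1], [0,4,1,0,0]]),
  (([45,23,21,15,0], 105), [[2,0,0,0,3], [1,2,0,0,2], [1,1,1,1,1], [0,4,0,0,1], [0,3,0,2,0], [0,2,2,1,0]]),
  (([18,12,3,2,0], 36), [[1,1,1,1,1], [1,0,4,0,0], [0,2,3,0,0]]),
  (([44,36,27,24,0], 132), [[2,1,0,0,2], [1,1,1,1,1], [1,0,3,0,1], [0,2,2,0,1], [0,0,3,2,0]]),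
  (([38,30,24,21,0], 114), [[2,1,0,0,2], [1,1,1,1,1], [1,0,3,0,1], [0,3,0,1,1], [0,2,2,0,1], [0,0,2,3,0]]),
  (([18,16,12,1,0], 48), [[2,0,0,3,0], [1,1,1,1,1], [1,0,2,2,0], [0,2,1,2,0]]),
  (([17,16,12,2,0], 48), [[2,0,1,0,2], [2,0,0,3,0], [1,1,1,1,1], [1,0,2,2,0]]),
  (([33,32,30,24,0], 120), [[3,0,0,0,2], [2,0,0,2,1], [1,1,1,1,1]])]

def tree55u : Tree :=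
  .node [2,1,0,0,2] (.node [0,4,0,0,1] (.leaf 8 [(1, [0,0,0,0,0,1,0]), (1, [0,0,0,0,0,0,0]), (1, [0,0,0,0,0,0,1])]) (.node [0,3,1,0,1] (.node [1,0,3,0,1] (.leaf 28 [(1, [0,0,0,0,0,1,0,0,0]), (1, [0,0,0,0,0,0,0,0,0]), (1, [0,0,0,0,0,0,0,0,1]), (1, [0,0,0,0,0,0,0,1,0])]) (.node [0,0,1,4,0] (.leaf 43 [(1, [0,0,0,0,0,1,0,0,0,0]), (1, [0,0,0,0,0,0,0,0,0,0]), (1, [0,0,0,0,0,0,0,1,0,0]), (1, [0,0,0,0,0,0,0,0,0,1])]) (.leaf 47 [(1, [0,0,0,0,0,0,1,0,1,1]), (1, [0,0,0,0,0,0,0,0,0,0]), (1, [0,0,5,0,0,0,0,1,0,0]), (1, [0,5,0,0,0,0,0,1,0,0])]))) (.node [2,0,0,3,0] (.node [0,1,2,2,0] (.leaf 29 [(1, [0,5,0,0,0,1,0,0,0,0]), (1, [0,0,0,0,0,0,0,0,1,0]), (1, [5,0,0,0,0,1,0,0,0,0]), (1, [0,0,0,0,0,0,0,0,0,0]),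 (1, [0,0,0,0,0,0,0,0,0,1])]) (.node [0,0,3,2,0] (.leaf 35 [(1, [0,0,0,0,0,1,0,0,0,0,0]), (1, [0,0,0,5,0,0,0,0,1,0,0]), (1, [0,0,0,0,0,0,0,0,0,0,0]), (1, [5,0,0,0,0,0,0,0,1,0,0]), (1, [0,0,0,0,0,0,0,0,0,0,1])]) (.node [0,3,0,1,1] (.leaf 46 [(1, [0,0,0,0,0,1,0,0,0,0,0,0]), (1, [0,0,0,5,0,0,0,0,1,0,0,0]), (1, [0,0,0,0,0,0,0,0,0,0,0,0]), (1, [5,5,5,0,0,0,0,0,1,0,0,0]), (1, [0,0,0,0,0,0,0,0,0,0,0,1]), (1, [10,0,0,0,0,0,0,0,1,0,0,0])]) (.leaf 56 [(1, [0,0,0,0,0,0,0,0,0,0,1,1]), (1, [0,0,0,5,0,0,0,0,1,0,0,0]), (1, [0,0,0,0,0,0,0,0,0,0,0,0])])))) (.node [2,0,0,2,1] (.node [3,0,0,0,2] (.leaf 56 [(1, [0,0,0,0,0,0,0,0,0,0,1]), (1, [0,0,0,0,0,0,0,0,0,1,0]), (1, [0,0,0,0,0,0,0,0,0,0,0])]) (.node [0,3,0,1,1]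 (.node [0,2,2,0,1] (.leaf 14 [(1, [0,0,0,0,0,1,0,0,0,0,0,0,0]), (1, [0,0,0,0,0,0,0,0,0,0,0,0,0]), (1, [0,0,0,0,0,0,0,0,0,0,0,1,0]), (1, [0,0,0,0,0,0,0,0,0,0,0,0,1]), (1, [5,0,0,0,0,0,0,0,0,2,1,0,0]), (1, [0,0,0,0,0,0,0,1,0,0,1,0,0])]) (.node [0,1,3,0,1] (.leaf 19 [(1, [0,0,0,0,0,1,0,0,0,0,0,0,0,0]), (1, [0,0,0,0,0,0,0,0,0,1,0,0,0,0]), (1, [0,0,0,0,0,0,0,0,0,0,0,0,0,0]), (1, [0,0,0,0,0,0,0,0,0,2,1,0,0,0]), (1, [0,0,0,0,0,0,0,0,0,0,0,1,0,0]), (1, [0,0,0,0,0,0,0,0,0,0,0,0,0,1]), (1, [0,0,0,0,0,0,0,0,0,1,1,0,0,0])]) (.leaf 46 [(1, [0,0,0,0,0,1,0,0,0,0,0,0,0,0]), (1, [0,0,0,0,0,0,0,0,0,1,0,0,0,0]), (1, [0,0,0,0,0,0,0,0,0,0,0,0,0,0]), (1, [0,0,0,0,0,0,0,0,0,2,1,0,0,0]), (1, [0,0,0,0,0,0,0,0,0,0,0,1,0,0]),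 (1, [0,0,0,0,0,0,0,0,0,0,1,0,0,1])]))) (.node [1,1,0,3,0] (.leaf 35 [(1, [0,0,0,0,0,1,0,0,0,0,0,0,0]), (1, [0,0,0,0,0,0,0,0,0,1,0,0,0]), (1, [0,0,0,0,0,0,0,0,0,0,0,0,0]), (1, [0,0,0,0,0,0,0,0,0,0,0,0,1]), (1, [0,0,0,0,0,0,0,0,0,0,1,1,0])]) (.node [0,1,3,0,1] (.leaf 6 [(1, [0,0,0,0,0,1,0,0,0,0,0,0,0,0]), (1, [0,0,0,0,0,0,0,0,0,1,0,0,0,0]), (1, [0,0,0,0,0,0,0,0,0,0,0,0,0,0]), (1, [0,0,0,0,0,0,0,0,0,2,1,0,0,0]), (1, [0,0,0,0,0,0,0,0,0,0,0,0,0,1]), (1, [0,0,0,0,0,0,0,0,0,1,1,0,0,0]), (1, [0,0,0,0,0,0,0,0,0,0,1,1,0,0])]) (.leaf 38 [(1, [0,0,0,0,0,1,0,0,0,0,0,0,0,0]), (1, [0,0,0,0,0,0,0,0,0,1,0,0,0,0]), (1, [0,0,0,0,0,0,0,0,0,0,0,0,0,0]), (1, [0,0,0,0,0,0,0,0,0,0,1,1,0,1]), (1, [0,0,0,0,0,0,0,0,0,0,1,0,0,1]),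 (1, [0,0,0,0,0,0,0,0,0,0,1,1,1,0]), (1, [0,0,0,0,0,0,0,0,0,0,1,1,0,0])]))))) (.node [1,0,3,0,1] (.node [3,0,0,0,2] (.leaf 42 [(1, [0,0,0,0,0,0,0,0,0,0,0,1]), (1, [0,0,0,0,0,0,0,0,0,0,0,0]), (1, [0,0,0,0,0,0,0,0,0,0,1,0]), (1, [0,0,0,0,0,0,0,0,0,1,0,0])]) (.node [0,3,0,1,1] (.leaf 53 [(1, [0,0,0,0,0,1,0,0,0,0,0,0,0]), (1, [0,0,0,0,0,0,0,0,0,0,0,0,0]), (1, [0,0,0,0,0,0,0,0,0,0,1,0,0]), (1, [0,0,0,0,0,0,0,0,0,0,0,0,1]), (1, [0,0,0,0,0,0,0,0,0,1,0,0,0]), (1, [0,0,0,0,0,0,0,1,0,0,0,1,0])]) (.leaf 52 [(1, [0,0,0,0,0,1,0,0,0,0,0,0,0]), (1, [0,0,0,0,0,0,0,0,0,0,0,0,0]), (1, [0,0,0,0,0,0,0,0,0,0,1,0,0]), (1, [0,0,0,0,0,0,0,0,0,1,0,0,0]), (1, [0,0,0,0,0,0,0,0,0,0,0,1,1])]))) (.node [3,0,0,0,2] (.leaf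 47 [(1, [0,0,0,0,0,0,0,0,0,0,0,1]), (1, [0,0,0,0,0,0,0,0,0,0,0,0]), (1, [0,0,0,0,0,0,0,0,0,1,1,0]), (1, [0,0,0,0,0,0,0,0,0,1,0,0])]) (.leaf 14 [(1, [0,0,0,0,0,1,0,0,0,0,0,0]), (1, [0,0,0,0,0,0,0,0,0,0,0,0]), (1, [0,0,0,0,0,0,0,0,0,1,1,0]), (1, [0,0,0,0,0,0,0,0,0,1,0,0]), (1, [0,0,0,0,0,0,0,1,0,0,1,1]), (1, [0,0,0,0,0,0,0,1,0,0,0,1])]))))))) (.node [1,2,0,0,2] (.node [0,4,1,0,0] (.leaf 49 [(1, [0,0,0,0,0,0,1,0]), (1, [0,0,0,0,0,0,0,0]), (1, [0,0,0,0,0,0,0,1])]) (.node [2,0,1,0,2] (.node [2,0,0,3,0] (.leaf 29 [(1, [0,0,0,0,0,0,0,0,1,0]), (1, [0,0,0,0,0,0,0,0,0,1]), (1, [0,0,0,0,0,0,1,0,0,0]), (1, [0,0,0,0,0,0,0,0,0,0]), (1, [0,0,0,0,0,1,0,0,0,0])]) (.node [1,0,4,0,0] (.leaf 4 [(1, [0,0,0,0,0,0,0,0,1,0,0]),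 (1, [0,0,0,0,0,0,0,0,0,0,0]), (2, [0,5,0,5,0,0,0,0,0,0,1]), (1, [0,0,10,0,0,0,0,0,0,0,1]), (1, [5,0,0,0,0,0,1,0,0,0,0]), (2, [10,0,0,0,0,0,1,0,0,0,1]), (1, [5,0,5,0,0,0,0,0,0,0,1]), (1, [5,5,0,0,0,0,0,0,0,0,1])]) (.node [0,2,1,2,0] (.node [0,3,1,0,1] (.leaf 32 [(1, [0,0,0,0,0,0,0,0,1,0,0,0,0]), (1, [0,0,0,0,0,0,1,0,0,0,0,0,0]), (1, [0,0,0,0,0,0,0,0,0,0,0,0,0]), (1, [0,0,0,0,0,0,0,0,0,0,0,0,1]), (1, [0,0,5,0,0,0,0,0,0,0,0,1,0]), (1, [0,0,0,0,0,1,0,0,0,0,0,0,0])]) (.node [0,2,2,0,1] (.leaf 13 [(1, [0,0,0,0,0,0,0,0,1,0,0,0,0,0]), (1, [0,0,0,0,0,0,1,0,0,0,0,0,0,0]), (1, [0,0,0,0,0,0,0,0,0,0,0,0,0,0]), (1, [0,0,5,0,0,0,0,0,0,0,0,1,1,0]), (1, [0,0,0,0,0,0,1,0,0,0,0,1,0,0]), (1, [0,0,0,0,0,0,0,0,0,0,0,0,0,1]),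 (1, [0,0,5,0,0,0,0,0,0,0,0,1,0,0]), (1, [0,0,0,0,0,1,0,0,0,0,0,0,0,0])]) (.leaf 12 [(1, [0,0,0,0,0,0,0,0,0,0,0,0,0,1]), (1, [0,0,0,0,0,0,1,0,0,0,0,0,0,0]), (1, [0,0,0,0,0,0,0,0,0,0,0,0,0,0]), (1, [0,0,0,0,0,0,0,0,0,0,0,1,0,1]), (1, [0,0,0,0,0,0,1,0,0,0,0,1,0,0]), (1, [0,0,0,0,0,0,0,0,0,0,0,1,0,0])]))) (.node [0,2,0,3,0] (.node [0,3,1,0,1] (.leaf 32 [(1, [0,0,0,0,0,0,0,0,1,0,0,0,0,0]), (1, [0,0,0,0,0,0,1,0,0,0,0,0,0,0]), (1, [0,0,0,0,0,0,0,0,0,0,0,0,0,0]), (1, [0,0,0,0,0,0,0,0,0,0,0,0,0,1]), (1, [0,0,0,0,0,0,0,0,0,0,0,0,1,0]), (1, [0,0,0,0,0,1,0,0,0,0,0,0,0,0])]) (.node [0,2,2,0,1] (.node [0,3,0,1,1] (.leaf 13 [(1, [0,0,0,0,0,0,0,0,1,0,0,0,0,0,0,0]), (1, [0,0,0,0,0,0,1,0,0,0,0,0,0,0,0,0]),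 (1, [0,0,0,0,0,0,0,0,0,0,0,0,0,0,0,0]), (1, [0,0,0,0,0,0,0,0,0,0,0,0,1,1,0,0]), (1, [0,0,0,0,0,0,0,0,0,0,0,0,0,0,0,1]), (1, [0,0,0,0,0,0,0,0,0,0,0,0,0,0,1,0]), (1, [0,0,0,0,0,0,0,0,0,0,0,0,1,0,0,0]), (1, [0,0,0,0,0,1,0,0,0,0,0,0,0,0,0,0])]) (.leaf 33 [(1, [0,0,0,0,0,0,0,0,1,0,0,0,0,0,0,0]), (1, [0,0,0,0,0,0,1,0,0,0,0,0,0,0,0,0]), (1, [0,0,0,0,0,0,0,0,0,0,0,0,0,0,0,0]), (1, [0,0,0,0,0,0,0,0,0,0,0,0,0,0,1,1]), (1, [0,0,0,0,0,0,0,0,0,0,0,0,1,1,0,0]), (1, [0,0,0,0,0,0,0,0,0,0,0,0,0,0,1,0]), (1, [0,0,0,0,0,1,0,0,0,0,0,0,0,0,0,0]), (1, [0,0,0,0,0,1,0,0,0,0,0,0,0,0,1,1])])) (.node [0,1,3,0,1] (.leaf 1 [(1, [0,0,0,0,0,0,0,0,1,0,0,0,0,0,0,0]), (1, [0,0,0,0,0,0,0,0,0,0,0,0,0,0,1,0]), (1, [0,0,0,0,0,0,1,0,0,0,0,0,0,0,0,0]),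 (1, [0,0,0,0,0,0,0,0,0,0,0,0,0,0,0,0]), (1, [0,0,0,0,0,1,0,0,0,0,0,0,0,0,1,0]), (1, [0,0,0,0,0,0,0,0,0,0,0,0,1,0,0,0]), (1, [0,0,0,0,0,0,0,0,0,0,0,0,0,0,0,1]), (1, [0,0,0,0,0,1,0,0,0,0,0,0,0,0,0,0])]) (.node [0,0,4,0,1] (.leaf 5 [(1, [0,0,0,0,0,0,0,0,1,0,0,0,0,0,0,0,0]), (1, [0,0,0,0,0,0,0,0,0,0,0,0,0,0,1,0,0]), (1, [0,0,0,0,0,0,1,0,0,0,0,0,0,0,0,0,0]), (1, [0,0,0,0,0,0,0,0,0,0,0,0,0,0,0,0,0]), (1, [0,0,0,0,0,1,0,0,0,0,0,0,0,0,0,1,0]), (1, [0,0,0,0,0,1,0,0,0,0,0,0,0,0,0,0,0]), (1, [0,0,0,0,0,0,0,0,0,0,0,0,0,0,0,0,1])]) (.leaf 41 [(1, [0,0,0,0,0,0,0,0,1,0,0,0,0,0,0,0,0]), (1, [0,0,0,0,0,0,0,0,0,0,0,0,0,0,1,0,0]), (1, [0,0,0,0,0,0,1,0,0,0,0,0,0,0,0,0,0]), (1, [0,0,0,0,0,0,0,0,0,0,0,0,0,0,0,0,0]),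 (1, [0,0,0,0,0,1,0,0,0,0,0,0,0,0,0,1,0]), (1, [0,0,0,0,0,1,0,0,0,1,0,0,0,0,0,0,1]), (1, [0,0,0,0,0,1,0,0,0,0,0,0,0,0,0,0,0])]))))) (.node [0,2,2,0,1] (.node [0,0,5,0,0] (.leaf 37 [(1, [0,0,0,0,0,0,0,0,1,0,0,0,0,0,0]), (1, [0,0,0,0,0,0,1,0,0,0,0,0,0,0,0]), (1, [0,0,0,0,0,0,0,0,0,0,0,0,0,0,0]), (1, [0,0,0,0,0,1,0,0,0,0,0,0,1,0,0]), (1, [0,0,0,0,0,0,0,0,0,0,0,0,0,1,0]), (1, [0,0,0,0,0,1,0,0,0,0,0,0,0,0,0]), (1, [0,0,0,0,0,0,0,0,0,0,0,0,0,0,1])]) (.node [0,3,0,1,1] (.leaf 34 [(1, [0,0,0,0,0,0,0,0,1,0,0,0,0,0,0,0]), (1, [0,0,0,0,0,0,1,0,0,0,0,0,0,0,0,0]), (1, [0,0,0,0,0,0,0,0,0,0,0,0,0,0,0,0]), (1, [0,0,0,0,0,1,0,0,0,0,0,0,1,0,0,0]), (1, [0,0,0,0,0,0,0,0,0,0,0,0,0,0,0,1]), (1, [0,0,0,0,0,0,0,0,0,0,0,0,0,1,0,0]),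 (1, [0,0,0,0,0,1,0,0,0,0,0,0,0,0,0,0]), (1, [0,0,0,0,0,2,0,0,0,0,0,0,1,0,0,0])]) (.leaf 33 [(1, [0,0,0,0,0,0,0,0,1,0,0,0,0,0,0,0]), (1, [0,0,0,0,0,0,1,0,0,0,0,0,0,0,0,0]), (1, [0,0,0,0,0,0,0,0,0,0,0,0,0,0,0,0]), (1, [0,0,0,0,0,1,0,0,0,0,0,0,1,0,0,0]), (1, [0,0,0,0,0,2,0,0,0,0,0,0,0,0,1,1]), (1, [0,0,0,0,0,0,0,0,0,0,0,0,0,1,0,0]), (1, [0,0,0,0,0,1,0,0,0,0,0,0,0,0,0,0]), (1, [0,0,0,0,0,2,0,0,0,0,0,0,1,0,0,0])]))) (.leaf 15 [(1, [0,0,0,0,0,0,0,0,1,0,0,0,0,0]), (1, [0,0,0,0,0,0,0,0,0,0,0,0,0,1]), (1, [0,0,0,0,0,0,1,0,0,0,0,0,0,0]), (1, [0,0,0,0,0,0,0,0,0,0,0,0,0,0]), (1, [0,0,0,0,0,1,0,0,0,0,0,0,1,0]), (1, [0,0,0,0,0,1,0,0,0,0,0,0,0,1]), (1, [0,0,0,0,0,1,0,0,0,0,0,0,0,0]), (1, [0,0,0,0,0,2,0,0,0,0,0,0,1,0])]))))))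 (.node [0,2,3,0,0] (.node [1,0,3,1,0] (.leaf 11 [(1, [0,0,0,0,0,0,0,0,0,0,0]), (1, [0,0,0,0,0,0,0,0,0,0,1]), (1, [0,0,0,0,0,0,1,0,1,0,0]), (1, [0,0,0,0,0,0,0,0,0,1,0])]) (.node [2,0,0,0,3] (.node [1,0,3,0,1] (.leaf 39 [(1, [0,0,0,0,0,0,0,0,0,0,0,1,0]), (1, [0,0,0,0,0,0,1,0,0,0,0,0,0]), (1, [0,0,0,0,0,0,0,0,0,0,0,0,0]), (1, [0,0,0,0,0,0,0,0,0,0,0,0,1]), (1, [0,0,0,0,0,0,0,0,0,1,1,0,0]), (1, [0,0,5,0,0,0,0,0,0,1,0,0,0]), (1, [0,5,0,0,0,0,0,0,0,1,0,0,0])]) (.leaf 50 [(1, [0,0,0,0,0,0,0,0,0,0,0,1,0]), (1, [0,0,0,0,0,0,1,0,0,0,0,0,0]), (1, [0,0,0,0,0,0,0,0,0,0,0,0,0]), (1, [0,0,0,0,0,0,1,0,0,1,0,0,1]), (1, [0,5,0,0,0,0,0,0,0,1,0,0,2]), (1, [0,0,5,0,0,0,0,0,0,1,0,0,0])])) (.node [1,1,0,3,0]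 (.leaf 2 [(1, [0,0,0,0,0,0,1,0,0,0,0,0,0]), (1, [0,0,0,0,0,0,0,0,0,0,0,0,0]), (1, [0,0,0,0,0,0,0,0,0,0,0,0,1]), (1, [0,0,0,0,0,0,2,0,0,0,0,1,0]), (1, [0,0,0,0,0,0,1,0,0,0,0,1,0])]) (.node [1,0,1,3,0] (.leaf 23 [(1, [0,0,0,0,0,0,1,0,0,0,0,0,0,0]), (1, [0,0,0,0,0,0,0,0,0,0,0,0,0,0]), (1, [0,0,0,0,0,0,0,0,0,0,0,0,0,1]), (1, [0,0,0,0,0,0,2,0,0,0,0,1,0,0]), (1, [0,0,0,0,0,0,1,0,0,0,0,1,0,0]), (1, [0,0,0,0,0,0,0,0,0,1,0,0,0,0])]) (.node [1,0,3,0,1] (.leaf 21 [(1, [0,0,0,0,0,0,1,0,0,0,0,0,0,0,0]), (1, [0,0,0,0,0,0,0,0,0,0,0,0,0,0,0]), (1, [0,0,0,0,0,0,0,0,0,0,0,0,0,0,1]), (1, [0,0,0,0,0,0,2,0,0,0,0,1,0,0,0]), (1, [0,0,0,0,0,0,0,0,0,0,0,1,0,1,0])]) (.leaf 36 [(1, [0,0,0,0,0,0,1,0,0,0,0,0,0,0,0]),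 (1, [0,0,0,0,0,0,0,0,0,0,0,0,0,0,0]), (1, [0,0,0,0,0,0,0,1,0,0,0,1,0,0,1]), (1, [0,0,0,0,0,0,0,0,0,0,0,1,0,1,1]), (1, [0,0,0,0,0,0,0,0,0,0,0,1,0,1,0])])))))) (.node [2,0,0,1,2] (.node [0,4,0,0,1] (.leaf 40 [(1, [0,0,0,0,0,0,0,0,0,0,1,0]), (1, [0,0,0,0,0,0,1,0,0,0,0,0]), (1, [0,0,0,0,0,0,0,0,0,0,0,0]), (1, [0,0,0,0,0,0,0,0,0,0,0,1]), (1, [0,0,0,0,0,0,0,0,1,0,0,0])]) (.node [1,0,2,2,0] (.node [0,2,2,0,1] (.leaf 24 [(1, [0,0,0,0,0,0,0,0,0,0,1,0,0,0]), (1, [0,0,0,0,0,0,1,0,0,0,0,0,0,0]), (1, [0,0,0,0,0,0,0,0,0,0,0,0,0,0]), (1, [0,0,5,0,0,0,0,0,0,0,0,0,1,0]), (1, [0,0,0,0,0,0,1,0,1,0,0,0,0,0]), (1, [0,0,0,0,0,0,0,0,0,0,0,0,0,1]), (1, [0,0,0,0,0,0,0,0,1,0,0,0,0,0])]) (.leaf 12 [(1, [0,0,0,0,0,0,0,0,0,0,0,0,0,1]),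 (1, [0,0,0,0,0,0,1,0,0,0,0,0,0,0]), (1, [0,0,0,0,0,0,0,0,0,0,0,0,0,0]), (1, [0,0,0,0,0,0,0,0,1,0,0,0,0,1]), (1, [0,0,0,0,0,0,1,0,1,0,0,0,0,0]), (1, [0,0,0,0,0,0,0,0,1,0,0,0,0,0])])) (.node [0,3,1,0,1] (.node [1,0,1,3,0] (.leaf 24 [(1, [0,0,0,0,0,0,0,0,0,0,1,0,0,0,0]), (1, [0,0,0,0,0,0,1,0,0,0,0,0,0,0,0]), (1, [0,0,0,0,0,0,0,0,0,0,0,0,0,0,0]), (1, [0,0,0,0,0,0,0,0,0,0,0,0,0,0,1]), (1, [0,0,5,0,0,0,0,0,0,0,0,0,0,1,0]), (1, [0,5,0,0,0,0,0,0,0,0,0,0,0,1,0]), (1, [0,0,0,0,0,0,0,0,1,0,0,0,0,0,0])]) (.node [1,0,0,4,0] (.leaf 25 [(1, [0,0,0,0,0,0,0,0,0,0,1,0,0,0,0,0]), (1, [0,0,0,0,0,0,1,0,0,0,0,0,0,0,0,0]), (1, [0,0,0,0,0,0,0,0,0,0,0,0,0,0,0,0]), (1, [0,0,0,0,0,0,0,0,0,0,0,0,0,0,0,1]), (1, [0,0,0,0,0,0,0,0,0,0,0,0,0,1,0,0]),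 (1, [0,0,0,0,0,0,0,0,1,0,0,0,0,0,0,0])]) (.leaf 17 [(1, [0,0,0,0,0,0,0,0,0,0,1,0,0,0,0,0]), (1, [0,0,0,0,0,0,1,0,0,0,0,0,0,0,0,0]), (1, [0,0,0,0,0,0,0,0,0,0,0,0,0,0,0,0]), (1, [0,0,0,0,0,0,0,0,1,0,0,1,0,0,0,1]), (1, [0,0,0,0,0,0,0,0,0,0,0,0,0,1,0,0]), (1, [0,0,0,0,0,0,0,0,1,0,0,0,0,0,0,0]), (1, [0,0,0,0,0,0,0,0,2,0,0,1,0,0,0,1]), (1, [0,0,0,0,0,0,0,0,3,0,0,2,0,0,0,2])]))) (.node [0,2,2,0,1] (.leaf 24 [(1, [0,0,0,0,0,0,0,0,0,0,1,0,0,0,0]), (1, [0,0,0,0,0,0,1,0,0,0,0,0,0,0,0]), (1, [0,0,0,0,0,0,0,0,0,0,0,0,0,0,0]), (1, [0,0,0,0,0,0,0,0,1,0,0,0,0,1,0]), (1, [0,0,0,0,0,0,1,0,1,0,0,0,0,0,0]), (1, [0,0,0,0,0,0,0,0,0,0,0,0,0,0,1]), (1, [0,0,0,0,0,0,0,0,1,0,0,0,0,0,0])]) (.leaf 12 [(1, [0,0,0,0,0,0,0,0,0,0,0,0,0,0,1]),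 (1, [0,0,0,0,0,0,1,0,0,0,0,0,0,0,0]), (1, [0,0,0,0,0,0,0,0,0,0,0,0,0,0,0]), (1, [0,0,0,0,0,0,0,0,1,0,0,0,0,0,1]), (1, [0,0,0,0,0,0,1,0,1,0,0,0,0,0,0]), (1, [0,0,0,0,0,0,0,0,1,0,0,0,0,0,0])]))))) (.node [2,0,0,0,3] (.node [0,3,0,2,0] (.node [1,1,0,3,0] (.leaf 10 [(1, [0,0,0,0,0,0,0,0,0,0,0,1,0,0]), (1, [0,0,0,0,0,0,1,0,0,0,0,0,0,0]), (1, [0,0,0,0,0,0,0,0,0,0,0,0,0,0]), (1, [0,0,0,0,0,0,0,0,0,0,0,0,0,1]), (1, [0,0,0,0,0,0,1,0,0,0,1,0,0,0]), (1, [0,0,0,0,0,0,0,0,0,0,0,0,1,0]), (1, [0,0,0,0,0,0,0,0,0,0,1,0,0,0])]) (.node [0,4,0,0,1] (.leaf 50 [(1, [0,0,0,0,0,0,0,0,0,0,0,1,0,0,0]), (1, [0,0,0,0,0,0,1,0,0,0,0,0,0,0,0]), (1, [0,0,0,0,0,0,0,0,0,0,0,0,0,0,0]), (1, [0,0,0,0,0,0,0,0,0,0,0,0,0,0,1]),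 (1, [0,0,0,0,0,0,0,0,0,0,0,0,1,0,0]), (1, [0,0,0,0,0,0,0,0,0,0,1,0,0,0,0])]) (.leaf 22 [(1, [0,0,0,0,0,0,0,0,0,0,0,1,0,0,0]), (1, [0,0,0,0,0,0,1,0,0,0,0,0,0,0,0]), (1, [0,0,0,0,0,0,0,0,0,0,0,0,0,0,0]), (1, [0,0,0,0,0,0,0,0,0,0,0,0,1,0,1]), (1, [0,0,0,0,0,0,1,0,0,0,1,0,0,0,0]), (1, [0,0,0,0,0,0,0,0,0,0,0,0,1,0,0]), (1, [0,0,0,0,0,0,0,0,0,0,1,0,0,0,0]), (1, [0,0,0,0,0,0,0,0,0,0,2,0,0,1,1])]))) (.leaf 39 [(1, [0,0,0,0,0,0,0,0,0,0,0,1,0]), (1, [0,0,0,0,0,0,1,0,0,0,0,0,0]), (1, [0,0,0,0,0,0,0,0,0,0,0,0,0]), (1, [0,0,0,0,0,0,0,0,0,0,1,0,1]), (1, [0,0,0,0,0,0,1,0,0,0,1,0,0]), (1, [0,0,0,0,0,0,0,0,0,0,1,0,0]), (1, [0,0,0,0,0,0,0,0,0,0,2,0,1])])) (.leaf 2 [(1, [0,0,0,0,0,0,1,0,0,0,0,0]), (1, [0,0,0,0,0,0,0,0,0,0,0,0]),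 (1, [0,0,0,0,0,0,0,0,0,1,0,1]), (1, [0,0,0,0,0,0,2,0,0,0,0,1]), (1, [0,0,0,0,0,0,1,0,0,0,0,1])])))))) (.node [2,0,0,3,0] (.node [2,0,1,0,2] (.leaf 55 [(1, [0,0,0,0,0,0,0,0,1]), (1, [0,0,0,0,0,0,0,1,0]), (1, [0,0,0,0,0,0,0,0,0]), (1, [0,0,0,0,0,0,1,0,0])]) (.leaf 54 [(1, [0,0,0,0,0,0,0,1,0]), (1, [0,0,0,0,0,0,0,0,0]), (1, [0,0,0,0,0,0,1,0,0]), (1, [0,0,0,0,0,0,0,0,1])])) (.node [0,2,3,0,0] (.node [1,0,4,0,0] (.leaf 51 [(1, [0,0,0,0,0,0,0,0,0,0]), (1, [0,0,0,0,0,0,0,0,0,1]), (1, [0,0,0,0,0,0,0,0,1,0])]) (.node [1,0,3,1,0] (.leaf 11 [(1, [0,0,0,0,0,0,0,0,0,0,0]), (1, [0,0,0,0,0,0,0,0,0,0,1]), (1, [0,0,0,0,0,0,0,0,1,1,0]), (1, [0,0,0,0,0,0,0,0,1,0,0])]) (.node [0,3,0,2,0] (.node [1,0,3,0,1]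 (.leaf 7 [(1, [0,0,0,0,0,0,0,0,0,0,0,0,0]), (1, [0,0,0,0,0,0,0,0,0,0,0,0,1]), (1, [0,0,0,0,0,0,1,0,0,0,0,0,0]), (1, [0,0,0,0,0,0,0,0,1,0,1,0,0]), (1, [0,0,0,0,0,0,0,0,0,0,0,1,0]), (1, [0,0,0,0,0,0,0,0,1,0,0,0,0])]) (.leaf 26 [(1, [0,0,0,0,0,0,0,0,0,0,0,0,0]), (1, [0,0,0,0,0,0,1,0,0,0,0,0,1]), (1, [0,0,0,0,0,0,1,0,0,0,0,0,0]), (1, [0,0,0,0,0,0,0,0,0,0,0,1,0]), (1, [0,0,5,0,0,0,0,0,1,0,0,0,0])])) (.leaf 9 [(1, [0,0,0,0,0,0,0,0,0,0,1,1]), (1, [0,0,0,0,0,0,0,0,0,0,0,0]), (2, [0,5,0,0,0,0,0,0,1,0,0,1]), (1, [0,0,0,0,0,0,1,0,0,0,0,0]), (1, [0,0,0,0,0,0,0,0,1,1,0,0]), (1, [0,0,5,0,0,0,0,0,1,0,0,0]), (1, [0,5,0,0,0,0,0,0,1,0,0,0])])))) (.node [0,2,2,1,0] (.node [1,1,0,3,0] (.node [0,3,0,2,0] (.leaf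 26 [(1, [0,0,0,0,0,0,0,0,0,0,0,0]), (1, [0,0,0,0,0,0,0,0,0,0,1,0]), (1, [0,0,0,0,0,0,1,0,0,0,0,0]), (1, [0,0,0,0,0,0,0,0,0,0,0,1]), (1, [0,0,0,0,0,0,0,0,0,1,0,0])]) (.node [1,0,3,1,0] (.leaf 48 [(1, [0,0,0,0,0,0,0,0,0,0,0,0,0]), (1, [0,0,0,0,0,0,0,0,0,0,1,0,0]), (1, [0,0,0,0,0,0,0,0,0,0,0,0,1]), (1, [0,0,0,0,0,0,0,0,0,1,0,0,0]), (1, [0,0,0,0,0,0,0,0,0,2,0,1,0])]) (.leaf 9 [(1, [0,0,0,0,0,0,0,0,0,0,0,1,1]), (1, [0,0,0,0,0,0,0,0,0,0,0,0,0]), (1, [0,0,0,0,0,0,0,0,0,1,0,1,0]), (1, [0,0,0,0,0,0,1,0,0,0,0,0,0]), (1, [0,0,0,0,0,0,0,0,0,1,0,0,1]), (1, [0,0,0,0,0,0,0,0,0,1,0,0,0]), (1, [0,0,0,0,0,0,0,0,0,2,0,1,0])]))) (.node [0,3,0,1,1] (.leaf 9 [(1, [0,0,0,0,0,0,0,0,1,0,1,0]), (1, [0,0,0,0,0,0,0,0,0,0,0,0]),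 (1, [0,0,0,0,0,0,1,0,0,0,1,0]), (1, [0,0,0,0,0,0,1,0,0,0,0,0]), (1, [0,0,0,0,0,0,0,0,0,0,0,1]), (1, [0,0,0,0,0,0,0,0,0,1,0,0]), (1, [0,0,0,0,0,0,1,0,0,1,1,0])]) (.node [0,3,0,0,2] (.leaf 16 [(1, [0,0,0,0,0,0,0,0,1,0,1,0,0]), (1, [0,0,0,0,0,0,0,0,0,0,0,0,0]), (1, [0,0,0,0,0,0,0,0,0,1,0,1,0]), (1, [0,0,0,0,0,0,0,0,0,0,0,0,1]), (1, [0,0,0,0,0,0,0,0,0,1,0,0,0]), (1, [0,0,0,5,0,0,0,0,0,2,0,1,0])]) (.leaf 30 [(1, [0,0,0,0,0,0,0,0,1,0,1,0,0]), (1, [0,0,0,0,0,0,0,0,0,0,0,0,0]), (1, [0,0,0,0,0,0,0,0,0,1,1,0,1]), (1, [0,0,0,0,0,0,0,0,0,1,0,0,0])])))) (.node [2,0,0,2,1] (.node [2,0,1,0,2] (.node [1,0,3,0,1] (.leaf 44 [(1, [0,0,0,0,0,0,0,0,0,0,0,1,0]), (1, [0,0,0,0,0,0,0,0,0,0,1,0,0]), (1, [0,0,0,0,0,0,0,0,0,0,0,0,0]),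 (1, [0,0,0,0,0,0,0,0,0,0,0,0,1]), (1, [0,0,0,0,0,0,1,0,0,0,0,0,0]), (1, [0,0,0,0,0,1,0,0,0,0,0,0,1])]) (.leaf 3 [(1, [0,0,0,0,0,0,0,0,0,0,0,1,0]), (1, [0,0,0,0,0,0,0,0,0,0,1,0,0]), (1, [0,0,0,0,0,0,0,0,0,0,0,0,0]), (1, [0,0,0,0,0,0,1,0,0,0,0,0,1]), (1, [0,0,0,0,0,0,1,0,0,0,0,0,0]), (1, [0,0,0,0,0,0,0,1,0,0,0,0,1]), (1, [0,0,0,0,0,0,1,1,0,0,0,0,0]), (1, [0,0,0,0,0,0,2,1,0,0,0,0,0])])) (.node [0,3,0,0,2] (.leaf 45 [(1, [0,0,0,0,0,0,0,0,0,0,1,0,0]), (1, [0,0,0,0,0,0,0,0,0,0,0,0,0]), (1, [0,0,0,0,0,0,0,0,0,0,1,1,0]), (1, [0,0,0,0,0,0,1,0,0,0,0,0,0]), (1, [0,0,0,0,0,0,0,0,0,0,0,0,1]), (1, [0,0,0,0,0,0,0,0,0,0,0,1,0]), (1, [0,0,0,0,0,0,1,1,0,0,0,0,0]), (1, [0,0,0,0,0,0,2,1,0,0,0,0,0])]) (.leaf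 27 [(1, [0,0,0,0,0,0,0,0,0,0,1,0,0]), (1, [0,0,0,0,0,0,0,0,0,0,0,0,0]), (1, [0,0,0,0,0,0,0,0,0,0,1,1,0]), (1, [0,0,0,0,0,0,0,1,0,0,0,0,1]), (1, [0,0,0,0,0,0,1,0,0,0,0,0,0]), (1, [0,0,0,0,0,0,0,0,0,0,0,1,0]), (1, [0,0,0,0,0,0,0,1,0,0,0,1,1]), (1, [0,0,0,0,0,0,0,2,0,0,0,1,2])]))) (.node [0,2,1,2,0] (.node [0,1,4,0,0] (.node [0,3,0,0,2] (.leaf 31 [(1, [0,0,0,0,0,0,0,0,0,1,0,0,0,0]), (1, [0,0,0,0,0,0,0,0,0,0,0,0,0,0]), (1, [0,0,0,0,0,0,0,0,0,1,0,0,1,0]), (1, [0,0,0,0,0,0,1,0,0,0,0,0,0,0]), (1, [0,0,0,0,0,0,0,0,0,0,0,0,0,1]), (1, [0,0,0,0,0,0,0,0,0,0,1,0,0,0]), (1, [0,0,0,0,0,0,0,0,0,0,0,1,0,0]), (1, [0,0,5,0,0,0,0,0,0,0,0,0,1,0]), (1, [0,5,0,0,0,0,0,0,0,0,0,0,1,0])]) (.leaf 20 [(1, [0,0,0,0,0,0,0,0,0,1,0,0,0,0]),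 (1, [0,0,0,0,0,0,0,0,0,0,0,0,0,0]), (1, [0,0,0,0,0,0,0,0,0,0,1,0,0,1]), (1, [0,0,0,0,0,0,0,0,0,0,1,0,0,0]), (1, [0,0,0,0,0,0,0,0,0,0,0,1,0,0]), (1, [0,0,0,0,0,0,0,0,0,0,0,0,1,0])])) (.node [0,0,5,0,0] (.node [1,0,3,0,1] (.leaf 31 [(1, [0,0,0,0,0,0,0,0,0,1,0,0,0,0,0]), (1, [0,0,0,0,0,0,0,0,0,0,0,0,0,0,0]), (1, [0,0,0,0,0,0,0,0,0,0,0,0,0,0,1]), (1, [0,0,0,0,0,0,1,0,0,0,0,0,0,0,0]), (1, [0,0,0,0,0,0,0,0,0,0,2,0,1,0,0]), (1, [0,0,0,0,0,0,0,0,0,0,1,0,0,0,0]), (1, [0,0,0,0,0,0,0,0,0,0,0,1,0,0,0]), (1, [0,0,0,0,0,0,1,0,0,0,1,0,0,0,0]), (1, [0,0,0,0,0,0,0,0,0,0,0,0,0,1,0])]) (.leaf 0 [(1, [0,0,0,0,0,0,0,0,0,1,0,0,0,0,0]), (1, [0,0,0,0,0,0,0,0,0,0,0,0,0,0,0]), (1, [0,0,0,0,0,0,1,0,0,0,0,0,0,0,1]),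 (1, [0,0,0,0,0,0,1,0,0,0,0,0,0,0,0]), (1, [0,0,0,0,0,0,0,0,0,0,1,0,0,0,1]), (1, [0,0,0,0,0,0,0,0,0,0,1,0,0,0,0]), (1, [0,0,0,0,0,0,0,0,0,0,0,1,0,0,0]), (1, [0,0,0,0,0,0,1,0,0,0,1,0,0,0,0])])) (.leaf 0 [(1, [0,0,0,0,0,0,0,0,0,1,0,0,0,0]), (1, [0,0,0,0,0,0,0,0,0,0,0,0,0,0]), (1, [0,0,0,0,0,0,2,0,0,0,1,0,0,1]), (1, [0,0,0,0,0,0,1,0,0,0,0,0,0,0]), (1, [0,0,0,0,0,0,1,0,0,0,2,0,0,1]), (1, [0,0,0,0,0,0,0,0,0,0,1,0,0,0]), (1, [0,0,0,0,0,0,0,0,0,0,0,1,0,0]), (1, [0,0,0,0,0,0,1,0,0,0,1,0,0,0])]))) (.node [0,3,0,0,2] (.leaf 4 [(1, [0,0,0,0,0,0,0,0,0,0,0,1,0]), (1, [0,0,0,0,0,0,0,0,0,0,0,0,0]), (1, [0,0,0,0,0,0,1,0,0,0,1,1,0]), (1, [0,0,0,0,0,0,1,0,0,0,0,0,0]), (1, [0,0,0,0,0,0,0,0,0,0,0,0,1]), (1,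 [0,0,0,0,0,0,0,0,0,0,1,0,0]), (1, [0,0,0,0,0,0,1,0,0,0,1,0,0]), (1, [0,0,0,0,0,0,2,0,0,0,2,1,0])]) (.leaf 18 [(1, [0,0,0,0,0,0,0,0,0,0,0,1,0]), (1, [0,0,0,0,0,0,0,0,0,0,0,0,0]), (1, [0,0,0,0,0,0,0,0,0,0,1,0,1]), (1, [0,0,0,0,0,0,0,0,0,0,1,0,0]), (1, [0,0,0,0,0,0,0,0,0,0,2,0,1])]))))))))

theorem check55u : check 5 5 false (sets55u.map Prod.snd) (initial 5) tree55u = true := by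
  decide +kernel

theorem dom55u : sets55u.all (domCheck 5 5) = true := by
  decide +kernel

end Pool.Agent.Q76.GIT
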