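import Pool.Agent.Q76.GIT.HM3
import Pool.Agent.Q76.GIT.Data

/-!
# From the Hilbert-Mumford criterion to the lists of weights
-/

set_option autoImplicit false

namespace Pool.Agent.Q76.GIT

open MvPolynomial

variable {n : ℕ}

/-- In suitable linear coordinates every monomial of `f` has weight at least `p.2`, for the
weights `p.1` of the coordinates. -/
def HasWeight (f : MvPolynomial (Fin n) ℂ) (p : (Fin n → ℕ) × ℕ) : Prop :=
  ∃ g : Matrix (Fin n) (Fin n) ℂ, g.det ≠ 0 ∧
    ∀ m ∈ (act g f).support, p.2 ≤ ∑ i, p.1 i * m i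

/-! ### permutations of the coordinates -/

theorem act_perm (τ : Equiv.Perm (Fin n)) (F : MvPolynomial (Fin n) ℂ) :
    act (τ.permMatrix ℂ) F = rename τ F := by
  have : (fun i => ∑ j, C ((τ.permMatrix ℂ) i j) * X j) =
      fun i => (X (τ i) : MvPolynomial (Fin n) ℂ) := by
    funext i
    rw [Finset.sum_eq_single (τ i)]
    · simp [Equiv.Perm.permMatrix, PEquiv.toMatrix_apply]
    · intro j _ hj
      have : (τ.permMatrix ℂ) i j = 0 := by
        simp [Equiv.Perm.permMatrix, PEquiv.toMatrix_apply, hj.symm]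
      rw [this]
      simp
    · simp
  have h2 : (bind₁ fun i => (X (τ i) : MvPolynomial (Fin n) ℂ)) = rename τ := by
    apply MvPolynomial.algHom_ext
    intro i
    simp
  rw [act, this, h2]

theorem pair_mapDomain (τ : Equiv.Perm (Fin n)) (r : Fin n → ℤ) (m : Fin n →₀ ℕ) :
    pair r (Finsupp.mapDomain τ m) = pair (r ∘ τ) m := by
  unfold pair
  rw [← Equiv.sum_comp τ]
  refine Finset.sum_congr rfl fun i _ => ?_
  rw [Finsupp.mapDomain_apply τ.injective]
  rfl

theorem exists_sorted (g : Matrix (Fin n) (Fin n) ℂ) (hg : g.det ≠ 0)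
    (f : MvPolynomial (Fin n) ℂ) (r : Fin n → ℤ) :
    ∃ (g' : Matrix (Fin n) (Fin n) ℂ) (r' : Fin n → ℤ), g'.det ≠ 0 ∧ Antitone r' ∧
      ∑ i, r' i = ∑ i, r i ∧ (r' = 0 → r = 0) ∧
      ∀ m' ∈ (act g' f).support, ∃ m ∈ (act g f).support, pair r' m' = pair r m := by
  classical
  set σ := Tuple.sort fun i => -r i with hσ
  have hanti : Antitone (r ∘ σ) := by
    have h1 : Monotone ((fun i => -r i) ∘ σ) := Tuple.monotone_sort _
    intro i j hij
    have := h1 hij
    simp only [Function.comp] at this ⊢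
    omega
  refine ⟨g * (σ⁻¹).permMatrix ℂ, r ∘ σ, ?_, hanti, Equiv.sum_comp σ r, ?_, ?_⟩
  · rw [Matrix.det_mul, Matrix.det_permutation]
    exact mul_ne_zero hg (Int.cast_ne_zero.2 (Units.ne_zero _))
  · intro h
    funext i
    have := congrFun h (σ⁻¹ i)
    simpa using this
  · intro m' hm'
    rw [act_act, act_perm, support_rename_of_injective (σ⁻¹).injective, Finset.mem_image] at hm'
    obtain ⟨m, hm, rfl⟩ := hm'
    refine ⟨m, hm, ?_⟩
    rw [pair_mapDomain]
    congr 1
    funext i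
    simp

/-! ### the two directions -/

theorem pair_eq_of_weight (w : Fin n → ℕ) {d : ℕ} {m : Fin n →₀ ℕ} (hm : ∑ i, m i = d) :
    pair (fun i => (n : ℤ) * w i - ∑ j, (w j : ℤ)) m =
      n * ((∑ i, w i * m i : ℕ) : ℤ) - d * ∑ j, (w j : ℤ) := by
  unfold pair
  have h1 : (∑ i, (m i : ℤ)) = d := by exact_mod_cast hm
  push_cast
  calc ∑ i, ((n : ℤ) * w i - ∑ j, (w j : ℤ)) * m i
      = ∑ i, ((n : ℤ) * ((w i : ℤ) * m i) - (∑ j, (w j : ℤ)) * m i) :=
        Finset.sum_congr rfl fun i _ => by ring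
    _ = _ := by rw [Finset.sum_sub_distrib, ← Finset.mul_sum, ← Finset.mul_sum, h1]; ring

theorem sum_weight (w : Fin n → ℕ) :
    ∑ i, ((n : ℤ) * w i - ∑ j, (w j : ℤ)) = 0 := by
  rw [Finset.sum_sub_distrib, ← Finset.mul_sum, Finset.sum_const, Finset.card_univ,
    Fintype.card_fin, nsmul_eq_mul, sub_self]

theorem not_semistable_of_hasWeight {f : MvPolynomial (Fin n) ℂ} {d : ℕ}
    (hf : f.IsHomogeneous d) {p : (Fin n → ℕ) × ℕ} (h : HasWeight f p)
    (hp : d * ∑ i, p.1 i < n * p.2) : ¬ Semistable f := by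
  obtain ⟨g, hg, h⟩ := h
  refine (not_semistable_iff hf).2 ⟨g, hg, _, sum_weight p.1, fun m hm => ?_⟩
  have hd : ∑ i, m i = d := mem_exps.1 (mem_exps_of_coeff (act_homog hf g) (mem_support_iff.1 hm))
  rw [pair_eq_of_weight p.1 hd]
  have h1 : (p.2 : ℤ) ≤ ((∑ i, p.1 i * m i : ℕ) : ℤ) := by exact_mod_cast h m hm
  have h2 : (d : ℤ) * ∑ i, (p.1 i : ℤ) < n * (p.2 : ℤ) := by exact_mod_cast hp
  have h3 : (n : ℤ) * p.2 ≤ n * ((∑ i, p.1 i * m i : ℕ) : ℤ) :=
    mul_le_mul_of_nonneg_left h1 (by positivity)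
  linarith

theorem not_stable_of_hasWeight {f : MvPolynomial (Fin n) ℂ} {d : ℕ}
    (hf : f.IsHomogeneous d) (hf0 : f ≠ 0) {p : (Fin n → ℕ) × ℕ} (h : HasWeight f p)
    (hp : d * ∑ i, p.1 i ≤ n * p.2) (hne : ∃ i j, p.1 i ≠ p.1 j) : ¬ Stable f := by
  obtain ⟨g, hg, h⟩ := h
  refine (not_stable_iff hf hf0).2 ⟨g, hg, _, ?_, sum_weight p.1, fun m hm => ?_⟩
  · intro h0
    obtain ⟨i, j, hij⟩ := hne
    apply hij
    have hi := congrFun h0 i
    have hj := congrFun h0 j
    simp only [Pi.zero_apply] at hi hj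
    have hn : (n : ℤ) ≠ 0 := by
      have := i.pos
      omega
    have h1 : (n : ℤ) * p.1 i = n * p.1 j := by linarith
    exact_mod_cast mul_left_cancel₀ hn h1
  · have hd : ∑ i, m i = d :=
      mem_exps.1 (mem_exps_of_coeff (act_homog hf g) (mem_support_iff.1 hm))
    rw [pair_eq_of_weight p.1 hd]
    have h1 : (p.2 : ℤ) ≤ ((∑ i, p.1 i * m i : ℕ) : ℤ) := by exact_mod_cast h m hm
    have h2 : (d : ℤ) * ∑ i, (p.1 i : ℤ) ≤ n * (p.2 : ℤ) := by exact_mod_cast hp
    have h3 : (n : ℤ) * p.2 ≤ n * ((∑ i, p.1 i * m i : ℕ) : ℤ) :=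
      mul_le_mul_of_nonneg_left h1 (by positivity)
    linarith

/-- the property of a list of weights proved by the certificates -/
def Covers (n d : ℕ) (strict : Bool) (L : List ((Fin n → ℕ) × ℕ)) : Prop :=
  ∀ r : Fin n → ℤ, Antitone r → ∑ i, r i = 0 → r ≠ 0 → ∃ p ∈ L, ∀ m : Fin n →₀ ℕ,
    ∑ i, m i = d → (if strict then 0 ≤ pair r m else 0 < pair r m) → p.2 ≤ ∑ i, p.1 i * m i

theorem stable_iff_of_covers {d : ℕ} {L : List ((Fin n → ℕ) × ℕ)} (hL : Covers n d true L)
    (hL2 : ∀ p ∈ L, d * ∑ i, p.1 i ≤ n * p.2 ∧ ∃ i j, p.1 i ≠ p.1 j)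
    {f : MvPolynomial (Fin n) ℂ} (hf : f.IsHomogeneous d) (hf0 : f ≠ 0) :
    Stable f ↔ ∀ p ∈ L, ¬ HasWeight f p := by
  constructor
  · intro hs p hp hw
    exact not_stable_of_hasWeight hf hf0 hw (hL2 p hp).1 (hL2 p hp).2 hs
  · intro h
    by_contra hs
    obtain ⟨g, hg, r, hr0, hr, hpos⟩ := (not_stable_iff hf hf0).1 hs
    obtain ⟨g', r', hg', hanti, hsum, hz, hm⟩ := exists_sorted g hg f r
    obtain ⟨p, hp, hcov⟩ := hL r' hanti (by rw [hsum, hr]) (fun h0 => hr0 (hz h0))
    refine h p hp ⟨g', hg', fun m' hm' => hcov m' ?_ ?_⟩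
    · exact mem_exps.1 (mem_exps_of_coeff (act_homog hf g') (mem_support_iff.1 hm'))
    · obtain ⟨m, hm1, hm2⟩ := hm m' hm'
      simp only [if_true]
      rw [hm2]
      exact hpos m hm1

theorem semistable_iff_of_covers {d : ℕ} {L : List ((Fin n → ℕ) × ℕ)}
    (hL : Covers n d false L) (hL2 : ∀ p ∈ L, d * ∑ i, p.1 i < n * p.2)
    {f : MvPolynomial (Fin n) ℂ} (hf : f.IsHomogeneous d) (hf0 : f ≠ 0) :
    Semistable f ↔ ∀ p ∈ L, ¬ HasWeight f p := by
  constructor
  · intro hs p hp hw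
    exact not_semistable_of_hasWeight hf hw (hL2 p hp) hs
  · intro h
    by_contra hs
    obtain ⟨g, hg, r, hr, hpos⟩ := (not_semistable_iff hf).1 hs
    have hr0 : r ≠ 0 := by
      rintro rfl
      obtain ⟨m, hm⟩ := support_nonempty.2 (act_ne_zero hg hf0)
      have := hpos m hm
      simp [pair] at this
    obtain ⟨g', r', hg', hanti, hsum, hz, hm⟩ := exists_sorted g hg f r
    obtain ⟨p, hp, hcov⟩ := hL r' hanti (by rw [hsum, hr]) (fun h0 => hr0 (hz h0))
    refine h p hp ⟨g', hg', fun m' hm' => hcov m' ?_ ?_⟩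
    · exact mem_exps.1 (mem_exps_of_coeff (act_homog hf g') (mem_support_iff.1 hm'))
    · obtain ⟨m, hm1, hm2⟩ := hm m' hm'
      simp only [Bool.false_eq_true, if_false]
      rw [hm2]
      exact hpos m hm1

/-! ### four variables -/

theorem covers4 {d : ℕ} {strict : Bool} (sets : List ((List ℕ × ℕ) × List (List ℕ))) (T : Tree)
    (hT : check 4 d strict (sets.map Prod.snd) (initial 4) T = true)
    (hdom : sets.all (domCheck 4 d) = true) (L : List ((Fin 4 → ℕ) × ℕ))
    (hL : L.map (fun p => (List.ofFn p.1, p.2)) = sets.map Prod.fst) :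
    Covers 4 d strict L := by
  intro r hanti hr hr0
  have h01 : r 1 ≤ r 0 := hanti (by decide)
  have h12 : r 2 ≤ r 1 := hanti (by decide)
  have h23 : r 3 ≤ r 2 := hanti (by decide)
  rw [Fin.sum_univ_four] at hr
  have h03 : r 3 < r 0 := by
    rcases lt_or_eq_of_le (h23.trans (h12.trans h01)) with h | h
    · exact h
    · exfalso
      apply hr0
      funext i
      fin_cases i <;> simp <;> omega
  obtain ⟨s, hs, hcov⟩ := main_comb (n := 4) (d := d)
    (g := [r 0 - r 1, r 1 - r 2, r 2 - r 3]) rfl (by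
      intro x hx
      simp only [List.mem_cons, List.not_mem_nil, or_false] at hx
      rcases hx with rfl | rfl | rfl <;> omega) (by
      intro c hc
      simp only [initial, Nat.add_one_sub_one, List.range_succ, List.range_zero, List.nil_append,
        List.map_cons, List.map_nil, List.cons_append, List.mem_cons,
        List.not_mem_nil, or_false] at hc
      rcases hc with rfl | rfl | rfl | rfl
      all_goals simp [dot, List.replicate]
      all_goals omega) sets T hT hdom
  have h1 : s.1 ∈ L.map (fun p => (List.ofFn p.1, p.2)) := by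
    rw [hL]
    exact List.mem_map_of_mem hs
  obtain ⟨p, hp, hps⟩ := List.mem_map.1 h1
  refine ⟨p, hp, fun m hm hpos => ?_⟩
  have h2 := hcov [m 0, m 1, m 2, m 3] rfl (by
    rw [Fin.sum_univ_four] at hm
    simp only [List.sum_cons, List.sum_nil]
    omega)
  rw [← hps] at h2
  have h3 : wdeg (List.ofFn p.1) [m 0, m 1, m 2, m 3] = ∑ i, p.1 i * m i := by
    rw [Fin.sum_univ_four]
    simp [wdeg, List.ofFn_succ]
    ring
  rw [h3] at h2
  apply h2
  have h4 : dot (lf 4 d 0 0 [m 0, m 1, m 2, m 3]) [r 0 - r 1, r 1 - r 2, r 2 - r 3] =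
      4 * pair r m := by
    have hm' : (m 0 : ℤ) + m 1 + m 2 + m 3 = d := by
      rw [Fin.sum_univ_four] at hm
      exact_mod_cast hm
    simp only [lf, dot, pair, Fin.sum_univ_four]
    push_cast
    rw [← hm']
    have hr3 : r 3 = -(r 0 + r 1 + r 2) := by linarith
    rw [hr3]
    ring
  rw [h4]
  cases strict
  · simp only [Bool.false_eq_true, if_false] at hpos ⊢
    linarith
  · simp only [if_true] at hpos ⊢
    linarith

/-! ### five variables -/

theorem covers5 {d : ℕ} {strict : Bool} (sets : List ((List ℕ × ℕ) × List (List ℕ))) (T : Tree)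
    (hT : check 5 d strict (sets.map Prod.snd) (initial 5) T = true)
    (hdom : sets.all (domCheck 5 d) = true) (L : List ((Fin 5 → ℕ) × ℕ))
    (hL : L.map (fun p => (List.ofFn p.1, p.2)) = sets.map Prod.fst) :
    Covers 5 d strict L := by
  intro r hanti hr hr0
  have h01 : r 1 ≤ r 0 := hanti (by decide)
  have h12 : r 2 ≤ r 1 := hanti (by decide)
  have h23 : r 3 ≤ r 2 := hanti (by decide)
  have h34 : r 4 ≤ r 3 := hanti (by decide)
  rw [Fin.sum_univ_five] at hr
  have h04 : r 4 < r 0 := by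
    rcases lt_or_eq_of_le (h34.trans (h23.trans (h12.trans h01))) with h | h
    · exact h
    · exfalso
      apply hr0
      funext i
      fin_cases i <;> simp <;> omega
  obtain ⟨s, hs, hcov⟩ := main_comb (n := 5) (d := d)
    (g := [r 0 - r 1, r 1 - r 2, r 2 - r 3, r 3 - r 4]) rfl (by
      intro x hx
      simp only [List.mem_cons, List.not_mem_nil, or_false] at hx
      rcases hx with rfl | rfl | rfl | rfl <;> omega) (by
      intro c hc
      simp only [initial, Nat.add_one_sub_one, List.range_succ, List.range_zero, List.nil_append,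
        List.map_cons, List.map_nil, List.cons_append, List.mem_cons,
        List.not_mem_nil, or_false] at hc
      rcases hc with rfl | rfl | rfl | rfl | rfl
      all_goals simp [dot, List.replicate]
      all_goals omega) sets T hT hdom
  have h1 : s.1 ∈ L.map (fun p => (List.ofFn p.1, p.2)) := by
    rw [hL]
    exact List.mem_map_of_mem hs
  obtain ⟨p, hp, hps⟩ := List.mem_map.1 h1
  refine ⟨p, hp, fun m hm hpos => ?_⟩
  have h2 := hcov [m 0, m 1, m 2, m 3, m 4] rfl (by
    rw [Fin.sum_univ_five] at hm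
    simp only [List.sum_cons, List.sum_nil]
    omega)
  rw [← hps] at h2
  have h3 : wdeg (List.ofFn p.1) [m 0, m 1, m 2, m 3, m 4] = ∑ i, p.1 i * m i := by
    rw [Fin.sum_univ_five]
    simp [wdeg, List.ofFn_succ]
    ring
  rw [h3] at h2
  apply h2
  have h4 : dot (lf 5 d 0 0 [m 0, m 1, m 2, m 3, m 4])
      [r 0 - r 1, r 1 - r 2, r 2 - r 3, r 3 - r 4] = 5 * pair r m := by
    have hm' : (m 0 : ℤ) + m 1 + m 2 + m 3 + m 4 = d := by
      rw [Fin.sum_univ_five] at hm
      exact_mod_cast hm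
    simp only [lf, dot, pair, Fin.sum_univ_five]
    push_cast
    rw [← hm']
    have hr4 : r 4 = -(r 0 + r 1 + r 2 + r 3) := by linarith
    rw [hr4]
    ring
  rw [h4]
  cases strict
  · simp only [Bool.false_eq_true, if_false] at hpos ⊢
    linarith
  · simp only [if_true] at hpos ⊢
    linarith

end Pool.Agent.Q76.GIT
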