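import Mathlib

/-!
# Rational solutions of linear systems near real solutions
-/

set_option autoImplicit false

namespace Pool.Agent.Q76.GIT

open Topology

/-- Rational vectors are dense. -/
theorem dense_rat {k : ℕ} : DenseRange fun (β : Fin k → ℚ) (j : Fin k) => (β j : ℝ) :=
  DenseRange.piMap fun _ => Rat.denseRange_cast

theorem exists_common_den {ι : Type*} [Fintype ι] (y : ι → ℚ) :
    ∃ N : ℕ, 0 < N ∧ ∃ z : ι → ℤ, ∀ i, (N : ℚ) * y i = z i := by
  classical
  refine ⟨∏ i, (y i).den, Finset.prod_pos fun i _ => (y i).den_pos,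
    fun i => (∏ j ∈ Finset.univ.erase i, (y j).den) * (y i).num, fun i => ?_⟩
  rw [← Finset.mul_prod_erase Finset.univ (fun j => (y j).den) (Finset.mem_univ i)]
  push_cast
  have h : ((y i).den : ℚ) * y i = (y i).num := by
    rw [mul_comm]; exact Rat.mul_den_eq_num _
  calc ((y i).den : ℚ) * (∏ j ∈ Finset.univ.erase i, ((y j).den : ℚ)) * y i
      = (∏ j ∈ Finset.univ.erase i, ((y j).den : ℚ)) * (((y i).den : ℚ) * y i) := by ring
    _ = _ := by rw [h]

/-- A finite system of homogeneous linear equations and strict inequalities with integer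
coefficients which holds for a real vector holds for an integer vector. -/
theorem exists_int_of_real {ι : Type*} [Fintype ι] (x : ι → ℝ) (S : Finset (ι → ℤ)) :
    ∃ y : ι → ℤ, ∀ c ∈ S, (0 < ∑ i, (c i : ℝ) * x i → 0 < ∑ i, c i * y i) ∧
      (∑ i, (c i : ℝ) * x i = 0 → ∑ i, c i * y i = 0) := by
  classical
  set W : Submodule ℚ ℝ := Submodule.span ℚ (Set.range x) with hW
  have hfin : FiniteDimensional ℚ W := FiniteDimensional.span_of_finite ℚ (Set.finite_range x)
  set b := Module.finBasis ℚ W with hb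
  set k := Module.finrank ℚ W with hk
  have hxW : ∀ i, x i ∈ W := fun i => Submodule.subset_span ⟨i, rfl⟩
  set q : ι → Fin k → ℚ := fun i j => b.repr ⟨x i, hxW i⟩ j with hq
  have hx : ∀ i, x i = ∑ j, (q i j : ℝ) * (b j : ℝ) := by
    intro i
    have h1 := b.sum_repr ⟨x i, hxW i⟩
    have h2 := congrArg (fun w : W => (w : ℝ)) h1
    simp only [Submodule.coe_sum, Submodule.coe_smul] at h2
    rw [← h2]
    refine Finset.sum_congr rfl fun j _ => ?_
    rw [hq]
    simp [Rat.smul_def]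
  -- the value at `c`
  have hval : ∀ c : ι → ℤ, ∑ i, (c i : ℝ) * x i =
      ∑ j, ((∑ i, (c i : ℚ) * q i j : ℚ) : ℝ) * (b j : ℝ) := by
    intro c
    simp only [hx, Finset.mul_sum]
    rw [Finset.sum_comm]
    refine Finset.sum_congr rfl fun j _ => ?_
    push_cast
    rw [Finset.sum_mul]
    refine Finset.sum_congr rfl fun i _ => ?_
    ring
  have hzero : ∀ c : ι → ℤ, ∑ i, (c i : ℝ) * x i = 0 → ∀ j, ∑ i, (c i : ℚ) * q i j = 0 := by
    intro c hc
    rw [hval] at hc
    have hli := b.linearIndependent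
    rw [Fintype.linearIndependent_iff] at hli
    apply hli (fun j => ∑ i, (c i : ℚ) * q i j)
    apply Subtype.ext
    simp only [Submodule.coe_sum, Submodule.coe_smul, Rat.smul_def, Submodule.coe_zero]
    exact hc
  -- choose rational values
  obtain ⟨β, hβ⟩ : ∃ β : Fin k → ℚ, ∀ c ∈ S, 0 < ∑ i, (c i : ℝ) * x i →
      0 < ∑ j, ((∑ i, (c i : ℚ) * q i j : ℚ) : ℝ) * (β j : ℝ) := by
    have hopen : IsOpen {β : Fin k → ℝ | ∀ c ∈ S, 0 < ∑ i, (c i : ℝ) * x i →
        0 < ∑ j, ((∑ i, (c i : ℚ) * q i j : ℚ) : ℝ) * β j} := by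
      have : {β : Fin k → ℝ | ∀ c ∈ S, 0 < ∑ i, (c i : ℝ) * x i →
        0 < ∑ j, ((∑ i, (c i : ℚ) * q i j : ℚ) : ℝ) * β j} =
        ⋂ c ∈ S, {β : Fin k → ℝ | 0 < ∑ i, (c i : ℝ) * x i →
        0 < ∑ j, ((∑ i, (c i : ℚ) * q i j : ℚ) : ℝ) * β j} := by
        ext β; simp
      rw [this]
      refine isOpen_biInter_finset fun c _ => ?_
      by_cases h : 0 < ∑ i, (c i : ℝ) * x i
      · simp only [h, forall_const]
        exact isOpen_lt continuous_const
          (continuous_finsetSum _ fun j _ => continuous_const.mul (continuous_apply j))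
      · simp [h]
    obtain ⟨β, hβ⟩ := dense_rat.exists_mem_open hopen
      ⟨fun j => (b j : ℝ), fun c _ hc => by rw [← hval]; exact hc⟩
    exact ⟨β, hβ⟩
  obtain ⟨N, hN, z, hz⟩ := exists_common_den (fun i => ∑ j, q i j * β j)
  have hcalc : ∀ c : ι → ℤ, ((∑ i, c i * z i : ℤ) : ℚ) =
      N * ∑ j, (∑ i, (c i : ℚ) * q i j) * β j := by
    intro c
    push_cast
    simp only [← hz, Finset.mul_sum, Finset.sum_mul]
    rw [Finset.sum_comm]
    refine Finset.sum_congr rfl fun j _ => Finset.sum_congr rfl fun i _ => ?_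
    ring
  refine ⟨z, fun c hc => ⟨fun h => ?_, fun h => ?_⟩⟩
  · have h1 := hβ c hc h
    have h2 : (0 : ℚ) < ∑ j, (∑ i, (c i : ℚ) * q i j) * β j := by
      have : ((∑ j, (∑ i, (c i : ℚ) * q i j) * β j : ℚ) : ℝ) =
          ∑ j, ((∑ i, (c i : ℚ) * q i j : ℚ) : ℝ) * (β j : ℝ) := by push_cast; rfl
      rw [← this] at h1
      exact_mod_cast h1
    have h3 : (0 : ℚ) < ((∑ i, c i * z i : ℤ) : ℚ) := by
      rw [hcalc]
      have : (0 : ℚ) < N := by exact_mod_cast hN
      positivity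
    exact_mod_cast h3
  · have h1 := hzero c h
    have h3 : ((∑ i, c i * z i : ℤ) : ℚ) = 0 := by
      rw [hcalc]
      simp [h1]
    exact_mod_cast h3

end Pool.Agent.Q76.GIT
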