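import Pool.Agent.Q76.GIT.KAK
import Pool.Agent.Q76.GIT.Rat

/-!
# The Hilbert-Mumford criterion for hypersurfaces
-/

set_option autoImplicit false

namespace Pool.Agent.Q76.GIT

open MvPolynomial Filter Topology

variable {n : ℕ}

/-- The `SL_n(ℂ)`-orbit of `f`; a form is represented by the family of its coefficients. -/
def orbit (f : MvPolynomial (Fin n) ℂ) : Set ((Fin n →₀ ℕ) → ℂ) :=
  Set.range fun g : Matrix.SpecialLinearGroup (Fin n) ℂ => fun m => coeff m (act g.1 f)

/-- `f` is semistable: `0` is not in the closure of the orbit. -/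
def Semistable (f : MvPolynomial (Fin n) ℂ) : Prop :=
  (0 : (Fin n →₀ ℕ) → ℂ) ∉ closure (orbit f)

/-- `f` is stable: it is semistable, its orbit is closed and its stabiliser is finite. -/
def Stable (f : MvPolynomial (Fin n) ℂ) : Prop :=
  Semistable f ∧ IsClosed (orbit f) ∧
    {g : Matrix.SpecialLinearGroup (Fin n) ℂ | act g.1 f = f}.Finite

/-- The pairing of a weight vector with an exponent. -/
def pair (r : Fin n → ℤ) (m : Fin n →₀ ℕ) : ℤ := ∑ i, r i * m i

section limit

variable {f : MvPolynomial (Fin n) ℂ} {d : ℕ}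

/-- the form with given coefficients -/
noncomputable def poly (n d : ℕ) (y : (Fin n →₀ ℕ) → ℂ) : MvPolynomial (Fin n) ℂ :=
  ∑ m ∈ exps n d, monomial m (y m)

theorem poly_homog (y : (Fin n →₀ ℕ) → ℂ) : (poly n d y).IsHomogeneous d := by
  apply IsHomogeneous.sum
  intro m hm
  apply isHomogeneous_monomial
  rw [mem_exps] at hm
  rw [Finsupp.degree_eq_sum]
  exact hm

theorem coeff_poly (y : (Fin n →₀ ℕ) → ℂ) (m : Fin n →₀ ℕ) :
    coeff m (poly n d y) = if m ∈ exps n d then y m else 0 := by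
  classical
  simp only [poly, coeff_sum, coeff_monomial]
  rw [Finset.sum_ite_eq' (exps n d) m]

theorem coeff_eq_zero_of_notMem (hf : f.IsHomogeneous d) {m : Fin n →₀ ℕ} (hm : m ∉ exps n d) :
    coeff m f = 0 := by
  by_contra h
  exact hm (mem_exps_of_coeff hf h)

theorem limit_coeff (hf : f.IsHomogeneous d) {ι : Type*} {l : Filter ι} [NeBot l]
    {G : ι → Matrix (Fin n) (Fin n) ℂ} {y : (Fin n →₀ ℕ) → ℂ}
    (h : Tendsto (fun i => fun m => coeff m (act (G i) f)) l (𝓝 y)) (m : Fin n →₀ ℕ) :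
    coeff m (poly n d y) = y m := by
  rw [coeff_poly]
  split_ifs with hm
  · rfl
  · have h1 := (tendsto_pi_nhds.1 h) m
    have h2 : ∀ i, coeff m (act (G i) f) = 0 := fun i =>
      coeff_eq_zero_of_notMem (act_homog hf _) hm
    simp only [h2] at h1
    exact tendsto_nhds_unique tendsto_const_nhds h1

theorem limit_data (hf : f.IsHomogeneous d)
    (𝒢 : Ultrafilter (Matrix.SpecialLinearGroup (Fin n) ℂ)) {y : (Fin n →₀ ℕ) → ℂ}
    (h : Tendsto (fun g : Matrix.SpecialLinearGroup (Fin n) ℂ => fun m => coeff m (act g.1 f)) 𝒢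
      (𝓝 y)) :
    ∃ (w : Matrix (Fin n) (Fin n) ℂ) (s : Matrix.SpecialLinearGroup (Fin n) ℂ → Fin n → ℝ),
      star w * w = 1 ∧ (∀ g, ∑ i, s g i = 0) ∧
      (∀ m ∈ (act w f).support, ∃ z : ℂ, (y = 0 → z = 0) ∧
        Tendsto (fun g => ((Real.exp (∑ i, s g i * m i) : ℝ) : ℂ)) 𝒢 (𝓝 z)) ∧
      ((∃ B, ∀ᶠ g in 𝒢, ‖s g‖ ≤ B) → ∃ g₀ : Matrix.SpecialLinearGroup (Fin n) ℂ,
        Tendsto (fun g : Matrix.SpecialLinearGroup (Fin n) ℂ => g.1) 𝒢 (𝓝 g₀.1)) := by
  choose v a u hv hu ha hprod hg using
    fun g : Matrix.SpecialLinearGroup (Fin n) ℂ => kak g.1 g.2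
  obtain ⟨w, hw, hvw⟩ := compact_unitary.ultrafilter_le_nhds (𝒢.map v)
    (by
      rw [le_principal_iff]
      change v ⁻¹' _ ∈ 𝒢
      exact Filter.Eventually.of_forall fun g => hv g)
  obtain ⟨w', hw', huw⟩ := compact_unitary.ultrafilter_le_nhds (𝒢.map u)
    (by
      rw [le_principal_iff]
      change u ⁻¹' _ ∈ 𝒢
      exact Filter.Eventually.of_forall fun g => hu g)
  have hvw' : Tendsto v 𝒢 (𝓝 w) := hvw
  have huw' : Tendsto u 𝒢 (𝓝 w') := huw
  have hustar : Tendsto (fun g => star (u g)) 𝒢 (𝓝 (star w')) :=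
    (continuous_star.tendsto w').comp huw'
  set Y := poly n d y with hY
  have hYc : ∀ m, coeff m Y = y m := limit_coeff hf h
  -- the forms `act (v a) f`
  have hF : ∀ g, act (v g * Matrix.diagonal (fun i => (a g i : ℂ))) f =
      act (star (u g)) (act g.1 f) := by
    intro g
    have h1 : act g.1 f = act (u g) (act (v g * Matrix.diagonal (fun i => (a g i : ℂ))) f) := by
      rw [← act_act, ← hg g]
    rw [h1, ← act_act]
    have h2 : u g * star (u g) = 1 := mul_eq_one_comm.1 (hu g)
    rw [h2, act_one]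
  have hlim : ∀ m, Tendsto (fun g => coeff m (act (star (u g)) (act g.1 f))) 𝒢
      (𝓝 (coeff m (act (star w') Y))) := by
    apply tendsto_act hustar (fun g => act_homog hf _) (poly_homog _)
    intro m
    rw [hYc]
    exact (tendsto_pi_nhds.1 h) m
  refine ⟨w, fun g i => Real.log (a g i), hw, fun g => ?_, fun m hm => ?_, ?_⟩
  · rw [← Real.log_prod fun i _ => (ha g i).ne', hprod, Real.log_one]
  · have hexp : ∀ g, Real.exp (∑ i, Real.log (a g i) * m i) = ∏ i, a g i ^ m i := by
      intro g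
      rw [Real.exp_sum]
      refine Finset.prod_congr rfl fun i _ => ?_
      rw [mul_comm, Real.exp_nat_mul, Real.exp_log (ha g i)]
    simp only [hexp]
    have hc : coeff m (act w f) ≠ 0 := mem_support_iff.1 hm
    have h1 : Tendsto (fun g => coeff m (act (v g) f)) 𝒢 (𝓝 (coeff m (act w f))) :=
      ((continuous_coeff_act f m).tendsto w).comp hvw'
    have h2 := hlim m
    have h3 : ∀ g, coeff m (act (star (u g)) (act g.1 f)) =
        ((∏ i, a g i ^ m i : ℝ) : ℂ) * coeff m (act (v g) f) := by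
      intro g
      rw [← hF, act_act, coeff_act_diagonal]
      push_cast
      rfl
    simp only [h3] at h2
    have h4 := h2.div h1 hc
    refine ⟨_, fun hy => ?_, h4.congr' ?_⟩
    · have hY0 : Y = 0 := by
        ext m
        rw [hYc, hy]
        rfl
      rw [hY0, act_zero, coeff_zero, zero_div]
    · have h5 := h1.eventually_ne hc
      filter_upwards [h5] with g hg5
      rw [Pi.div_apply, mul_div_assoc, div_self hg5, mul_one]
  · rintro ⟨B, hB⟩
    have hcomp : IsCompact (Metric.closedBall (0 : Fin n → ℝ) B) := isCompact_closedBall _ _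
    obtain ⟨s₀, -, hs⟩ := hcomp.ultrafilter_le_nhds (𝒢.map fun g i => Real.log (a g i))
      (by
        rw [le_principal_iff]
        change (fun g i => Real.log (a g i)) ⁻¹' _ ∈ 𝒢
        exact hB.mono fun g hg => mem_closedBall_zero_iff.2 hg)
    have hs' : Tendsto (fun g i => Real.log (a g i)) 𝒢 (𝓝 s₀) := hs
    have hdiag : Tendsto (fun g => Matrix.diagonal (fun i => (a g i : ℂ))) 𝒢
        (𝓝 (Matrix.diagonal fun i => (Real.exp (s₀ i) : ℂ))) := by
      have : Continuous fun s : Fin n → ℝ => Matrix.diagonal fun i => ((Real.exp (s i) : ℝ) : ℂ) := by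
        apply Continuous.matrix_diagonal
        apply continuous_pi
        intro i
        exact Complex.continuous_ofReal.comp (Real.continuous_exp.comp (continuous_apply i))
      have h1 := (this.tendsto s₀).comp hs'
      refine h1.congr fun g => ?_
      simp only [Function.comp]
      congr 1
      funext i
      rw [Real.exp_log (ha g i)]
    have hlimg : Tendsto (fun g : Matrix.SpecialLinearGroup (Fin n) ℂ => g.1) 𝒢
        (𝓝 (w * (Matrix.diagonal fun i => (Real.exp (s₀ i) : ℂ)) * w')) := by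
      refine ((hvw'.mul hdiag).mul huw').congr fun g => ?_
      exact (hg g).symm
    refine ⟨⟨_, ?_⟩, hlimg⟩
    have h1 := ((Continuous.matrix_det continuous_id).tendsto
      (w * (Matrix.diagonal fun i => (Real.exp (s₀ i) : ℂ)) * w')).comp hlimg
    have h2 : ((fun M : Matrix (Fin n) (Fin n) ℂ => (id M).det) ∘
        fun g : Matrix.SpecialLinearGroup (Fin n) ℂ => g.1) = fun _ => 1 := by
      funext g; exact g.2
    rw [h2] at h1
    exact (tendsto_nhds_unique tendsto_const_nhds h1).symm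

end limit

end Pool.Agent.Q76.GIT
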