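import Pool.Agent.Q76.GIT.HM
import Pool.Agent.Q76.GIT.Bdd

/-!
# The Hilbert-Mumford criterion for hypersurfaces: the theorems
-/

set_option autoImplicit false

namespace Pool.Agent.Q76.GIT

open MvPolynomial Filter Topology

variable {n : ℕ}

/-! ### scaling to determinant one -/

theorem exists_SL (g : Matrix (Fin n) (Fin n) ℂ) (hg : g.det ≠ 0)
    (f : MvPolynomial (Fin n) ℂ) :
    ∃ g' : Matrix.SpecialLinearGroup (Fin n) ℂ, (act g'.1 f).support = (act g f).support := by
  rcases Nat.eq_zero_or_pos n with hn | hn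
  · subst hn
    refine ⟨⟨g, ?_⟩, rfl⟩
    rw [Matrix.det_isEmpty]
  · obtain ⟨c, hc⟩ := IsAlgClosed.exists_pow_nat_eq g.det hn
    have hc0 : c ≠ 0 := by
      rintro rfl
      rw [zero_pow hn.ne'] at hc
      exact hg hc.symm
    refine ⟨⟨g * Matrix.diagonal (fun _ => c⁻¹), ?_⟩, ?_⟩
    · rw [Matrix.det_mul, Matrix.det_diagonal, Finset.prod_const, Finset.card_univ,
        Fintype.card_fin, inv_pow, hc, mul_inv_cancel₀ hg]
    · ext m
      rw [mem_support_iff, mem_support_iff, act_act, coeff_act_diagonal]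
      rw [mul_ne_zero_iff, and_iff_right]
      exact Finset.prod_ne_zero_iff.2 fun i _ => pow_ne_zero _ (inv_ne_zero hc0)

theorem act_ne_zero {g : Matrix (Fin n) (Fin n) ℂ} (hg : g.det ≠ 0)
    {f : MvPolynomial (Fin n) ℂ} (hf : f ≠ 0) : act g f ≠ 0 := by
  intro h
  apply hf
  have h1 : g * g⁻¹ = 1 := Matrix.mul_nonsing_inv _ (isUnit_iff_ne_zero.2 hg)
  rw [← act_one f, ← h1, act_act, h, act_zero]

/-! ### one-parameter subgroups -/

theorem exp_pair (r : Fin n → ℤ) (k : ℝ) (m : Fin n →₀ ℕ) :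
    ∏ i, (((Real.exp (-(k * r i)) : ℝ) : ℂ)) ^ m i = ((Real.exp (-(k * pair r m)) : ℝ) : ℂ) := by
  have h : ∏ i, (Real.exp (-(k * r i))) ^ m i = Real.exp (-(k * pair r m)) := by
    rw [pair]
    push_cast
    rw [Finset.mul_sum, ← Finset.sum_neg_distrib, Real.exp_sum]
    refine Finset.prod_congr rfl fun i _ => ?_
    rw [← Real.exp_nat_mul]
    congr 1
    ring
  rw [← h]
  push_cast
  rfl

/-- the one-parameter subgroup, with parameter `t = exp (-k)` -/
noncomputable def psub (r : Fin n → ℤ) (k : ℝ) : Matrix (Fin n) (Fin n) ℂ :=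
  Matrix.diagonal fun i => ((Real.exp (-(k * r i)) : ℝ) : ℂ)

theorem det_psub {r : Fin n → ℤ} (hr : ∑ i, r i = 0) (k : ℝ) : (psub r k).det = 1 := by
  rw [psub, Matrix.det_diagonal]
  have h : ∏ i, (Real.exp (-(k * r i))) = 1 := by
    rw [← Real.exp_sum, Finset.sum_neg_distrib, ← Finset.mul_sum]
    have : (∑ i, (r i : ℝ)) = 0 := by exact_mod_cast hr
    rw [this]
    simp
  rw [← Complex.ofReal_one, ← h]
  push_cast
  rfl

theorem coeff_psub (r : Fin n → ℤ) (k : ℝ) (f : MvPolynomial (Fin n) ℂ) (m : Fin n →₀ ℕ) :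
    coeff m (act (psub r k) f) = ((Real.exp (-(k * pair r m)) : ℝ) : ℂ) * coeff m f := by
  rw [psub, coeff_act_diagonal, exp_pair]

theorem tendsto_psub {r : Fin n → ℤ} {F F₀ : MvPolynomial (Fin n) ℂ}
    (h : ∀ m, (0 < pair r m ∧ coeff m F₀ = 0) ∨ (pair r m = 0 ∧ coeff m F₀ = coeff m F) ∨
      (coeff m F = 0 ∧ coeff m F₀ = 0)) :
    Tendsto (fun k : ℝ => fun m => coeff m (act (psub r k) F)) atTop
      (𝓝 fun m => coeff m F₀) := by
  rw [tendsto_pi_nhds]
  intro m
  simp only [coeff_psub]
  rcases h m with ⟨h1, h2⟩ | ⟨h1, h2⟩ | ⟨h1, h2⟩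
  · rw [h2]
    have h3 : Tendsto (fun k : ℝ => Real.exp (-(k * (pair r m : ℝ)))) atTop (𝓝 0) := by
      apply Real.tendsto_exp_neg_atTop_nhds_zero.comp
      apply tendsto_id.atTop_mul_const
      exact_mod_cast h1
    have h4 : Tendsto (fun k : ℝ => ((Real.exp (-(k * (pair r m : ℝ))) : ℝ) : ℂ)) atTop (𝓝 0) := by
      have := (Complex.continuous_ofReal.tendsto 0).comp h3
      rw [Complex.ofReal_zero] at this
      exact this
    simpa using h4.mul_const (coeff m F)
  · rw [h1, h2]
    simp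
  · rw [h1, h2]
    simp

/-- the orbit contains the transforms by the one-parameter subgroups -/
theorem psub_mem_orbit {r : Fin n → ℤ} (hr : ∑ i, r i = 0)
    (g : Matrix.SpecialLinearGroup (Fin n) ℂ) (f : MvPolynomial (Fin n) ℂ) (k : ℝ) :
    (fun m => coeff m (act (psub r k) (act g.1 f))) ∈ orbit f := by
  refine ⟨⟨g.1 * psub r k, ?_⟩, ?_⟩
  · rw [Matrix.det_mul, det_psub hr, g.2, mul_one]
  · funext m
    simp only [act_act]

theorem exists_ultrafilter {f : MvPolynomial (Fin n) ℂ} {y : (Fin n →₀ ℕ) → ℂ}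
    (h : y ∈ closure (orbit f)) :
    ∃ 𝒢 : Ultrafilter (Matrix.SpecialLinearGroup (Fin n) ℂ),
      Tendsto (fun g : Matrix.SpecialLinearGroup (Fin n) ℂ => fun m => coeff m (act g.1 f)) 𝒢
        (𝓝 y) := by
  set F := fun g : Matrix.SpecialLinearGroup (Fin n) ℂ => fun m => coeff m (act g.1 f) with hF
  have h1 : (comap F (𝓝 y)).NeBot := by
    rw [comap_neBot_iff]
    intro t ht
    obtain ⟨z, hz, g, rfl⟩ := mem_closure_iff_nhds.1 h t ht
    exact ⟨g, hz⟩
  exact ⟨Ultrafilter.of (comap F (𝓝 y)), tendsto_comap.mono_left (Ultrafilter.of_le _)⟩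

/-- the finite set of the exponents of a form, as integer vectors -/
theorem exists_int_of_support (F : MvPolynomial (Fin n) ℂ) (x : Fin n → ℝ) :
    ∃ y : Fin n → ℤ, (∑ i, x i = 0 → ∑ i, y i = 0) ∧
      (∀ m ∈ F.support, (0 < ∑ i, x i * m i → 0 < pair y m) ∧
        (∑ i, x i * m i = 0 → pair y m = 0)) ∧ (∀ i, x i ≠ 0 → y i ≠ 0) := by
  classical
  obtain ⟨y, hy⟩ := exists_int_of_real x
    (insert (fun _ => 1) (F.support.image (fun m i => (m i : ℤ)) ∪
      (Finset.univ.image (fun j => Pi.single j (1 : ℤ)) ∪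
        Finset.univ.image (fun j => Pi.single j (-1 : ℤ)))))
  refine ⟨y, fun h => ?_, fun m hm => ?_, fun i hi => ?_⟩
  · have := (hy (fun _ => 1) (Finset.mem_insert_self _ _)).2 (by simpa using h)
    simpa using this
  · have := hy (fun i => (m i : ℤ)) (by
      apply Finset.mem_insert_of_mem
      apply Finset.mem_union_left
      exact Finset.mem_image_of_mem _ hm)
    have e1 : ∑ i, (((m i : ℤ)) : ℝ) * x i = ∑ i, x i * m i :=
      Finset.sum_congr rfl fun i _ => by push_cast; ring
    have e2 : ∑ i, ((m i : ℤ)) * y i = pair y m :=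
      Finset.sum_congr rfl fun i _ => by ring
    rw [e1, e2] at this
    exact this
  · rcases lt_or_gt_of_ne hi with h | h
    · have := (hy (Pi.single i (-1)) (by
        apply Finset.mem_insert_of_mem
        apply Finset.mem_union_right
        apply Finset.mem_union_right
        exact Finset.mem_image_of_mem _ (Finset.mem_univ i))).1 (by
          rw [Finset.sum_eq_single i]
          · simpa using h
          · intro j _ hj; simp [Pi.single_eq_of_ne hj]
          · simp)
      rw [Finset.sum_eq_single i] at this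
      · simp at this; omega
      · intro j _ hj; simp [Pi.single_eq_of_ne hj]
      · simp
    · have := (hy (Pi.single i 1) (by
        apply Finset.mem_insert_of_mem
        apply Finset.mem_union_right
        apply Finset.mem_union_left
        exact Finset.mem_image_of_mem _ (Finset.mem_univ i))).1 (by
          rw [Finset.sum_eq_single i]
          · simpa using h
          · intro j _ hj; simp [Pi.single_eq_of_ne hj]
          · simp)
      rw [Finset.sum_eq_single i] at this
      · simp at this; omega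
      · intro j _ hj; simp [Pi.single_eq_of_ne hj]
      · simp

/-! ### semistability -/

/-- **Hilbert-Mumford criterion, semistability.** -/
theorem not_semistable_iff {f : MvPolynomial (Fin n) ℂ} {d : ℕ} (hf : f.IsHomogeneous d) :
    ¬ Semistable f ↔ ∃ g : Matrix (Fin n) (Fin n) ℂ, g.det ≠ 0 ∧
      ∃ r : Fin n → ℤ, ∑ i, r i = 0 ∧ ∀ m ∈ (act g f).support, 0 < pair r m := by
  rw [Semistable, not_not]
  constructor
  · intro h
    obtain ⟨𝒢, h𝒢⟩ := exists_ultrafilter h
    obtain ⟨w, s, hw, hs, hz, -⟩ := limit_data hf 𝒢 h𝒢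
    have hwdet : w.det ≠ 0 := by
      intro h0
      have := congrArg Matrix.det hw
      rw [Matrix.det_mul, h0, mul_zero, Matrix.det_one] at this
      exact zero_ne_one this
    have h1 : ∀ m ∈ (act w f).support, ∀ᶠ g in (𝒢 : Filter _), ∑ i, s g i * m i < 0 := by
      intro m hm
      obtain ⟨z, hz0, hz1⟩ := hz m hm
      rw [hz0 rfl] at hz1
      have h2 := (continuous_norm.tendsto (0 : ℂ)).comp hz1
      rw [norm_zero] at h2
      have h3 := h2.eventually (gt_mem_nhds (zero_lt_one (α := ℝ)))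
      filter_upwards [h3] with g hg
      simp only [Function.comp, Complex.norm_real, Real.norm_eq_abs, Real.abs_exp] at hg
      exact Real.exp_lt_one_iff.1 hg
    have h2 : ∀ᶠ g in (𝒢 : Filter _), ∀ m ∈ (act w f).support, ∑ i, s g i * m i < 0 :=
      (Finset.eventually_all _).2 h1
    obtain ⟨g, hg⟩ := h2.exists
    obtain ⟨y, hy1, hy2, -⟩ := exists_int_of_support (act w f) (fun i => -s g i)
    refine ⟨w, hwdet, y, hy1 (by rw [Finset.sum_neg_distrib, hs, neg_zero]), fun m hm =>
      (hy2 m hm).1 ?_⟩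
    have := hg m hm
    have e : ∑ i, -s g i * m i = -∑ i, s g i * m i := by
      rw [← Finset.sum_neg_distrib]
      exact Finset.sum_congr rfl fun i _ => by ring
    rw [e]
    linarith
  · rintro ⟨g, hg, r, hr, h⟩
    obtain ⟨g', hg'⟩ := exists_SL g hg f
    rw [← hg'] at h
    have h1 : Tendsto (fun k : ℝ => fun m => coeff m (act (psub r k) (act g'.1 f))) atTop
        (𝓝 fun m => coeff m (0 : MvPolynomial (Fin n) ℂ)) := by
      apply tendsto_psub
      intro m
      by_cases hm : m ∈ (act g'.1 f).support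
      · exact Or.inl ⟨h m hm, coeff_zero m⟩
      · exact Or.inr (Or.inr ⟨notMem_support_iff.1 hm, coeff_zero m⟩)
    have h2 := mem_closure_of_tendsto h1
      (Filter.Eventually.of_forall fun k => psub_mem_orbit hr g' f k)
    exact h2

end Pool.Agent.Q76.GIT
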