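import Pool.Agent.Q76.GIT.HM2

/-!
# The Hilbert-Mumford criterion for hypersurfaces: stability
-/

set_option autoImplicit false

namespace Pool.Agent.Q76.GIT

open MvPolynomial Filter Topology

variable {n : ℕ}

theorem stable_aux_left {f : MvPolynomial (Fin n) ℂ} (hs : Stable f)
    (g : Matrix.SpecialLinearGroup (Fin n) ℂ) (r : Fin n → ℤ) (hr0 : r ≠ 0)
    (hr : ∑ i, r i = 0) (h : ∀ m ∈ (act g.1 f).support, 0 ≤ pair r m) : False := by
  classical
  obtain ⟨-, hclosed, hfin⟩ := hs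
  set F := act g.1 f with hF
  set F₀ : MvPolynomial (Fin n) ℂ :=
    ∑ m ∈ F.support with pair r m = 0, monomial m (coeff m F) with hF₀
  have hc : ∀ m, coeff m F₀ = if pair r m = 0 then coeff m F else 0 := by
    intro m
    rw [hF₀, coeff_sum]
    simp only [coeff_monomial]
    rw [Finset.sum_ite_eq' _ m]
    simp only [Finset.mem_filter, mem_support_iff]
    by_cases h1 : pair r m = 0
    · by_cases h2 : coeff m F = 0
      · simp [h1, h2]
      · simp [h1, h2]
    · simp [h1]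
  have h1 : Tendsto (fun k : ℝ => fun m => coeff m (act (psub r k) F)) atTop
      (𝓝 fun m => coeff m F₀) := by
    apply tendsto_psub
    intro m
    rw [hc]
    by_cases hm : m ∈ F.support
    · rcases (h m hm).lt_or_eq with h2 | h2
      · exact Or.inl ⟨h2, by rw [if_neg h2.ne']⟩
      · exact Or.inr (Or.inl ⟨h2.symm, by rw [if_pos h2.symm]⟩)
    · refine Or.inr (Or.inr ⟨notMem_support_iff.1 hm, ?_⟩)
      rw [notMem_support_iff.1 hm]
      simp
  have h2 : (fun m => coeff m F₀) ∈ orbit f := by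
    rw [← hclosed.closure_eq]
    exact mem_closure_of_tendsto h1
      (Filter.Eventually.of_forall fun k => psub_mem_orbit hr g f k)
  obtain ⟨g', hg'⟩ := h2
  have hF₀' : act g'.1 f = F₀ := by
    ext m
    exact congrFun hg' m
  have hfix : ∀ k : ℝ, act (psub r k) F₀ = F₀ := by
    intro k
    ext m
    rw [coeff_psub, hc]
    split_ifs with h3
    · rw [h3]; simp
    · rw [mul_zero]
  -- infinitely many elements of the stabiliser
  obtain ⟨i, hi⟩ : ∃ i, r i ≠ 0 := by
    by_contra h3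
    push Not at h3
    exact hr0 (funext h3)
  let D : ℕ → Matrix.SpecialLinearGroup (Fin n) ℂ := fun k => ⟨psub r k, det_psub hr k⟩
  let e : ℕ → Matrix.SpecialLinearGroup (Fin n) ℂ := fun k => g' * D k * g'⁻¹
  have hinj : Function.Injective e := by
    intro k k' hkk
    have h3 : D k = D k' := mul_left_cancel (mul_right_cancel hkk)
    have h4 : psub r k = psub r k' := congrArg Subtype.val h3
    have h5 := congrFun (congrFun h4 i) i
    rw [psub, psub, Matrix.diagonal_apply_eq, Matrix.diagonal_apply_eq] at h5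
    have h6 : Real.exp (-((k : ℝ) * r i)) = Real.exp (-((k' : ℝ) * r i)) := by
      exact_mod_cast h5
    have h7 := Real.exp_injective h6
    have h8 : (r i : ℝ) ≠ 0 := by exact_mod_cast hi
    have h9 : (k : ℝ) = k' := by
      have := neg_injective h7
      exact mul_right_cancel₀ h8 this
    exact_mod_cast h9
  have hmem : ∀ k, e k ∈ {g : Matrix.SpecialLinearGroup (Fin n) ℂ | act g.1 f = f} := by
    intro k
    change act (g' * D k * g'⁻¹ : Matrix.SpecialLinearGroup (Fin n) ℂ).1 f = f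
    have h3 : (g' * D k * g'⁻¹ : Matrix.SpecialLinearGroup (Fin n) ℂ).1 =
      g'.1 * psub r k * (g'⁻¹).1 := rfl
    rw [h3, act_act, act_act, hF₀', hfix, ← hF₀', ← act_act]
    have h4 : g'.1 * (g'⁻¹).1 = 1 := by
      have : (g' * g'⁻¹ : Matrix.SpecialLinearGroup (Fin n) ℂ).1 = 1 := by
        rw [mul_inv_cancel]; rfl
      exact this
    rw [h4, act_one]
  exact Set.infinite_of_injective_forall_mem hinj hmem hfin

/-- the crucial boundedness -/
theorem bounded_aux {f : MvPolynomial (Fin n) ℂ} {w : Matrix (Fin n) (Fin n) ℂ}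
    {s : Matrix.SpecialLinearGroup (Fin n) ℂ → Fin n → ℝ}
    {𝒢 : Ultrafilter (Matrix.SpecialLinearGroup (Fin n) ℂ)}
    (hs : ∀ g, ∑ i, s g i = 0)
    (hz : ∀ m ∈ (act w f).support, ∃ z : ℂ,
        Tendsto (fun g => ((Real.exp (∑ i, s g i * m i) : ℝ) : ℂ)) 𝒢 (𝓝 z))
    (h : ∀ r : Fin n → ℤ, r ≠ 0 → ∑ i, r i = 0 →
      ∃ m ∈ (act w f).support, pair r m < 0) :
    ∃ B, ∀ᶠ g in (𝒢 : Filter _), ‖s g‖ ≤ B := by
  by_contra hB
  push Not at hB
  have hB' : ∀ B : ℝ, ∀ᶠ g in (𝒢 : Filter _), B < ‖s g‖ := hB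
  have hinf : Tendsto (fun g => ‖s g‖) 𝒢 atTop := by
    rw [tendsto_atTop]
    exact fun B => (hB' B).mono fun g hg => hg.le
  set θ : Matrix.SpecialLinearGroup (Fin n) ℂ → Fin n → ℝ := fun g => ‖s g‖⁻¹ • s g with hθ
  have hθ1 : ∀ᶠ g in (𝒢 : Filter _), ‖θ g‖ = 1 := by
    filter_upwards [hB' 0] with g hg
    rw [hθ]
    simp only [norm_smul, norm_inv, norm_norm]
    exact inv_mul_cancel₀ hg.ne'
  obtain ⟨θ₀, -, hlim⟩ := (isCompact_closedBall (0 : Fin n → ℝ) 1).ultrafilter_le_nhds (𝒢.map θ)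
    (by
      rw [le_principal_iff]
      change θ ⁻¹' _ ∈ 𝒢
      exact hθ1.mono fun g hg => mem_closedBall_zero_iff.2 hg.le)
  have hlim' : Tendsto θ 𝒢 (𝓝 θ₀) := hlim
  have hnorm : ‖θ₀‖ = 1 := by
    have h1 := (continuous_norm.tendsto θ₀).comp hlim'
    exact tendsto_nhds_unique h1 (tendsto_const_nhds.congr' (hθ1.mono fun g hg => hg.symm))
  have hsum : ∑ i, θ₀ i = 0 := by
    have hcont : Continuous fun x : Fin n → ℝ => ∑ i, x i :=
      continuous_finsetSum _ fun i _ => continuous_apply i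
    have h1 := (hcont.tendsto θ₀).comp hlim'
    refine tendsto_nhds_unique h1 (tendsto_const_nhds.congr' (Eventually.of_forall fun g => ?_))
    simp only [Function.comp, hθ, Pi.smul_apply, smul_eq_mul]
    rw [← Finset.mul_sum, hs, mul_zero]
  have hle : ∀ m ∈ (act w f).support, ∑ i, θ₀ i * m i ≤ 0 := by
    intro m hm
    obtain ⟨z, hz⟩ := hz m hm
    have h1 := (continuous_norm.tendsto z).comp hz
    have h2 : ∀ᶠ g in (𝒢 : Filter _), ∑ i, s g i * m i ≤ Real.log (‖z‖ + 1) := by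
      have h3 := h1.eventually (gt_mem_nhds (lt_add_one ‖z‖))
      filter_upwards [h3] with g hg
      simp only [Function.comp, Complex.norm_real, Real.norm_eq_abs, Real.abs_exp] at hg
      rw [Real.le_log_iff_exp_le (by positivity)]
      exact hg.le
    have hcont : Continuous fun x : Fin n → ℝ => ∑ i, x i * (m i : ℝ) :=
      continuous_finsetSum _ fun i _ => (continuous_apply i).mul continuous_const
    have h4 := (hcont.tendsto θ₀).comp hlim'
    have h5 : Tendsto (fun g => ‖s g‖⁻¹ * Real.log (‖z‖ + 1)) 𝒢 (𝓝 0) := by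
      have := (tendsto_inv_atTop_zero.comp hinf).mul_const (Real.log (‖z‖ + 1))
      rw [zero_mul] at this
      exact this
    refine le_of_tendsto_of_tendsto h4 h5 ?_
    filter_upwards [h2] with g hg
    simp only [Function.comp, hθ, Pi.smul_apply, smul_eq_mul]
    have : ∑ i, ‖s g‖⁻¹ * s g i * (m i : ℝ) = ‖s g‖⁻¹ * ∑ i, s g i * m i := by
      rw [Finset.mul_sum]
      exact Finset.sum_congr rfl fun i _ => by ring
    rw [this]
    exact mul_le_mul_of_nonneg_left hg (by positivity)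
  obtain ⟨y, hy1, hy2, hy3⟩ := exists_int_of_support (act w f) (fun i => -θ₀ i)
  have hy0 : y ≠ 0 := by
    obtain ⟨i, hi⟩ : ∃ i, θ₀ i ≠ 0 := by
      by_contra h3
      push Not at h3
      have : θ₀ = 0 := funext h3
      rw [this, norm_zero] at hnorm
      exact zero_ne_one hnorm
    intro h0
    exact hy3 i (neg_ne_zero.2 hi) (by rw [h0]; rfl)
  obtain ⟨m, hm, hlt⟩ := h y hy0 (hy1 (by rw [Finset.sum_neg_distrib, hsum, neg_zero]))
  have e : ∑ i, -θ₀ i * m i = -∑ i, θ₀ i * m i := by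
    rw [← Finset.sum_neg_distrib]
    exact Finset.sum_congr rfl fun i _ => by ring
  have h1 := hle m hm
  rcases h1.lt_or_eq with h2 | h2
  · have := (hy2 m hm).1 (by rw [e]; linarith)
    omega
  · have := (hy2 m hm).2 (by rw [e]; linarith)
    omega

/-- convergence of the group elements -/
theorem converge_aux {f : MvPolynomial (Fin n) ℂ} {d : ℕ} (hf : f.IsHomogeneous d)
    (h : ∀ g : Matrix (Fin n) (Fin n) ℂ, g.det ≠ 0 → ∀ r : Fin n → ℤ, r ≠ 0 → ∑ i, r i = 0 →
      ∃ m ∈ (act g f).support, pair r m < 0)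
    {𝒢 : Ultrafilter (Matrix.SpecialLinearGroup (Fin n) ℂ)} {y : (Fin n →₀ ℕ) → ℂ}
    (hlim : Tendsto (fun g : Matrix.SpecialLinearGroup (Fin n) ℂ => fun m => coeff m (act g.1 f))
      𝒢 (𝓝 y)) :
    ∃ g₀ : Matrix.SpecialLinearGroup (Fin n) ℂ,
      Tendsto (fun g : Matrix.SpecialLinearGroup (Fin n) ℂ => g.1) 𝒢 (𝓝 g₀.1) := by
  obtain ⟨w, s, hw, hs, hz, hconv⟩ := limit_data hf 𝒢 hlim
  have hwdet : w.det ≠ 0 := by
    intro h0
    have := congrArg Matrix.det hw
    rw [Matrix.det_mul, h0, mul_zero, Matrix.det_one] at this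
    exact zero_ne_one this
  exact hconv (bounded_aux hs (fun m hm => (hz m hm).imp fun z hz => hz.2) (h w hwdet))

/-- coefficients of `act g f` are polynomial in the entries of `g` -/
theorem exists_poly (f : MvPolynomial (Fin n) ℂ) : ∀ m, ∃ P : MvPolynomial (Fin n × Fin n) ℂ,
    ∀ g : Matrix (Fin n) (Fin n) ℂ, eval (fun ij => g ij.1 ij.2) P = coeff m (act g f) := by
  induction f using MvPolynomial.induction_on with
  | C a =>
    intro m
    refine ⟨C (coeff m (C a : MvPolynomial (Fin n) ℂ)), fun g => ?_⟩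
    rw [act_C, eval_C]
  | add p q hp hq =>
    intro m
    obtain ⟨P, hP⟩ := hp m
    obtain ⟨Q, hQ⟩ := hq m
    refine ⟨P + Q, fun g => ?_⟩
    rw [act_add, coeff_add, eval_add, hP, hQ]
  | mul_X p i hp =>
    intro m
    choose P hP using hp
    refine ⟨∑ x ∈ Finset.HasAntidiagonal.antidiagonal m, P x.1 *
      ∑ j, X (i, j) * C (coeff x.2 (X j : MvPolynomial (Fin n) ℂ)), fun g => ?_⟩
    rw [act_mul', coeff_mul, act_X]
    simp only [map_sum, map_mul, eval_X, eval_C, hP, coeff_sum, coeff_C_mul]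

theorem stabiliser_finite {f : MvPolynomial (Fin n) ℂ} {d : ℕ} (hf : f.IsHomogeneous d)
    (h : ∀ g : Matrix (Fin n) (Fin n) ℂ, g.det ≠ 0 → ∀ r : Fin n → ℤ, r ≠ 0 → ∑ i, r i = 0 →
      ∃ m ∈ (act g f).support, pair r m < 0) :
    {g : Matrix.SpecialLinearGroup (Fin n) ℂ | act g.1 f = f}.Finite := by
  -- boundedness
  obtain ⟨B, hB⟩ : ∃ B : ℝ, ∀ g : Matrix.SpecialLinearGroup (Fin n) ℂ, act g.1 f = f →
      ∀ i j, ‖g.1 i j‖ ≤ B := by
    by_contra hB
    push Not at hB
    choose G hG i j hij using fun k : ℕ => hB k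
    set 𝒢 : Ultrafilter (Matrix.SpecialLinearGroup (Fin n) ℂ) :=
      (Filter.hyperfilter ℕ).map G with h𝒢
    have hconst : Tendsto (fun g : Matrix.SpecialLinearGroup (Fin n) ℂ =>
        fun m => coeff m (act g.1 f)) 𝒢 (𝓝 fun m => coeff m f) := by
      rw [h𝒢, Ultrafilter.coe_map, tendsto_map'_iff]
      refine tendsto_const_nhds.congr fun k => ?_
      simp only [Function.comp, hG]
    obtain ⟨g₀, hg₀⟩ := converge_aux hf h hconst
    rw [h𝒢, Ultrafilter.coe_map, tendsto_map'_iff] at hg₀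
    have h1 : ∀ a b, Tendsto (fun k => ‖(G k).1 a b‖) (Filter.hyperfilter ℕ : Filter ℕ)
        (𝓝 ‖g₀.1 a b‖) := by
      intro a b
      have hcont : Continuous fun M : Matrix (Fin n) (Fin n) ℂ => ‖M a b‖ :=
        (continuous_id.matrix_elem a b).norm
      exact (hcont.tendsto _).comp hg₀
    have h2 : ∀ᶠ k in (Filter.hyperfilter ℕ : Filter ℕ), ∀ ab : Fin n × Fin n,
        ‖(G k).1 ab.1 ab.2‖ < ‖g₀.1 ab.1 ab.2‖ + 1 := by
      rw [eventually_all]
      intro ab
      exact (h1 ab.1 ab.2).eventually (gt_mem_nhds (lt_add_one _))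
    have h3 : ∀ᶠ k : ℕ in (Filter.hyperfilter ℕ : Filter ℕ),
        (∑ ab : Fin n × Fin n, (‖g₀.1 ab.1 ab.2‖ + 1)) ≤ (k : ℝ) := by
      have h4 : ∀ᶠ k : ℕ in atTop, (∑ ab : Fin n × Fin n, (‖g₀.1 ab.1 ab.2‖ + 1)) ≤ (k : ℝ) :=
        tendsto_natCast_atTop_atTop.eventually (eventually_ge_atTop _)
      rw [← Nat.cofinite_eq_atTop] at h4
      exact h4.filter_mono Filter.hyperfilter_le_cofinite
    obtain ⟨k, hk2, hk3⟩ := (h2.and h3).exists
    have h4 := hij k
    have h5 := hk2 (i k, j k)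
    have h6 : ‖g₀.1 (i k) (j k)‖ + 1 ≤ ∑ ab : Fin n × Fin n, (‖g₀.1 ab.1 ab.2‖ + 1) :=
      Finset.single_le_sum (f := fun ab : Fin n × Fin n => ‖g₀.1 ab.1 ab.2‖ + 1)
        (fun _ _ => by positivity) (Finset.mem_univ (i k, j k))
    simp only at h5
    linarith
  -- the equations
  choose P hP using exists_poly f
  set S : Set (MvPolynomial (Fin n × Fin n) ℂ) :=
    insert ((Matrix.mvPolynomialX (Fin n) (Fin n) ℂ).det - 1)
      (Set.range fun m => P m - C (coeff m f)) with hS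
  have hdet : ∀ x : Fin n × Fin n → ℂ, eval x (Matrix.mvPolynomialX (Fin n) (Fin n) ℂ).det =
      (Matrix.of fun i j => x (i, j)).det := by
    intro x
    rw [RingHom.map_det]
    congr 1
    ext i j
    simp
  have hsol : ∀ x : Fin n × Fin n → ℂ, (∀ p ∈ S, eval x p = 0) ↔
      (Matrix.of fun i j => x (i, j)).det = 1 ∧ act (Matrix.of fun i j => x (i, j)) f = f := by
    intro x
    have hx : ∀ m, eval x (P m) = coeff m (act (Matrix.of fun i j => x (i, j)) f) := by
      intro m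
      rw [← hP]
      rfl
    constructor
    · intro hx'
      constructor
      · have := hx' _ (Set.mem_insert _ _)
        rw [map_sub, map_one, hdet, sub_eq_zero] at this
        exact this
      · ext m
        have := hx' _ (Set.mem_insert_of_mem _ ⟨m, rfl⟩)
        simp only [map_sub, eval_C, hx] at this
        exact sub_eq_zero.1 this
    · rintro ⟨h1, h2⟩ p hp
      rcases hp with rfl | ⟨m, rfl⟩
      · rw [map_sub, map_one, hdet, h1, sub_self]
      · simp only [map_sub, eval_C, hx, h2, sub_self]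
  have hfin := finite_of_bounded S B (fun x hx ij => by
    obtain ⟨h1, h2⟩ := (hsol x).1 hx
    exact hB ⟨_, h1⟩ h2 ij.1 ij.2)
  refine Set.Finite.of_finite_image (f := fun g ij => g.1 ij.1 ij.2)
    (hfin.subset ?_) ?_
  · rintro _ ⟨g, hg, rfl⟩
    refine (hsol _).2 ⟨?_, ?_⟩
    · exact g.2
    · exact hg
  · intro g _ g' _ hgg
    apply Subtype.ext
    ext i j
    exact congrFun hgg (i, j)

/-- **Hilbert-Mumford criterion, stability.** -/
theorem not_stable_iff {f : MvPolynomial (Fin n) ℂ} {d : ℕ} (hf : f.IsHomogeneous d)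
    (hf0 : f ≠ 0) :
    ¬ Stable f ↔ ∃ g : Matrix (Fin n) (Fin n) ℂ, g.det ≠ 0 ∧
      ∃ r : Fin n → ℤ, r ≠ 0 ∧ ∑ i, r i = 0 ∧ ∀ m ∈ (act g f).support, 0 ≤ pair r m := by
  constructor
  · intro h
    by_contra hcon
    push Not at hcon
    apply h
    have hcon' : ∀ g : Matrix (Fin n) (Fin n) ℂ, g.det ≠ 0 → ∀ r : Fin n → ℤ, r ≠ 0 →
        ∑ i, r i = 0 → ∃ m ∈ (act g f).support, pair r m < 0 := hcon
    refine ⟨?_, ?_, stabiliser_finite hf hcon'⟩
    · by_contra hs
      obtain ⟨g, hg, r, hr, hpos⟩ := (not_semistable_iff hf).1 hs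
      obtain ⟨m, hm⟩ := support_nonempty.2 (act_ne_zero hg hf0)
      have hr0 : r ≠ 0 := by
        rintro rfl
        have := hpos m hm
        simp [pair] at this
      obtain ⟨m, hm, hlt⟩ := hcon' g hg r hr0 hr
      have := hpos m hm
      omega
    · rw [← closure_subset_iff_isClosed]
      intro y hy
      obtain ⟨𝒢, h𝒢⟩ := exists_ultrafilter hy
      obtain ⟨g₀, hg₀⟩ := converge_aux hf hcon' h𝒢
      refine ⟨g₀, ?_⟩
      funext m
      have h1 := ((continuous_coeff_act f m).tendsto g₀.1).comp hg₀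
      exact tendsto_nhds_unique h1 ((tendsto_pi_nhds.1 h𝒢) m)
  · rintro ⟨g, hg, r, hr0, hr, h⟩ hs
    obtain ⟨g', hg'⟩ := exists_SL g hg f
    rw [← hg'] at h
    exact stable_aux_left hs g' r hr0 hr h

end Pool.Agent.Q76.GIT
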