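import Pool.Agent.Q76.GIT.Act

/-!
# The polar decomposition `g = v a u`, with `v`, `u` unitary and `a` positive diagonal
-/

set_option autoImplicit false

namespace Pool.Agent.Q76.GIT

open Matrix ComplexOrder

variable {n : ℕ}

theorem kak (g : Matrix (Fin n) (Fin n) ℂ) (hg : g.det = 1) :
    ∃ (v : Matrix (Fin n) (Fin n) ℂ) (a : Fin n → ℝ) (u : Matrix (Fin n) (Fin n) ℂ),
      star v * v = 1 ∧ star u * u = 1 ∧ (∀ i, 0 < a i) ∧ ∏ i, a i = 1 ∧
      g = v * diagonal (fun i => (a i : ℂ)) * u := by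
  have hunit : IsUnit g := (Matrix.isUnit_iff_isUnit_det g).2 (by rw [hg]; exact isUnit_one)
  have hinj : Function.Injective g.mulVec := by
    rw [Matrix.mulVec_injective_iff_isUnit]; exact hunit
  have hpos : (gᴴ * g).PosDef := Matrix.PosDef.conjTranspose_mul_self g hinj
  set hH := hpos.1 with hHdef
  set l := hH.eigenvalues with hl
  have hlpos : ∀ i, 0 < l i := fun i => hpos.eigenvalues_pos i
  set U : Matrix (Fin n) (Fin n) ℂ := (hH.eigenvectorUnitary : Matrix (Fin n) (Fin n) ℂ) with hU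
  have hUU : star U * U = 1 := (Unitary.mem_iff.1 hH.eigenvectorUnitary.2).1
  have hUU' : U * star U = 1 := (Unitary.mem_iff.1 hH.eigenvectorUnitary.2).2
  have hspec : gᴴ * g = U * diagonal (fun i => ((l i : ℝ) : ℂ)) * star U := by
    have := hH.spectral_theorem
    rw [Unitary.conjStarAlgAut_apply] at this
    exact this
  have hne : ∀ i, (Real.sqrt (l i) : ℂ) ≠ 0 := fun i => by
    exact_mod_cast (Real.sqrt_pos.2 (hlpos i)).ne'
  have hprod : ∏ i, l i = 1 := by
    have h1 : (gᴴ * g).det = 1 := by rw [det_mul, det_conjTranspose, hg]; simp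
    rw [hH.det_eq_prod_eigenvalues] at h1
    have h2 : ((∏ i, l i : ℝ) : ℂ) = 1 := by
      rw [← h1]; push_cast; rfl
    exact_mod_cast h2
  refine ⟨g * U * diagonal (fun i => ((Real.sqrt (l i) : ℝ) : ℂ)⁻¹), fun i => Real.sqrt (l i),
    star U, ?_, ?_, fun i => Real.sqrt_pos.2 (hlpos i), ?_, ?_⟩
  · rw [star_mul, star_mul, star_eq_conjTranspose (diagonal _), diagonal_conjTranspose]
    have e1 : (star fun i => ((Real.sqrt (l i) : ℝ) : ℂ)⁻¹) =
        fun i => ((Real.sqrt (l i) : ℝ) : ℂ)⁻¹ := by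
      funext i; simp
    rw [e1]
    have e2 : diagonal (fun i => ((Real.sqrt (l i) : ℝ) : ℂ)⁻¹) * (star U * star g) *
        (g * U * diagonal (fun i => ((Real.sqrt (l i) : ℝ) : ℂ)⁻¹)) =
        diagonal (fun i => ((Real.sqrt (l i) : ℝ) : ℂ)⁻¹) * (star U * (gᴴ * g) * U) *
        diagonal (fun i => ((Real.sqrt (l i) : ℝ) : ℂ)⁻¹) := by
      rw [star_eq_conjTranspose g]
      simp only [Matrix.mul_assoc]
    rw [e2, hspec]
    have e3 : star U * (U * diagonal (fun i => ((l i : ℝ) : ℂ)) * star U) * U =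
        diagonal (fun i => ((l i : ℝ) : ℂ)) := by
      calc _ = (star U * U) * diagonal (fun i => ((l i : ℝ) : ℂ)) * (star U * U) := by
            simp only [Matrix.mul_assoc]
        _ = _ := by rw [hUU, Matrix.one_mul, Matrix.mul_one]
    rw [e3, diagonal_mul_diagonal, diagonal_mul_diagonal, ← diagonal_one]
    congr 1
    funext i
    have h1 : ((l i : ℝ) : ℂ) = (Real.sqrt (l i) : ℂ) * (Real.sqrt (l i) : ℂ) := by
      rw [← Complex.ofReal_mul, Real.mul_self_sqrt (hlpos i).le]
    rw [h1]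
    field_simp [hne i]
  · rw [star_star]; exact hUU'
  · rw [← Real.sqrt_prod _ fun i _ => (hlpos i).le, hprod, Real.sqrt_one]
  · rw [Matrix.mul_assoc (g * U), diagonal_mul_diagonal]
    have : (fun i => ((Real.sqrt (l i) : ℝ) : ℂ)⁻¹ * ((Real.sqrt (l i) : ℝ) : ℂ)) =
        fun _ => (1 : ℂ) := by
      funext i
      exact inv_mul_cancel₀ (hne i)
    rw [this, diagonal_one, Matrix.mul_one, Matrix.mul_assoc, hUU', Matrix.mul_one]

/-- the matrices with entries of norm at most `1` -/
theorem compact_unitary : IsCompact {v : Matrix (Fin n) (Fin n) ℂ | star v * v = 1} := by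
  have hcomp : IsCompact {v : Matrix (Fin n) (Fin n) ℂ | ∀ i j, ‖v i j‖ ≤ 1} := by
    have h1 : IsCompact (Set.pi Set.univ fun _ : Fin n =>
        Set.pi Set.univ fun _ : Fin n => Metric.closedBall (0 : ℂ) 1) :=
      isCompact_univ_pi fun _ => isCompact_univ_pi fun _ => isCompact_closedBall _ _
    have h2 : {v : Matrix (Fin n) (Fin n) ℂ | ∀ i j, ‖v i j‖ ≤ 1} =
        Set.pi Set.univ fun _ : Fin n =>
          Set.pi Set.univ fun _ : Fin n => Metric.closedBall (0 : ℂ) 1 := by
      apply Set.ext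
      intro v
      constructor
      · intro h i _ j _
        exact mem_closedBall_zero_iff.2 (h i j)
      · intro h i j
        exact mem_closedBall_zero_iff.1 (h i (Set.mem_univ i) j (Set.mem_univ j))
    rw [h2]
    exact h1
  have hclosed : IsClosed {v : Matrix (Fin n) (Fin n) ℂ | star v * v = 1} := by
    apply isClosed_eq
    · exact (continuous_star).mul continuous_id
    · exact continuous_const
  refine hcomp.of_isClosed_subset hclosed ?_
  intro v hv i j
  apply entry_norm_bound_of_unitary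
  rw [Matrix.mem_unitaryGroup_iff']
  exact hv

end Pool.Agent.Q76.GIT
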